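import Mathlib

/-!
# Block KR-F: Farkas' lemma (Bartl's proof), only Mathlib

Induction on `S`, for all `V`-functionals at once (`a`, `c` universally quantified). `S = ∅`: `c x ≤ 0`
for all `x` and `c (-x) ≤ 0` give `c = 0`. `insert k S`: if already `∀ i ∈ S, a i x ≤ 0` implies
`c x ≤ 0` use the induction hypothesis and `lam k = 0`. Otherwise there is `x₁` with `a i x₁ ≤ 0` for
`i ∈ S` and `0 < c x₁`; then `0 < a k x₁`, and after scaling `a k x₁ = 1`. Let
`a' i = a i - a i x₁ • a k`, `c' = c - c x₁ • a k`; for `x ∈ V` the vector `x' = x - a k x • x₁` has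
`a k x' = 0`, `a i x' = a' i x`, `c x' = c' x`. So `a' i x ≤ 0` for all `i ∈ S` implies `c' x ≤ 0`, and
by the induction hypothesis `c' = ∑_{i ∈ S} lam i • a' i` with `lam i ≥ 0`. Hence
`c = ∑_{i ∈ S} lam i • a i + (c x₁ - ∑_{i ∈ S} lam i * a i x₁) • a k`, and the last coefficient is
`≥ 0`. (Reset `lam k`; `k ∉ S`.)
-/

set_option autoImplicit false

namespace Pool.Agent.Helper12.KR

theorem farkas {F V ι : Type*} [Field F] [LinearOrder F] [IsStrictOrderedRing F] [AddCommGroup V]
    [Module F V] [DecidableEq ι] (S : Finset ι) (a : ι → V →ₗ[F] F) (c : V →ₗ[F] F)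
    (h : ∀ x, (∀ i ∈ S, a i x ≤ 0) → c x ≤ 0) :
    ∃ lam : ι → F, (∀ i, 0 ≤ lam i) ∧ (∀ i, i ∉ S → lam i = 0) ∧ c = ∑ i ∈ S, lam i • a i := by
  induction S using Finset.induction_on generalizing a c with
  | empty =>
    refine ⟨fun _ => 0, fun _ => le_refl _, fun _ _ => rfl, ?_⟩
    rw [Finset.sum_empty]
    refine LinearMap.ext fun x => ?_
    have h1 := h x (fun i hi => absurd hi (Finset.notMem_empty i))
    have h2 := h (-x) (fun i hi => absurd hi (Finset.notMem_empty i))
    rw [map_neg] at h2
    rw [LinearMap.zero_apply]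
    linarith
  | insert k S hk ih =>
    by_cases hS : ∀ x, (∀ i ∈ S, a i x ≤ 0) → c x ≤ 0
    · obtain ⟨lam, h0, h1, h2⟩ := ih a c hS
      refine ⟨lam, h0, fun i hi => h1 i fun hi' => hi (Finset.mem_insert_of_mem hi'), ?_⟩
      rw [Finset.sum_insert hk, h1 k hk, zero_smul, zero_add]
      exact h2
    · push Not at hS
      obtain ⟨x₀, hx₀, hcx₀⟩ := hS
      have hak : 0 < a k x₀ := by
        by_contra hn
        push Not at hn
        have := h x₀ (fun i hi => by
          rcases Finset.mem_insert.1 hi with rfl | hi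
          · exact hn
          · exact hx₀ i hi)
        exact absurd this (not_le.2 hcx₀)
      obtain ⟨x₁, hx₁, hcx₁, hkx₁⟩ : ∃ x₁ : V, (∀ i ∈ S, a i x₁ ≤ 0) ∧ 0 < c x₁ ∧ a k x₁ = 1 := by
        refine ⟨(a k x₀)⁻¹ • x₀, fun i hi => ?_, ?_, ?_⟩
        · rw [map_smul, smul_eq_mul]
          exact mul_nonpos_of_nonneg_of_nonpos (inv_nonneg.2 hak.le) (hx₀ i hi)
        · rw [map_smul, smul_eq_mul]
          exact mul_pos (inv_pos.2 hak) hcx₀
        · rw [map_smul, smul_eq_mul, inv_mul_cancel₀ hak.ne']
      obtain ⟨lam, h0, h1, h2⟩ := ih (fun i => a i - a i x₁ • a k) (c - c x₁ • a k) (by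
        intro x hx
        have h3 := h (x - a k x • x₁) (fun i hi => by
          rcases Finset.mem_insert.1 hi with rfl | hi
          · rw [map_sub, map_smul, smul_eq_mul, hkx₁, mul_one, sub_self]
          · have h4 := hx i hi
            rw [LinearMap.sub_apply, LinearMap.smul_apply, smul_eq_mul] at h4
            rw [map_sub, map_smul, smul_eq_mul, mul_comm]
            exact h4)
        rw [map_sub, map_smul, smul_eq_mul, mul_comm] at h3
        rw [LinearMap.sub_apply, LinearMap.smul_apply, smul_eq_mul]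
        exact h3)
      have hc : c = ∑ i ∈ S, lam i • a i + (c x₁ - ∑ i ∈ S, lam i * a i x₁) • a k := by
        refine LinearMap.ext fun x => ?_
        have h3 := congrArg (fun f : V →ₗ[F] F => f x) h2
        simp only [LinearMap.sub_apply, LinearMap.smul_apply, LinearMap.sum_apply, smul_eq_mul] at h3
        simp only [LinearMap.add_apply, LinearMap.smul_apply, LinearMap.sum_apply, smul_eq_mul]
        have h4 : ∑ i ∈ S, lam i * (a i x - a i x₁ * a k x) =
            ∑ i ∈ S, lam i * a i x - (∑ i ∈ S, lam i * a i x₁) * a k x := by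
          rw [Finset.sum_mul, ← Finset.sum_sub_distrib]
          exact Finset.sum_congr rfl fun i _ => by ring
        rw [h4] at h3
        linear_combination h3
      have hpos : 0 ≤ c x₁ - ∑ i ∈ S, lam i * a i x₁ := by
        have h5 : ∑ i ∈ S, lam i * a i x₁ ≤ 0 :=
          Finset.sum_nonpos fun i hi => mul_nonpos_of_nonneg_of_nonpos (h0 i) (hx₁ i hi)
        linarith
      refine ⟨fun i => if i = k then c x₁ - ∑ i ∈ S, lam i * a i x₁ else lam i, fun i => ?_, fun i hi => ?_, ?_⟩
      · simp only
        split_ifs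
        · exact hpos
        · exact h0 i
      · have h6 : i ≠ k := fun h7 => hi (h7 ▸ Finset.mem_insert_self i S)
        simp only
        rw [if_neg h6]
        exact h1 i fun h7 => hi (Finset.mem_insert_of_mem h7)
      · rw [Finset.sum_insert hk]
        beta_reduce
        rw [if_pos rfl, add_comm]
        conv_lhs => rw [hc]
        congr 1
        refine Finset.sum_congr rfl fun i hi => ?_
        have h6 : i ≠ k := fun h7 => hk (h7 ▸ hi)
        rw [if_neg h6]

end Pool.Agent.Helper12.KR
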