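import Pool.Agent.Helper12.KR.Semi
import Pool.Agent.Helper12.KR.Farkas

/-!
# Block KR-A: rational cones

`pos_or`: `farkas` over `ℚ` with `V = Fin ρ → ℚ`, `S = I`, `a i x = ∑_j x_j W_ij`, `c x = ∑_j x_j θ_j`. If
the implication holds we get `lam ≥ 0` in `ℚ`, zero off `I`, with `θ_j = ∑_i lam_i W_ij` (evaluate at
`Pi.single j 1`). Let `n > 0` be a common denominator (the product of the denominators,
`n = ∏ i, (lam i).den`): `e_i = n lam_i ∈ ℕ`. If it fails there is `x ∈ ℚ^ρ` with `a i x ≤ 0` for `i ∈ I`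
and `0 < c x`: multiply by a common denominator of the `x_j`.
-/

set_option autoImplicit false

namespace Pool.Agent.Helper12.KR

open MeasureTheory Pool.Agent.Helper12.KQ

variable {N ρ : ℕ}

/-- The functional `x ↦ ∑ j, x j * w j` on `ℚ^ρ`. -/
private def lf81 (w : Fin ρ → ℤ) : (Fin ρ → ℚ) →ₗ[ℚ] ℚ where
  toFun x := ∑ j, x j * (w j : ℚ)
  map_add' x y := by simp [add_mul, Finset.sum_add_distrib]
  map_smul' r x := by simp [Finset.mul_sum, mul_assoc]

private theorem lf81_apply (w : Fin ρ → ℤ) (x : Fin ρ → ℚ) :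
    lf81 w x = ∑ j, x j * (w j : ℚ) := rfl

private theorem lf81_single (w : Fin ρ → ℤ) (j : Fin ρ) :
    lf81 w (Pi.single j 1) = (w j : ℚ) := by
  rw [lf81_apply, Finset.sum_eq_single j]
  · simp
  · intro k _ hk
    rw [Pi.single_eq_of_ne hk, zero_mul]
  · intro hj
    exact absurd (Finset.mem_univ j) hj

private theorem den81 {m : ℕ} (x : Fin m → ℚ) :
    ∃ n : ℕ, 0 < n ∧ ∃ z : Fin m → ℤ, ∀ i, (z i : ℚ) = n * x i := by
  refine ⟨∏ i, (x i).den, Finset.prod_pos fun i _ => (x i).pos, ?_⟩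
  have h : ∀ i, ∃ z : ℤ, (z : ℚ) = ((∏ i, (x i).den : ℕ) : ℚ) * x i := by
    intro i
    obtain ⟨k, hk⟩ := Finset.dvd_prod_of_mem (fun i => (x i).den) (Finset.mem_univ i)
    refine ⟨k * (x i).num, ?_⟩
    have h1 : ((x i).den : ℚ) * x i = (x i).num := Rat.den_mul_eq_num (x i)
    rw [hk]
    push_cast
    rw [← h1]
    ring
  choose z hz using h
  exact ⟨z, hz⟩

theorem pos_or (W : Fin N → Fin ρ → ℤ) (θ : Fin ρ → ℤ) (I : Finset (Fin N)) :
    Pos W θ I ∨ ∃ z : Fin ρ → ℤ, (∀ i ∈ I, ∑ j, z j * W i j ≤ 0) ∧ 0 < ∑ j, z j * θ j := by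
  by_cases h : ∀ x : Fin ρ → ℚ, (∀ i ∈ I, lf81 (W i) x ≤ 0) → lf81 θ x ≤ 0
  · left
    obtain ⟨lam, h0, hI, hc⟩ := farkas I (fun i => lf81 (W i)) (lf81 θ) h
    have hθ : ∀ j, (θ j : ℚ) = ∑ i, lam i * (W i j : ℚ) := by
      intro j
      have h1 : lf81 θ (Pi.single j 1) = (∑ i ∈ I, lam i • lf81 (W i)) (Pi.single j 1) := by
        rw [← hc]
      rw [lf81_single, LinearMap.sum_apply] at h1
      rw [h1]
      simp only [LinearMap.smul_apply, lf81_single, smul_eq_mul]
      refine Finset.sum_subset (Finset.subset_univ I) fun i _ hi => ?_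
      rw [hI i hi, zero_mul]
    obtain ⟨n, hn, z, hz⟩ := den81 lam
    have hz0 : ∀ i, 0 ≤ z i := by
      intro i
      have h1 : (0 : ℚ) ≤ z i := by
        rw [hz i]
        exact mul_nonneg (Nat.cast_nonneg n) (h0 i)
      exact_mod_cast h1
    refine ⟨n, fun i => (z i).toNat, hn, ?_, ?_⟩
    · intro i hi
      have h1 : (z i : ℚ) = 0 := by rw [hz i, hI i hi, mul_zero]
      have h2 : z i = 0 := by exact_mod_cast h1
      simp [h2]
    · intro j
      have h1 : ((∑ i, ((z i).toNat : ℤ) * W i j : ℤ) : ℚ) = ((n * θ j : ℤ) : ℚ) := by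
        push_cast
        rw [hθ j, Finset.mul_sum]
        refine Finset.sum_congr rfl fun i _ => ?_
        have h2 : (((z i).toNat : ℤ) : ℚ) = (z i : ℚ) := by
          rw [Int.toNat_of_nonneg (hz0 i)]
        have h3 : (((z i).toNat : ℕ) : ℚ) = (z i : ℚ) := by
          rw [← h2]
          norm_cast
        rw [h3, hz i]
        ring
      exact_mod_cast h1
  · right
    push Not at h
    obtain ⟨x, hx, hc⟩ := h
    obtain ⟨n, hn, z, hz⟩ := den81 x
    have key : ∀ w : Fin ρ → ℤ, ((∑ j, z j * w j : ℤ) : ℚ) = n * lf81 w x := by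
      intro w
      rw [lf81_apply, Finset.mul_sum]
      push_cast
      refine Finset.sum_congr rfl fun j _ => ?_
      rw [hz j]
      ring
    have hn' : (0 : ℚ) < n := by exact_mod_cast hn
    refine ⟨z, fun i hi => ?_, ?_⟩
    · have h1 : ((∑ j, z j * W i j : ℤ) : ℚ) ≤ 0 := by
        rw [key]
        exact mul_nonpos_of_nonneg_of_nonpos hn'.le (hx i hi)
      exact_mod_cast h1
    · have h1 : (0 : ℚ) < ((∑ j, z j * θ j : ℤ) : ℚ) := by
        rw [key]
        exact mul_pos hn' hc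
      exact_mod_cast h1

end Pool.Agent.Helper12.KR
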