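import Pool.Agent.Helper12.KR.Defs

/-!
# Block KR-G: general linear combinations for countably many measures

`KQ/Comb.lean` (`exists_comb`) is the case of one measure. Let `B_n = ∫ (sup_i |f_i|)^(-s) dμ_n < ∞` and
choose `w_n ∈ (0, ∞)` with `∑ w_n B_n < ∞` (e.g. `ENNReal.exists_pos_sum_of_countable` divided by
`1 + B_n`). Let `μ = ∑ w_n μ_n` (`Measure.sum`, s-finite). Then `∫ (sup_i |f_i|)^(-s) dμ = ∑ w_n B_n < ∞`,
so there is `c` with `∫ |∑ c_i f_i|^(-s) dμ < ∞`, and each `w_n ∫ |∑ c_i f_i|^(-s) dμ_n` is at most this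
number.
-/

set_option autoImplicit false

namespace Pool.Agent.Helper12.KR

open MeasureTheory Pool.Agent.Helper12.KQ

theorem exists_comb2 {X ι κ : Type*} [MeasurableSpace X] [Countable κ] (μ : κ → Measure X)
    [∀ n, SFinite (μ n)] {s : ℝ} (hs : 0 < s) (hs2 : s < 2) (S : Finset ι) (f : ι → X → ℂ)
    (hf : ∀ i, Measurable (f i))
    (h : ∀ n, ∫⁻ x, (S.sup fun i => ‖f i x‖ₑ) ^ (-s) ∂(μ n) < ⊤) :
    ∃ c : ι → ℂ, ∀ n, ∫⁻ x, ‖∑ i ∈ S, c i * f i x‖ₑ ^ (-s) ∂(μ n) < ⊤ := by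
  classical
  obtain ⟨ε, hε, c0, hc0, hc0ε⟩ := NNReal.exists_pos_sum_of_countable (ε := 1) one_ne_zero κ
  set B : κ → ENNReal := fun n => ∫⁻ x, (S.sup fun i => ‖f i x‖ₑ) ^ (-s) ∂(μ n) with hB
  have hw : ∀ n, ∃ w : NNReal, 0 < w ∧ (w : ENNReal) * B n ≤ ε n := by
    intro n
    lift (∫⁻ x, (S.sup fun i => ‖f i x‖ₑ) ^ (-s) ∂(μ n)) to NNReal using (h n).ne with b hb
    refine ⟨ε n / (1 + b), by have := hε n; positivity, ?_⟩
    rw [hB]
    simp only
    rw [← hb, ← ENNReal.coe_mul]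
    refine ENNReal.coe_le_coe.2 ?_
    rw [div_mul_eq_mul_div, div_le_iff₀ (by positivity)]
    exact mul_le_mul' le_rfl (le_add_of_nonneg_left zero_le_one)
  choose w hw0 hw1 using hw
  have key := exists_comb (Measure.sum fun n => (w n : NNReal) • μ n) hs hs2 S f hf (by
    rw [lintegral_sum_measure]
    have : ∀ n, ∫⁻ x, (S.sup fun i => ‖f i x‖ₑ) ^ (-s) ∂((w n : NNReal) • μ n) ≤ ε n := by
      intro n
      rw [lintegral_smul_measure]
      exact hw1 n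
    refine (ENNReal.tsum_le_tsum this).trans_lt ?_
    rw [← ENNReal.coe_tsum hc0.summable]
    exact ENNReal.coe_lt_top)
  obtain ⟨c, hc⟩ := key
  refine ⟨c, fun n => ?_⟩
  rw [lintegral_sum_measure] at hc
  have h1 := (ENNReal.le_tsum n).trans_lt hc
  rw [lintegral_smul_measure] at h1
  by_contra hcon
  rw [not_lt, top_le_iff] at hcon
  rw [hcon] at h1
  have h2 : (w n : NNReal) • (⊤ : ENNReal) = ⊤ := by
    rw [ENNReal.smul_def, smul_eq_mul, ENNReal.mul_top]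
    simpa using (hw0 n).ne'
  rw [h2] at h1
  exact lt_irrefl _ h1

end Pool.Agent.Helper12.KR
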