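import Pool.Agent.Helper12.KR.Defs

/-!
# Project KR: conjugate tori have the same rank
-/

set_option autoImplicit false

namespace Pool.Agent.Helper12.KR

open MeasureTheory Pool.Agent.Helper12.KQ

theorem chr_inj {ρ : ℕ} {w w' : Fin ρ → ℤ} (h : ∀ t, chr w t = chr w' t) : w = w' := by
  classical
  funext j
  have h1 := h (Pi.mulSingle j (Units.mk0 (2 : ℂ) two_ne_zero))
  have h2 : ∀ v : Fin ρ → ℤ, chr v (Pi.mulSingle j (Units.mk0 (2 : ℂ) two_ne_zero)) =
      (Units.mk0 (2 : ℂ) two_ne_zero) ^ v j := by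
    intro v
    rw [chr_apply, Finset.prod_eq_single j]
    · rw [Pi.mulSingle_eq_same]
    · intro i _ hi
      rw [Pi.mulSingle_eq_of_ne hi, one_zpow]
    · intro hj
      exact absurd (Finset.mem_univ j) hj
  rw [h2, h2] at h1
  have h3 := congrArg (fun z : ℂˣ => ‖(z : ℂ)‖) h1
  simp only [Units.val_zpow_eq_zpow_val, Units.val_mk0, norm_zpow, Complex.norm_two] at h3
  exact zpow_right_injective₀ (by norm_num) (by norm_num) h3

/-- an invertible matrix has a permutation with nonzero entries -/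
theorem exists_perm {N : ℕ} (g : GL (Fin N) ℂ) :
    ∃ τ : Equiv.Perm (Fin N), ∀ l, (g : Matrix (Fin N) (Fin N) ℂ) (τ l) l ≠ 0 := by
  have h1 : (g : Matrix (Fin N) (Fin N) ℂ).det ≠ 0 :=
    ((Matrix.isUnit_iff_isUnit_det _).1 g.isUnit).ne_zero
  rw [Matrix.det_apply] at h1
  obtain ⟨τ, -, hτ⟩ := Finset.exists_ne_zero_of_sum_ne_zero h1
  exact ⟨τ, fun l hl => hτ (smul_eq_zero_of_right _ (Finset.prod_eq_zero (Finset.mem_univ l) hl))⟩

theorem rank_conj {N ρ : ℕ} {W W' : Fin N → Fin ρ → ℤ} {P : GL (Fin N) ℂ}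
    (h : ∀ t, P * tor W t * P⁻¹ = tor W' t) :
    (Matrix.of fun i j => (W i j : ℚ)).rank = (Matrix.of fun i j => (W' i j : ℚ)).rank := by
  obtain ⟨τ, hτ⟩ := exists_perm P
  have hW : ∀ l, W l = W' (τ l) := by
    intro l
    apply chr_inj
    intro t
    have h1 : P * tor W t = tor W' t * P := by
      rw [← h t]
      group
    have h2 := congrArg (fun g : GL (Fin N) ℂ => (g : Matrix (Fin N) (Fin N) ℂ) (τ l) l) h1
    simp only [Units.val_mul, tor_eq, dg_coe, Matrix.mul_diagonal, Matrix.diagonal_mul] at h2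
    rw [mul_comm] at h2
    exact Units.ext (mul_right_cancel₀ (hτ l) h2)
  have h1 : (Matrix.of fun i j => (W i j : ℚ)) =
      (Matrix.of fun i j => (W' i j : ℚ)).submatrix τ (Equiv.refl _) := by
    ext i j
    simp [hW i]
  rw [h1, Matrix.rank_submatrix]

end Pool.Agent.Helper12.KR
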