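import Pool.Agent.Helper12.KR.Defs

/-!
# Block KR-C: from directions to a convex combination

Compare `KQ/Sep.lean` (`exists_conv`), the case `I = ∅`. Let `T = {m ∈ M | -k ≤ m_i for all i}` (real
vectors), `0 ∈ T`, `C` its convex hull, and let `O` be the open convex set
`{y | y_i < 0 for all i ∉ I}` of `ℝ^N` (not empty). If `C` meets `O` we are done. Suppose that they are
disjoint. By `geometric_hahn_banach_open` there are a linear functional `f` and `u` with
`f y < u ≤ f c` for `y ∈ O`, `c ∈ C`. Let `f y = ∑ v_i y_i`. As `0 ∈ C`, `u ≤ 0`, so `f y < 0` on `O` and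
`v ≠ 0`. `v_i = 0` for `i ∈ I`: `f` is bounded above on `O`, and `O` is stable under adding multiples of
the basis vector `e_i`. `v_i ≥ 0` for `i ∉ I`: `O` is stable under adding negative multiples of `e_i`.
Letting `y ∈ O` tend to `0` (`y = -δ (1, ..., 1)`) we get `0 ≤ u`. Hence
`∑ v_i c_i ≥ 0` for all `c ∈ C`. But by hypothesis (for `v`) there is `m ∈ T` with `∑ m_i v_i < 0`;
contradiction.
-/

set_option autoImplicit false

namespace Pool.Agent.Helper12.KR

theorem exists_conv2 {N k : ℕ} (M : Set (Fin N → ℤ)) (h0 : (0 : Fin N → ℤ) ∈ M)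
    (I : Finset (Fin N)) (h : ∀ v : Fin N → ℝ, v ≠ 0 → (∀ i, 0 ≤ v i) → (∀ i ∈ I, v i = 0) →
      ∃ m ∈ M, ∑ i, (m i : ℝ) * v i < 0 ∧ ∀ i, -(k : ℤ) ≤ m i) :
    ∃ (S : Finset (Fin N → ℤ)) (lam : (Fin N → ℤ) → ℝ),
      (∀ m ∈ S, m ∈ M ∧ ∀ i, -(k : ℤ) ≤ m i) ∧ (∀ m ∈ S, 0 ≤ lam m) ∧ ∑ m ∈ S, lam m = 1 ∧
      ∀ i, i ∉ I → ∑ m ∈ S, lam m * (m i : ℝ) < 0 := by
  classical
  set e : (Fin N → ℤ) → (Fin N → ℝ) := fun m i => (m i : ℝ) with he
  have hinj : Function.Injective e := by
    intro m m' hmm
    funext i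
    have := congrFun hmm i
    simp only [he] at this
    exact_mod_cast this
  set T : Set (Fin N → ℤ) := {m | m ∈ M ∧ ∀ i, -(k : ℤ) ≤ m i} with hT
  have h0T : (0 : Fin N → ℤ) ∈ T := ⟨h0, fun i => by simp⟩
  have he0 : e 0 = 0 := by
    funext i
    simp [he]
  set C : Set (Fin N → ℝ) := convexHull ℝ (e '' T) with hC
  set O : Set (Fin N → ℝ) := {y | ∀ i, i ∉ I → y i < 0} with hO
  have hOo : IsOpen O := by
    have : O = ⋂ i, ⋂ (_ : i ∉ I), {y : Fin N → ℝ | y i < 0} := by
      ext y
      simp [hO]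
    rw [this]
    exact isOpen_iInter_of_finite fun i => isOpen_iInter_of_finite fun _ =>
      isOpen_lt (continuous_apply i) continuous_const
  have hOc : Convex ℝ O := by
    intro x hx y hy a b ha hb hab i hi
    have h1 : x i < 0 := hx i hi
    have h2 : y i < 0 := hy i hi
    simp only [Pi.add_apply, Pi.smul_apply, smul_eq_mul]
    rcases ha.lt_or_eq with ha' | ha'
    · nlinarith
    · have hb1 : b = 1 := by linarith
      rw [← ha', hb1]
      linarith
  have hmeet : (O ∩ C).Nonempty := by
    by_contra hne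
    rw [Set.not_nonempty_iff_eq_empty, ← Set.disjoint_iff_inter_eq_empty] at hne
    obtain ⟨f, u, hf, hu⟩ := geometric_hahn_banach_open hOc hOo (convex_convexHull ℝ _) hne
    have hu0 : u ≤ 0 := by
      have := hu (e 0) (subset_convexHull ℝ _ (Set.mem_image_of_mem e h0T))
      rwa [he0, map_zero] at this
    set y0 : Fin N → ℝ := fun _ => -1 with hy0
    have hy0O : y0 ∈ O := fun i _ => by simp [hy0]
    have hfy0 : f y0 < u := hf y0 hy0O
    have hfneg : f y0 < 0 := by linarith
    have hu1 : 0 ≤ u := by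
      by_contra hc
      push Not at hc
      have ht : 0 < u / (2 * f y0) := div_pos_of_neg_of_neg hc (by linarith)
      have h1 : (u / (2 * f y0)) • y0 ∈ O := fun i _ => by
        simp only [Pi.smul_apply, smul_eq_mul, hy0]
        linarith
      have h2 := hf _ h1
      rw [map_smul, smul_eq_mul] at h2
      have h3 : u / (2 * f y0) * f y0 = u / 2 := by
        have h4 : f y0 ≠ 0 := hfneg.ne
        generalize f y0 = z at h4
        field_simp
      rw [h3] at h2
      linarith
    set v : Fin N → ℝ := fun i => f (Pi.single i 1) with hv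
    have hfv : ∀ y : Fin N → ℝ, f y = ∑ i, y i * v i := by
      intro y
      have h1 : y = ∑ i, y i • (Pi.single i (1 : ℝ) : Fin N → ℝ) := by
        funext j
        simp [Finset.sum_apply, Pi.single_apply]
      conv_lhs => rw [h1]
      rw [map_sum]
      refine Finset.sum_congr rfl fun i _ => ?_
      rw [map_smul, smul_eq_mul]
    have hv0 : v ≠ 0 := by
      intro hv0
      rw [hfv y0, hv0] at hfneg
      simp at hfneg
    -- moving in the direction of a basis vector
    have hmove : ∀ i (t : ℝ), (i ∈ I ∨ t ≤ 0) → f y0 + t * v i < u := by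
      intro i t hit
      have h1 : y0 + t • (Pi.single i (1 : ℝ) : Fin N → ℝ) ∈ O := by
        intro j hj
        simp only [Pi.add_apply, Pi.smul_apply, smul_eq_mul, hy0]
        by_cases hij : j = i
        · subst hij
          rcases hit with hit | hit
          · exact absurd hit hj
          · simp only [Pi.single_eq_same]
            linarith
        · rw [Pi.single_eq_of_ne hij]
          linarith
      have h2 := hf _ h1
      rw [map_add, map_smul, smul_eq_mul] at h2
      exact h2
    have hvI : ∀ i ∈ I, v i = 0 := by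
      intro i hi
      by_contra hvi
      have h1 := hmove i ((u - f y0) / v i) (Or.inl hi)
      rw [div_mul_cancel₀ _ hvi] at h1
      linarith
    have hvn : ∀ i, 0 ≤ v i := by
      intro i
      by_contra hvi
      push Not at hvi
      have h1 := hmove i ((u - f y0) / v i) (Or.inr (div_nonpos_of_nonneg_of_nonpos
        (by linarith) hvi.le))
      rw [div_mul_cancel₀ _ hvi.ne] at h1
      linarith
    obtain ⟨m, hm, hm1, hm2⟩ := h v hv0 hvn hvI
    have h3 := hu (e m) (subset_convexHull ℝ _ (Set.mem_image_of_mem e ⟨hm, hm2⟩))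
    rw [hfv] at h3
    simp only [he] at h3
    linarith
  obtain ⟨y, hyO, hyC⟩ := hmeet
  rw [hC, convexHull_eq_union_convexHull_finite_subsets] at hyC
  simp only [Set.mem_iUnion] at hyC
  obtain ⟨t, ht, hyt⟩ := hyC
  rw [Finset.mem_convexHull'] at hyt
  obtain ⟨w, hw0, hw1, hwy⟩ := hyt
  have hrange : ∀ z ∈ t, z ∈ Set.range e := fun z hz => by
    obtain ⟨m, _, hm⟩ := ht hz
    exact ⟨m, hm⟩
  refine ⟨t.preimage e hinj.injOn, fun m => w (e m), ?_, ?_, ?_, ?_⟩
  · intro m hm
    rw [Finset.mem_preimage] at hm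
    obtain ⟨m', hm', hmm⟩ := ht hm
    rw [← hinj hmm]
    exact hm'
  · intro m hm
    rw [Finset.mem_preimage] at hm
    exact hw0 _ hm
  · rw [Finset.sum_preimage e t hinj.injOn w fun z hz hz' => absurd (hrange z hz) hz']
    exact hw1
  · intro i hiI
    have h1 : ∑ m ∈ t.preimage e hinj.injOn, w (e m) * (m i : ℝ) = ∑ z ∈ t, w z * z i := by
      rw [← Finset.sum_preimage e t hinj.injOn (fun z => w z * z i)
        fun z hz hz' => absurd (hrange z hz) hz']
    rw [h1]
    have h2 := congrFun hwy i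
    rw [Finset.sum_apply] at h2
    simp only [Pi.smul_apply, smul_eq_mul] at h2
    rw [h2]
    exact hyO i hiI

end Pool.Agent.Helper12.KR
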