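import Pool.Agent.Helper12.KQ.Main

/-!
# Project KR (MP_bca9b8_ag): bounded klt complements for quotients by a torus times a finite group

Extension of project KQ (`Pool/Agent/Helper12/KQ`). `V = ℂ^N`, `T = (ℂˣ)^ρ` acts on `V` by
`tor W t = diag (t^(W 0), ..., t^(W (N-1)))` (`W i ∈ ℤ^ρ` the weights), `G` is a finite subgroup of
`GL_N(ℂ)` normalising `T`, `θ ∈ ℤ^ρ` a character. `Sst W θ` is the set of the `θ`-semistable
points, `X = V^ss(θ) // (T G)`, `Z = V // (T G)`. The anticanonical character is `can W`, the sum of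
the weights; `-K_X` is nef over `Z` iff every `θ`-semistable point is `can W`-semistable.
-/

set_option autoImplicit false

namespace Pool.Agent.Helper12.KR

open MeasureTheory Pool.Agent.Helper12.KQ

/-- The character `t ↦ t^θ = ∏ t_j^(θ_j)` of the torus `(ℂˣ)^ρ`. -/
noncomputable def chr {ρ : ℕ} (θ : Fin ρ → ℤ) : (Fin ρ → ℂˣ) →* ℂˣ where
  toFun t := ∏ j, t j ^ θ j
  map_one' := by simp
  map_mul' s t := by simp [mul_zpow, Finset.prod_mul_distrib]

theorem chr_apply {ρ : ℕ} (θ : Fin ρ → ℤ) (t : Fin ρ → ℂˣ) : chr θ t = ∏ j, t j ^ θ j := rfl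

/-- The action of the torus with weights `W i`: the matrix `diag (t^(W i))`. -/
noncomputable def tor {N ρ : ℕ} (W : Fin N → Fin ρ → ℤ) : (Fin ρ → ℂˣ) →* GL (Fin N) ℂ :=
  (dg N).comp (MonoidHom.mk' (fun t i => chr (W i) t) (fun s t => by
    funext i
    exact map_mul (chr (W i)) s t))

theorem tor_eq {N ρ : ℕ} (W : Fin N → Fin ρ → ℤ) (t : Fin ρ → ℂˣ) :
    tor W t = dg N fun i => chr (W i) t := rfl

/-- The sum of the weights. -/
def can {N ρ : ℕ} (W : Fin N → Fin ρ → ℤ) : Fin ρ → ℤ := fun j => ∑ i, W i j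

/-- Semistable points: some polynomial `f` with `f (t x) = (t^θ)^n f (x)`, `n > 0`, does not vanish
at `u`. -/
def Sst {N ρ : ℕ} (W : Fin N → Fin ρ → ℤ) (θ : Fin ρ → ℤ) (u : Fin N → ℂ) : Prop :=
  ∃ (n : ℕ) (f : MvPolynomial (Fin N) ℂ), 0 < n ∧
    (∀ (t : Fin ρ → ℂˣ) (x : Fin N → ℂ),
      MvPolynomial.eval ((tor W t : Matrix (Fin N) (Fin N) ℂ).mulVec x) f =
        (chr θ t : ℂ) ^ n * MvPolynomial.eval x f) ∧
    MvPolynomial.eval u f ≠ 0

/-- `|h| ^ (-2/n)` is integrable in a neighbourhood of `u`. -/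
def KltAt {N : ℕ} (n : ℕ) (h : MvPolynomial (Fin N) ℂ) (u : Fin N → ℂ) : Prop :=
  ∃ U ∈ nhds u, ∫⁻ x in U, ‖MvPolynomial.eval x h‖ₑ ^ (-(2 / (n : ℝ))) < ⊤

/-- `m` is the exponent of a Laurent monomial which is invariant under the torus. -/
def Inv {N ρ : ℕ} (W : Fin N → Fin ρ → ℤ) (m : Fin N → ℤ) : Prop := ∀ j, ∑ i, m i * W i j = 0

/-- All the eigenvalues have absolute value one. -/
def Elliptic {N : ℕ} (g : Matrix (Fin N) (Fin N) ℂ) : Prop := ∀ z ∈ g.charpoly.roots, ‖z‖ = 1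

/-- `θ` is in the rational cone spanned by the weights `W i`, `i ∈ I`. -/
def Pos {N ρ : ℕ} (W : Fin N → Fin ρ → ℤ) (θ : Fin ρ → ℤ) (I : Finset (Fin N)) : Prop :=
  ∃ (n : ℕ) (e : Fin N → ℕ), 0 < n ∧ (∀ i, i ∉ I → e i = 0) ∧
    ∀ j, ∑ i, (e i : ℤ) * W i j = n * θ j

/-- The indicator function of `I` as a point of `ℂ^N`. -/
noncomputable def pt {N : ℕ} (I : Finset (Fin N)) : Fin N → ℂ := fun i => by
  classical exact if i ∈ I then 1 else 0

/-- The support of a point. -/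
noncomputable def supp {N : ℕ} (u : Fin N → ℂ) : Finset (Fin N) := by
  classical exact Finset.univ.filter fun i => u i ≠ 0

theorem mem_supp {N : ℕ} {u : Fin N → ℂ} {i : Fin N} : i ∈ supp u ↔ u i ≠ 0 := by
  simp [supp]

theorem supp_pt {N : ℕ} (I : Finset (Fin N)) : supp (pt I) = I := by
  ext i
  rw [mem_supp]
  unfold pt
  split_ifs with h <;> simp [h]

/-- The region `R⁻¹ < |x_i| < R` for `i ∈ I`, `|x_i| < R` for `i ∉ I`. -/
noncomputable def box {N : ℕ} (I : Finset (Fin N)) (R : ℝ) : Set (Fin N → ℂ) := by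
  classical exact Set.univ.pi fun i => if i ∈ I then {z : ℂ | R⁻¹ < ‖z‖ ∧ ‖z‖ < R}
    else Metric.ball 0 R

end Pool.Agent.Helper12.KR
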