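import Pool.Agent.Helper12.KR.Defs

/-!
# Block KR-D: the characters vanishing on a torus times a finite group

Let `L = {m ∈ ℤ^N | a^m = 1 for all a ∈ A}` (`x^m = ∏ x_i^(m_i)`), a subgroup of `ℤ^N`, and
`φ : L → ℤ^ρ`, `φ m = ∑ m_i W_i`. By hypothesis `m ↦ t^m` is trivial on the kernel of `φ`, so it factors
through the subgroup `φ(L)` of `ℤ^ρ`. The group `ℂˣ` is divisible (roots exist), so the homomorphism
`φ(L) → ℂˣ` extends to a homomorphism `χ : ℤ^ρ → ℂˣ` (`Module.Baer.of_divisible`,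
`Module.Baer.injective` or `AddCommGrpCat.injective_of_divisible` for `Additive ℂˣ`; or by hand: Zorn /
induction on `ρ`). Put `s_j = χ (e_j)`; then `χ w = ∏ s_j^(w_j) = chr w s`. For `m ∈ L`:
`t^m = χ (∑ m_i W_i) = ∏_i (chr (W i) s)^(m_i)`. So `a_i = t_i * (chr (W i) s)⁻¹` satisfies `a^m = 1` for
all `m ∈ L`, hence `a ∈ A` by `mem_of_chars` (project KQ, `Dual.lean`).
-/

set_option autoImplicit false

namespace Pool.Agent.Helper12.KR

open MeasureTheory Pool.Agent.Helper12.KQ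

variable {N ρ : ℕ}

private theorem exists_root75 (x : ℂˣ) (n : ℤ) (hn : n ≠ 0) : ∃ y : ℂˣ, y ^ n = x := by
  have key : ∀ (k : ℕ) (z : ℂˣ), 0 < k → ∃ y : ℂˣ, y ^ k = z := by
    intro k z hk
    obtain ⟨y, hy⟩ := IsAlgClosed.exists_pow_nat_eq (z : ℂ) hk
    have hy0 : y ≠ 0 := by
      rintro rfl
      rw [zero_pow hk.ne'] at hy
      exact z.ne_zero hy.symm
    refine ⟨Units.mk0 y hy0, ?_⟩
    apply Units.ext
    simpa using hy
  obtain ⟨y, hy⟩ := key n.natAbs x (Int.natAbs_pos.2 hn)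
  rcases Int.natAbs_eq n with h | h
  · refine ⟨y, ?_⟩
    rw [h, zpow_natCast, hy]
  · refine ⟨y⁻¹, ?_⟩
    rw [h, zpow_neg, inv_zpow, inv_inv, zpow_natCast, hy]

private theorem baer75 : Module.Baer ℤ (Additive ℂˣ) := by
  classical
  have h : ∀ (a : Additive ℂˣ) (n : ℤ), ∃ y : Additive ℂˣ, (n = 0 → y = 0) ∧
      (n ≠ 0 → n • y = a) := by
    intro a n
    by_cases hn : n = 0
    · exact ⟨0, fun _ => rfl, fun h => absurd hn h⟩
    · obtain ⟨y, hy⟩ := exists_root75 a.toMul n hn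
      refine ⟨Additive.ofMul y, fun h => absurd h hn, fun _ => ?_⟩
      rw [← ofMul_zpow, hy]
      rfl
  choose f hf using h
  letI : DivisibleBy (Additive ℂˣ) ℤ :=
    { div := f
      div_zero := fun a => (hf a 0).1 rfl
      div_cancel := fun {n} a hn => (hf a n).2 hn }
  exact Module.Baer.of_divisible _

private theorem zpow_sum75 {N : ℕ} (z : ℂˣ) (f : Fin N → ℤ) :
    z ^ (∑ i, f i) = ∏ i, z ^ f i := by
  have h := map_sum (zpowersHom ℂˣ z).toAdditiveRight f Finset.univ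
  exact Additive.ofMul.injective h

private theorem chr_add75 {ρ : ℕ} (w : Fin ρ → ℤ) (s : Fin ρ → ℂˣ) :
    Additive.ofMul (chr w s) = ∑ j, w j • Additive.ofMul (s j) := by
  rw [chr_apply, ofMul_prod]
  rfl

/-- extension of homomorphisms from subgroups of `ℤ^ρ` to `ℂˣ` -/
theorem exists_ext (H : AddSubgroup (Fin ρ → ℤ)) (f : H →+ Additive ℂˣ) :
    ∃ s : Fin ρ → ℂˣ, ∀ w : H, f w = Additive.ofMul (chr (w : Fin ρ → ℤ) s) := by
  classical
  obtain ⟨χ, hχ⟩ := baer75.extension_property_addMonoidHom H.subtype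
    (AddSubgroup.subtype_injective H) f
  refine ⟨fun j => (χ (Pi.single j 1)).toMul, fun w => ?_⟩
  have h1 : f w = χ (w : Fin ρ → ℤ) := by
    rw [← hχ]
    rfl
  rw [h1, chr_add75]
  have h2 : (w : Fin ρ → ℤ) = ∑ j, (w : Fin ρ → ℤ) j • (Pi.single j 1 : Fin ρ → ℤ) := by
    funext i
    rw [Finset.sum_apply, Finset.sum_eq_single i]
    · simp
    · intro j _ hj
      simp [Pi.single_eq_of_ne hj.symm]
    · intro h
      exact absurd (Finset.mem_univ i) h
  conv_lhs => rw [h2]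
  rw [map_sum]
  refine Finset.sum_congr rfl fun j _ => ?_
  rw [map_zsmul]
  rfl

theorem dual2 (W : Fin N → Fin ρ → ℤ) (A : Subgroup (Fin N → ℂˣ)) (hA : Finite A)
    (t : Fin N → ℂˣ) (ht : ∀ m : Fin N → ℤ, (∀ a ∈ A, ∏ i, a i ^ m i = 1) →
      (∀ j, ∑ i, m i * W i j = 0) → ∏ i, t i ^ m i = 1) :
    ∃ (s : Fin ρ → ℂˣ), ∃ a ∈ A, ∀ i, t i = chr (W i) s * a i := by
  classical
  let L : AddSubgroup (Fin N → ℤ) :=
    { carrier := {m | ∀ a ∈ A, ∏ i, a i ^ m i = 1}
      zero_mem' := by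
        intro a _
        simp
      add_mem' := by
        intro m m' hm hm' a ha
        simp only [Pi.add_apply, zpow_add, Finset.prod_mul_distrib]
        rw [hm a ha, hm' a ha, one_mul]
      neg_mem' := by
        intro m hm a ha
        simp only [Pi.neg_apply, zpow_neg, Finset.prod_inv_distrib]
        rw [hm a ha, inv_one] }
  let φ : L →+ (Fin ρ → ℤ) :=
    { toFun := fun m j => ∑ i, (m : Fin N → ℤ) i * W i j
      map_zero' := by
        funext j
        simp
      map_add' := by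
        intro m m'
        funext j
        simp [add_mul, Finset.sum_add_distrib] }
  let ψ : L →+ Additive ℂˣ :=
    { toFun := fun m => Additive.ofMul (∏ i, t i ^ (m : Fin N → ℤ) i)
      map_zero' := by simp
      map_add' := by
        intro m m'
        rw [← ofMul_mul]
        congr 1
        simp [zpow_add, Finset.prod_mul_distrib] }
  have hker : φ.rangeRestrict.ker ≤ ψ.ker := by
    intro m hm
    have h1 : φ m = 0 := by
      have := congrArg Subtype.val (AddMonoidHom.mem_ker.1 hm)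
      simpa using this
    rw [AddMonoidHom.mem_ker]
    show Additive.ofMul (∏ i, t i ^ (m : Fin N → ℤ) i) = 0
    rw [ht m m.2 (fun j => congrFun h1 j)]
    rfl
  have hsurj : Function.Surjective φ.rangeRestrict := φ.rangeRestrict_surjective
  obtain ⟨f, hf⟩ : ∃ f : φ.range →+ Additive ℂˣ, ∀ m : L, f (φ.rangeRestrict m) = ψ m := by
    refine ⟨φ.rangeRestrict.liftOfSurjective hsurj ⟨ψ, hker⟩, fun m => ?_⟩
    exact AddMonoidHom.liftOfRightInverse_comp_apply _ _ _ ⟨ψ, hker⟩ m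
  obtain ⟨s, hs⟩ := exists_ext φ.range f
  have hmain : ∀ m : Fin N → ℤ, (∀ a ∈ A, ∏ i, a i ^ m i = 1) →
      ∏ i, t i ^ m i = ∏ i, (chr (W i) s) ^ m i := by
    intro m hm
    have h1 := hf ⟨m, hm⟩
    rw [hs] at h1
    have h2 : ∏ i, t i ^ m i = chr (fun j => ∑ i, m i * W i j) s :=
      (Additive.ofMul.injective h1).symm
    rw [h2, chr_apply]
    have h3 : ∀ i, (chr (W i) s) ^ m i = ∏ j, s j ^ (m i * W i j) := by
      intro i
      rw [chr_apply, ← Finset.prod_zpow]
      refine Finset.prod_congr rfl fun j _ => ?_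
      rw [← zpow_mul, mul_comm]
    rw [Finset.prod_congr rfl fun i _ => h3 i, Finset.prod_comm]
    refine Finset.prod_congr rfl fun j _ => ?_
    exact zpow_sum75 (s j) (fun i => m i * W i j)
  refine ⟨s, fun i => t i * (chr (W i) s)⁻¹, ?_, ?_⟩
  · apply mem_of_chars A hA
    intro m hm
    simp only [mul_zpow, inv_zpow, Finset.prod_mul_distrib, Finset.prod_inv_distrib]
    rw [hmain m hm, mul_inv_cancel]
  · intro i
    show t i = chr (W i) s * (t i * (chr (W i) s)⁻¹)
    rw [mul_comm (t i), mul_inv_cancel_left]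

end Pool.Agent.Helper12.KR
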