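import Pool.Agent.Helper12.KR.Defs

/-!
# Block KR-E: simultaneous diagonalisation of a torus and a finite abelian group

`block`: the entry `(i, l)` of `a * tor W t = tor W t * a` is `a_il t^(W_l) = t^(W_i) a_il`. If `a_il ≠ 0`
then `t^(W_l) = t^(W_i)` for all `t`; take `t = Pi.mulSingle j 2` to get `W_lj = W_ij`.

`exists_diag2`. Let `Q = {c : Fin N → ℂˣ | c_i^2 = 1, c_i = c_l if W_i = W_l}` (finite) and
`S = {dg c | c ∈ Q}`. The elements of `S` commute with `A`: the entry `(i, l)` of `a * dg c` is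
`a_il c_l`, that of `dg c * a` is `c_i a_il`, and `a_il ≠ 0` implies `W_i = W_l` (`block`). So
`B = {a s | a ∈ A, s ∈ S}` is a finite commutative subgroup. By `exists_diag` (`KQ/Diag.lean`) there is
`P` with `P b P⁻¹` diagonal for all `b ∈ B`. For a weight `w` (an element of the finite set of the `W_i`)
let `E_w = diag (1 if W_i = w, 0 otherwise)`, so `1 - 2 E_w ∈ S` and `P E_w P⁻¹ = diag (e_w)`, with
`e_w(k)^2 = e_w(k)` (idempotent). `∑_w E_w = 1` gives `∑_w e_w(k) = 1` for all `k`, so for every `k` there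
is exactly one `w = W' k` with `e_w(k) = 1` (the others are `0`: the `e_w(k)` are `0` or `1` and their sum
is `1`). `tor W t = ∑_w t^w E_w`, so `P (tor W t) P⁻¹ = ∑_w t^w diag (e_w) = diag (t^(W' k))`.
-/

set_option autoImplicit false

namespace Pool.Agent.Helper12.KR

open MeasureTheory Pool.Agent.Helper12.KQ

variable {N ρ : ℕ}

private theorem tor_val67 (W : Fin N → Fin ρ → ℤ) (t : Fin ρ → ℂˣ) :
    (tor W t : Matrix (Fin N) (Fin N) ℂ) = Matrix.diagonal fun i => (chr (W i) t : ℂ) := by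
  rw [tor_eq, dg_coe]

theorem block {W : Fin N → Fin ρ → ℤ} {a : GL (Fin N) ℂ} (h : ∀ t, a * tor W t = tor W t * a)
    {i l : Fin N} (hil : (a : Matrix (Fin N) (Fin N) ℂ) i l ≠ 0) : W i = W l := by
  funext j
  have h1 := congrArg (fun g : GL (Fin N) ℂ => (g : Matrix (Fin N) (Fin N) ℂ) i l)
    (h (Pi.mulSingle j (Units.mk0 (2 : ℂ) two_ne_zero)))
  simp only [Units.val_mul, tor_val67, Matrix.mul_diagonal, Matrix.diagonal_mul] at h1
  have h2 : ∀ θ : Fin ρ → ℤ, ((chr θ (Pi.mulSingle j (Units.mk0 (2 : ℂ) two_ne_zero)) : ℂˣ) : ℂ) =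
      (2 : ℂ) ^ θ j := by
    intro θ
    rw [chr_apply, Finset.prod_eq_single j]
    · rw [Pi.mulSingle_eq_same, Units.val_zpow_eq_zpow_val, Units.val_mk0]
    · intro b _ hb
      rw [Pi.mulSingle_eq_of_ne hb, one_zpow]
    · intro hj
      exact absurd (Finset.mem_univ j) hj
  rw [h2, h2, mul_comm] at h1
  have h3 := mul_right_cancel₀ hil h1
  have h4 := congrArg norm h3
  rw [norm_zpow, norm_zpow, Complex.norm_ofNat] at h4
  exact (zpow_right_injective₀ (by norm_num : (0 : ℝ) < 2) (by norm_num) h4).symm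

/-- the sign vectors which are constant on the weight blocks -/
private def QQ67 (W : Fin N → Fin ρ → ℤ) : Subgroup (Fin N → ℂˣ) where
  carrier := {c | c * c = 1 ∧ ∀ i l, W i = W l → c i = c l}
  mul_mem' := by
    rintro a b ⟨ha1, ha2⟩ ⟨hb1, hb2⟩
    refine ⟨?_, fun i l h => ?_⟩
    · rw [mul_mul_mul_comm, ha1, hb1, one_mul]
    · rw [Pi.mul_apply, Pi.mul_apply, ha2 i l h, hb2 i l h]
  one_mem' := ⟨one_mul 1, fun _ _ _ => rfl⟩
  inv_mem' := by
    rintro a ⟨ha1, ha2⟩
    refine ⟨?_, fun i l h => ?_⟩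
    · rw [← mul_inv, ha1, inv_one]
    · rw [Pi.inv_apply, Pi.inv_apply, ha2 i l h]

private theorem QQ67_finite (W : Fin N → Fin ρ → ℤ) : (QQ67 W : Set (Fin N → ℂˣ)).Finite := by
  have h1 : ({1, -1} : Set ℂˣ).Finite := Set.toFinite _
  refine (Set.Finite.pi' fun _ : Fin N => h1).subset ?_
  rintro c ⟨hc, _⟩ i
  have h2 : c i * c i = 1 := congrFun hc i
  have h3 : ((c i : ℂˣ) : ℂ) * ((c i : ℂˣ) : ℂ) = 1 := by
    rw [← Units.val_mul, h2, Units.val_one]
  rcases mul_self_eq_one_iff.1 h3 with h | h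
  · left
    exact Units.ext h
  · right
    refine Units.ext ?_
    rw [h, Units.val_neg, Units.val_one]

theorem exists_diag2 (W : Fin N → Fin ρ → ℤ) (A : Subgroup (GL (Fin N) ℂ)) (hA : Finite A)
    (hc : ∀ a ∈ A, ∀ b ∈ A, a * b = b * a) (hT : ∀ a ∈ A, ∀ t, a * tor W t = tor W t * a) :
    ∃ (P : GL (Fin N) ℂ) (W' : Fin N → Fin ρ → ℤ), (∀ t, P * tor W t * P⁻¹ = tor W' t) ∧
      ∀ a ∈ A, ∃ c : Fin N → ℂˣ, P * a * P⁻¹ = dg N c := by
  classical
  -- commutation with the blockwise scalar matrices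
  have hcom : ∀ a ∈ A, ∀ c ∈ QQ67 W, a * dg N c = dg N c * a := by
    intro a ha c hcQ
    refine Units.ext ?_
    rw [Units.val_mul, Units.val_mul, dg_coe]
    ext i l
    rw [Matrix.mul_diagonal, Matrix.diagonal_mul]
    by_cases hil : (a : Matrix (Fin N) (Fin N) ℂ) i l = 0
    · rw [hil, zero_mul, mul_zero]
    · rw [hcQ.2 i l (block (hT a ha) hil), mul_comm]
  let B : Subgroup (GL (Fin N) ℂ) :=
    { carrier := {b | ∃ a ∈ A, ∃ c ∈ QQ67 W, b = a * dg N c}
      mul_mem' := by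
        rintro _ _ ⟨a, ha, c, hcq, rfl⟩ ⟨a', ha', c', hcq', rfl⟩
        refine ⟨a * a', A.mul_mem ha ha', c * c', (QQ67 W).mul_mem hcq hcq', ?_⟩
        rw [map_mul, mul_assoc, ← mul_assoc (dg N c) a', ← hcom a' ha' c hcq]
        simp only [mul_assoc]
      one_mem' := ⟨1, A.one_mem, 1, (QQ67 W).one_mem, by rw [map_one, mul_one]⟩
      inv_mem' := by
        rintro _ ⟨a, ha, c, hcq, rfl⟩
        refine ⟨a⁻¹, A.inv_mem ha, c⁻¹, (QQ67 W).inv_mem hcq, ?_⟩
        rw [mul_inv_rev, ← map_inv, hcom a⁻¹ (A.inv_mem ha) c⁻¹ ((QQ67 W).inv_mem hcq)] }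
  have hBmem : ∀ b, b ∈ B ↔ ∃ a ∈ A, ∃ c ∈ QQ67 W, b = a * dg N c := fun _ => Iff.rfl
  have hBfin : Finite B := by
    have h1 : ((fun p : GL (Fin N) ℂ × (Fin N → ℂˣ) => p.1 * dg N p.2) ''
        ((A : Set (GL (Fin N) ℂ)) ×ˢ (QQ67 W : Set (Fin N → ℂˣ)))).Finite :=
      (Set.Finite.prod (Set.toFinite _) (QQ67_finite W)).image _
    refine Set.Finite.to_subtype (h1.subset ?_)
    rintro b ⟨a, ha, c, hcq, rfl⟩
    exact ⟨(a, c), ⟨ha, hcq⟩, rfl⟩
  have hBc : ∀ a ∈ B, ∀ b ∈ B, a * b = b * a := by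
    rintro _ ⟨a, ha, c, hcq, rfl⟩ _ ⟨a', ha', c', hcq', rfl⟩
    have e1 : a * dg N c * (a' * dg N c') = a * a' * (dg N c * dg N c') := by
      rw [mul_assoc, ← mul_assoc (dg N c) a', ← hcom a' ha' c hcq]
      simp only [mul_assoc]
    have e2 : a' * dg N c' * (a * dg N c) = a' * a * (dg N c' * dg N c) := by
      rw [mul_assoc, ← mul_assoc (dg N c') a, ← hcom a ha c' hcq']
      simp only [mul_assoc]
    rw [e1, e2, hc a ha a' ha', ← map_mul, ← map_mul, mul_comm c c']
  obtain ⟨P, hP⟩ := exists_diag B hBfin hBc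
  have hPA : ∀ a ∈ A, ∃ c : Fin N → ℂˣ, P * a * P⁻¹ = dg N c := by
    intro a ha
    exact hP a ((hBmem a).2 ⟨a, ha, 1, (QQ67 W).one_mem, by rw [map_one, mul_one]⟩)
  -- the weight projections
  let E : (Fin ρ → ℤ) → Matrix (Fin N) (Fin N) ℂ := fun w =>
    Matrix.diagonal fun i => if W i = w then 1 else 0
  have hPi : ((P⁻¹ : GL (Fin N) ℂ) : Matrix (Fin N) (Fin N) ℂ) * (P : Matrix (Fin N) (Fin N) ℂ) = 1 := by
    rw [← Units.val_mul, inv_mul_cancel, Units.val_one]
  have hiP : (P : Matrix (Fin N) (Fin N) ℂ) * ((P⁻¹ : GL (Fin N) ℂ) : Matrix (Fin N) (Fin N) ℂ) = 1 := by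
    rw [← Units.val_mul, mul_inv_cancel, Units.val_one]
  have hE : ∀ w, ∃ e : Fin N → ℂ,
      (P : Matrix (Fin N) (Fin N) ℂ) * E w * ((P⁻¹ : GL (Fin N) ℂ) : Matrix (Fin N) (Fin N) ℂ) =
        Matrix.diagonal e := by
    intro w
    let s : Fin N → ℂˣ := fun i => if W i = w then -1 else 1
    have hs : s ∈ QQ67 W := by
      refine ⟨?_, ?_⟩
      · funext i
        show (if W i = w then (-1 : ℂˣ) else 1) * (if W i = w then (-1 : ℂˣ) else 1) = 1
        split_ifs <;> simp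
      · intro i l hil
        show (if W i = w then (-1 : ℂˣ) else 1) = if W l = w then (-1 : ℂˣ) else 1
        rw [hil]
    obtain ⟨c, hcc⟩ := hP (dg N s) ((hBmem _).2 ⟨1, A.one_mem, s, hs, by rw [one_mul]⟩)
    have h1 := congrArg Units.val hcc
    rw [Units.val_mul, Units.val_mul, dg_coe, dg_coe] at h1
    have h2 : E w = (1 / 2 : ℂ) • (1 - Matrix.diagonal fun i => ((s i : ℂˣ) : ℂ)) := by
      rw [← Matrix.diagonal_one, Matrix.diagonal_sub, ← Matrix.diagonal_smul]
      show Matrix.diagonal _ = Matrix.diagonal _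
      congr 1
      funext i
      show (if W i = w then (1 : ℂ) else 0) = (1 / 2 : ℂ) * (1 - (((if W i = w then (-1 : ℂˣ) else 1) : ℂˣ) : ℂ))
      split_ifs
      · rw [Units.val_neg, Units.val_one]
        norm_num
      · rw [Units.val_one]
        norm_num
    refine ⟨fun k => (1 / 2 : ℂ) * (1 - (c k : ℂ)), ?_⟩
    rw [h2, Matrix.mul_smul, Matrix.smul_mul, Matrix.mul_sub, Matrix.sub_mul, mul_one, hiP, h1,
      ← Matrix.diagonal_one, Matrix.diagonal_sub, ← Matrix.diagonal_smul]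
    rfl
  choose e he using hE
  have hee : ∀ w k, e w k = 0 ∨ e w k = 1 := by
    intro w k
    have h1 : E w * E w = E w := by
      show Matrix.diagonal _ * Matrix.diagonal _ = Matrix.diagonal _
      rw [Matrix.diagonal_mul_diagonal]
      congr 1
      funext i
      split_ifs <;> simp
    have h2 : Matrix.diagonal (e w) * Matrix.diagonal (e w) = Matrix.diagonal (e w) := by
      rw [← he w]
      calc (P : Matrix (Fin N) (Fin N) ℂ) * E w * ((P⁻¹ : GL (Fin N) ℂ) : Matrix (Fin N) (Fin N) ℂ) *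
            ((P : Matrix (Fin N) (Fin N) ℂ) * E w * ((P⁻¹ : GL (Fin N) ℂ) : Matrix (Fin N) (Fin N) ℂ))
          = (P : Matrix (Fin N) (Fin N) ℂ) * E w *
            (((P⁻¹ : GL (Fin N) ℂ) : Matrix (Fin N) (Fin N) ℂ) * (P : Matrix (Fin N) (Fin N) ℂ)) * E w *
              ((P⁻¹ : GL (Fin N) ℂ) : Matrix (Fin N) (Fin N) ℂ) := by
            simp only [mul_assoc]
        _ = (P : Matrix (Fin N) (Fin N) ℂ) * (E w * E w) *
              ((P⁻¹ : GL (Fin N) ℂ) : Matrix (Fin N) (Fin N) ℂ) := by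
            rw [hPi, mul_one]
            simp only [mul_assoc]
        _ = _ := by rw [h1]
    rw [Matrix.diagonal_mul_diagonal] at h2
    have h3 : e w k * e w k = e w k := congrFun (Matrix.diagonal_injective h2) k
    rcases mul_eq_zero.1 (show e w k * (e w k - 1) = 0 by linear_combination h3) with h | h
    · exact Or.inl h
    · exact Or.inr (by linear_combination h)
  have hsum : ∑ w ∈ Finset.univ.image W, E w = 1 := by
    rw [← Matrix.diagonal_one]
    ext i l
    rw [Matrix.sum_apply]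
    by_cases hil : i = l
    · subst hil
      simp only [E, Matrix.diagonal_apply_eq]
      rw [Finset.sum_ite_eq, if_pos (Finset.mem_image_of_mem W (Finset.mem_univ i))]
    · rw [Matrix.diagonal_apply_ne _ hil]
      exact Finset.sum_eq_zero fun w _ => Matrix.diagonal_apply_ne _ hil
  have hex : ∀ k, ∃ w, e w k = 1 := by
    intro k
    have h1 : ∑ w ∈ Finset.univ.image W, Matrix.diagonal (e w) = 1 := by
      calc ∑ w ∈ Finset.univ.image W, Matrix.diagonal (e w)
          = ∑ w ∈ Finset.univ.image W, (P : Matrix (Fin N) (Fin N) ℂ) * E w *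
              ((P⁻¹ : GL (Fin N) ℂ) : Matrix (Fin N) (Fin N) ℂ) :=
            Finset.sum_congr rfl fun w _ => (he w).symm
        _ = 1 := by rw [← Finset.sum_mul, ← Finset.mul_sum, hsum, mul_one, hiP]
    have h2 := congrFun (congrFun h1 k) k
    rw [Matrix.sum_apply, Matrix.one_apply_eq] at h2
    simp only [Matrix.diagonal_apply_eq] at h2
    by_contra hno
    push Not at hno
    rw [Finset.sum_eq_zero fun w _ => (hee w k).resolve_right (hno w)] at h2
    exact zero_ne_one h2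
  choose W' hW' using hex
  refine ⟨P, W', fun t => ?_, hPA⟩
  refine Units.ext ?_
  rw [Units.val_mul, Units.val_mul, tor_val67, tor_val67]
  ext i k
  have h1 : (Matrix.diagonal fun i => (chr (W i) t : ℂ)) * E (W' k) = (chr (W' k) t : ℂ) • E (W' k) := by
    show Matrix.diagonal _ * Matrix.diagonal _ = _ • Matrix.diagonal _
    rw [Matrix.diagonal_mul_diagonal, ← Matrix.diagonal_smul]
    congr 1
    funext i
    show (chr (W i) t : ℂ) * (if W i = W' k then 1 else 0) = (chr (W' k) t : ℂ) * (if W i = W' k then 1 else 0)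
    split_ifs with h
    · rw [h]
    · rw [mul_zero, mul_zero]
  have h2 : (P : Matrix (Fin N) (Fin N) ℂ) * (Matrix.diagonal fun i => (chr (W i) t : ℂ)) *
      ((P⁻¹ : GL (Fin N) ℂ) : Matrix (Fin N) (Fin N) ℂ) * Matrix.diagonal (e (W' k)) =
      (chr (W' k) t : ℂ) • Matrix.diagonal (e (W' k)) := by
    rw [← he (W' k)]
    calc _ = (P : Matrix (Fin N) (Fin N) ℂ) * (Matrix.diagonal fun i => (chr (W i) t : ℂ)) *
          (((P⁻¹ : GL (Fin N) ℂ) : Matrix (Fin N) (Fin N) ℂ) * (P : Matrix (Fin N) (Fin N) ℂ)) *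
            E (W' k) * ((P⁻¹ : GL (Fin N) ℂ) : Matrix (Fin N) (Fin N) ℂ) := by
            simp only [mul_assoc]
      _ = (P : Matrix (Fin N) (Fin N) ℂ) * ((Matrix.diagonal fun i => (chr (W i) t : ℂ)) * E (W' k)) *
            ((P⁻¹ : GL (Fin N) ℂ) : Matrix (Fin N) (Fin N) ℂ) := by
            rw [hPi, mul_one]
            simp only [mul_assoc]
      _ = _ := by rw [h1, Matrix.mul_smul, Matrix.smul_mul]
  have h3 := congrFun (congrFun h2 i) k
  rw [Matrix.mul_diagonal, hW' k, mul_one] at h3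
  rw [h3, Matrix.smul_apply]
  by_cases hik : i = k
  · subst hik
    rw [Matrix.diagonal_apply_eq, Matrix.diagonal_apply_eq, hW' i, smul_eq_mul, mul_one]
  · rw [Matrix.diagonal_apply_ne _ hik, Matrix.diagonal_apply_ne _ hik, smul_zero]

end Pool.Agent.Helper12.KR
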