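import Mathlib

/-!
# Block KR-M: Minkowski's lemma for permutations, only Mathlib

By strong induction on `B : ℕ` we show: if `m ∈ M` and `|m i| ≤ B` for all `i` then `m (σ i) = m i` for all
`i`. `B = 0`: `m = 0`. Let `B ≥ 1`, `m (σ i) = m i + 3 m' i`, `m' ∈ M`. Then `|3 m' i| ≤ 2 B`, so
`|m' i| ≤ B - 1` and `m' (σ i) = m' i` for all `i` by induction. Hence `m ((σ ^ n) i) = m i + 3 n m' i` for
all `n` (induction on `n`), so `|3 n m' i| ≤ 2 B` for all `n`, in particular for `n = B`: `m' i = 0`.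

Proof: helper77.
-/

set_option autoImplicit false

namespace Pool.Agent.Helper12.KR

private theorem mink77 {N : ℕ} (M : AddSubgroup (Fin N → ℤ)) (σ : Equiv.Perm (Fin N))
    (h : ∀ m ∈ M, ∃ m' ∈ M, ∀ i, m (σ i) = m i + 3 * m' i) (B : ℕ) :
    ∀ m ∈ M, (∀ i, |m i| ≤ (B : ℤ)) → ∀ i, m (σ i) = m i := by
  induction B with
  | zero =>
    intro m _ hb i
    have h1 := hb i
    have h2 := hb (σ i)
    rw [Nat.cast_zero] at h1 h2
    rw [abs_nonpos_iff.mp h1, abs_nonpos_iff.mp h2]
  | succ B ih =>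
    intro m hm hb
    obtain ⟨m', hm', he⟩ := h m hm
    have hb' : ∀ i, |m' i| ≤ (B : ℤ) := by
      intro i
      have h1 := abs_le.mp (hb i)
      have h2 := abs_le.mp (hb (σ i))
      have h3 := he i
      push_cast at h1 h2
      rw [abs_le]
      constructor <;> omega
    have hs := ih m' hm' hb'
    have hit : ∀ n : ℕ, ∀ i, m' ((σ ^ n) i) = m' i ∧ m ((σ ^ n) i) = m i + 3 * n * m' i := by
      intro n
      induction n with
      | zero =>
        intro i
        simp
      | succ n ihn =>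
        intro i
        obtain ⟨h1, h2⟩ := ihn i
        rw [pow_succ', Equiv.Perm.mul_apply, hs, he, h1, h2]
        refine ⟨rfl, ?_⟩
        push_cast
        ring
    intro i
    have h0 : m' i = 0 := by
      by_contra hne
      have h1 := abs_le.mp (hb i)
      have h2 := abs_le.mp (hb ((σ ^ (B + 1)) i))
      rw [(hit (B + 1) i).2] at h2
      push_cast at h1 h2
      have hB : (0 : ℤ) ≤ B := Int.natCast_nonneg B
      rcases lt_or_gt_of_ne hne with hlt | hgt
      · have : m' i ≤ -1 := by omega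
        nlinarith
      · have : 1 ≤ m' i := by omega
        nlinarith
    rw [he i, h0]
    ring

theorem mink {N : ℕ} (M : AddSubgroup (Fin N → ℤ)) (σ : Equiv.Perm (Fin N))
    (h : ∀ m ∈ M, ∃ m' ∈ M, ∀ i, m (σ i) = m i + 3 * m' i) : ∀ m ∈ M, ∀ i, m (σ i) = m i := by
  intro m hm
  refine mink77 M σ h (∑ i, |m i|).toNat m hm ?_
  intro i
  rw [Int.toNat_of_nonneg (Finset.sum_nonneg (fun j _ => abs_nonneg (m j)))]
  exact Finset.single_le_sum (f := fun j => |m j|) (fun j _ => abs_nonneg (m j))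
    (Finset.mem_univ i)

end Pool.Agent.Helper12.KR
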