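import Pool.Agent.Helper12.KR.Rank
import Pool.Agent.Helper12.KR.Mink

/-!
# Block KR-W: the elements commuting with the torus have bounded index

`G` finite, normalising the image of `tor W`. Let `M = {m | Inv W m}`, an additive subgroup of `ℤ^N`.
(0) If `chr w t = 1` for all `t` then `w = 0` (`t = Pi.mulSingle j 2`).
(1) For `g ∈ G` we have `det g ≠ 0`, so there is a permutation `τ = τ_g` of `Fin N` with
`g (τ l) l ≠ 0` for all `l` (`Matrix.det_apply`: some term of the sum is not zero). If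
`g * tor W t = tor W t' * g` then comparing the entries `(τ l, l)` gives
`chr (W l) t = chr (W (τ l)) t'` for all `l`.
(2) For `g ∈ G` and every `t'` there is `t` with `g * tor W t = tor W t' * g` (apply `h` to `g⁻¹` and `t'`).
(3) If `m ∈ M` then `m ∘ τ_g ∈ M`: for every `t`, with `t'` from `h`,
`chr (∑_l m (τ l) W l) t = ∏_l (chr (W l) t)^(m (τ l)) = ∏_l (chr (W (τ l)) t')^(m (τ l)) =
∏_i (chr (W i) t')^(m i) = 1`, then (0). As `τ_g` has finite order, also `m ∘ τ_g⁻¹ ∈ M`.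
(4) Let `b` be the generators of `M` from `inv_gen`, and `b j ∘ τ_g = ∑_k c_g j k • b k`. It suffices that
the map `G / cen → (Fin d → Fin d → ZMod 3)`, the class of `g` (represented by `Quotient.out`) to
`c_g mod 3`, is injective: the target has `3 ^ (d ^ 2)` elements (`Subgroup.relIndex`,
`Subgroup.index`, `Nat.card_le_card_of_injective`). Let `g, h ∈ G` with `c_g = c_h` modulo `3`. Then for
`m ∈ M` we have `m ∘ τ_g - m ∘ τ_h ∈ 3 M`, so by (3) (composition with `τ_h⁻¹`)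
`m ∘ τ_g ∘ τ_h⁻¹ - m ∈ 3 M`, and by `mink` (`σ i = τ_g (τ_h⁻¹ i)`): `m (τ_g l) = m (τ_h l)` for all
`m ∈ M` and all `l`.
(5) `W (τ_g l) = W (τ_h l)` for all `l`. Suppose not, for some `l`; `i = τ_g l`, `i' = τ_h l`. Let
`k = g h⁻¹ ∈ G`; column `i'` of `k` is not zero: `k j i' ≠ 0`. Let `t'` be arbitrary; by (2) there is `t` with
`g * tor W t = tor W t' * g`, and `t''` with `h * tor W t = tor W t'' * h`; then
`k * tor W t'' = tor W t' * k`, and the entry `(j, i')` gives `chr (W j) t' = chr (W i') t'' = chr (W l) t =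
chr (W i) t'`. So `W j = W i` by (0), and `W j ≠ W i'`. By `hND` there is `m ∈ M` with `m j ≠ m i'`. If
`j = i` this contradicts (4). If `j ≠ i` then `m = Pi.single j 1 - Pi.single i 1 ∈ M` has `m i = -1`,
`m i' = 0` (`i' ≠ i`, `i' ≠ j`), which contradicts (4).
(6) Let `t` be arbitrary, `g * tor W t = tor W t' * g`, `h * tor W t = tor W t'' * h`. By (1) and (5)
`chr (W (τ_g l)) t' = chr (W l) t = chr (W (τ_h l)) t'' = chr (W (τ_g l)) t''` for all `l`, so
`tor W t' = tor W t''`, and `g⁻¹ h` commutes with `tor W t`: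
`tor W t * (g⁻¹ h) = g⁻¹ tor W t' h = g⁻¹ tor W t'' h = g⁻¹ h tor W t`. So `g⁻¹ h ∈ cen G W`.
-/

set_option autoImplicit false

namespace Pool.Agent.Helper12.KR

open MeasureTheory Pool.Agent.Helper12.KQ

variable {N ρ : ℕ}

/-- the elements of `G` commuting with the torus -/
def cen (G : Subgroup (GL (Fin N) ℂ)) (W : Fin N → Fin ρ → ℤ) : Subgroup (GL (Fin N) ℂ) where
  carrier := {g | g ∈ G ∧ ∀ t, g * tor W t = tor W t * g}
  one_mem' := ⟨G.one_mem, fun t => by rw [one_mul, mul_one]⟩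
  mul_mem' := by
    rintro a b ⟨h1, h2⟩ ⟨h1', h2'⟩
    exact ⟨G.mul_mem h1 h1', fun t => by rw [mul_assoc, h2' t, ← mul_assoc, h2 t, mul_assoc]⟩
  inv_mem' := by
    rintro a ⟨h1, h2⟩
    refine ⟨G.inv_mem h1, fun t => ?_⟩
    rw [inv_mul_eq_iff_eq_mul, ← mul_assoc, h2 t, mul_inv_cancel_right]

theorem mem_cen {G : Subgroup (GL (Fin N) ℂ)} {W : Fin N → Fin ρ → ℤ} {g : GL (Fin N) ℂ} :
    g ∈ cen G W ↔ g ∈ G ∧ ∀ t, g * tor W t = tor W t * g := Iff.rfl

private theorem chr_inj {a b : Fin ρ → ℤ} (h : ∀ t, chr a t = chr b t) : a = b := by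
  classical
  funext j
  have h2 : (2 : ℂ) ≠ 0 := two_ne_zero
  have key : ∀ w : Fin ρ → ℤ, chr w (Pi.mulSingle j (Units.mk0 (2 : ℂ) h2)) =
      (Units.mk0 (2 : ℂ) h2) ^ w j := by
    intro w
    rw [chr_apply, Finset.prod_eq_single j]
    · rw [Pi.mulSingle_eq_same]
    · intro i _ hi
      rw [Pi.mulSingle_eq_of_ne hi, one_zpow]
    · intro hj
      exact absurd (Finset.mem_univ j) hj
  have h1 := h (Pi.mulSingle j (Units.mk0 (2 : ℂ) h2))
  rw [key, key] at h1
  have h3 := congrArg (fun u : ℂˣ => ‖(u : ℂ)‖) h1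
  simp only [Units.val_zpow_eq_zpow_val, Units.val_mk0, norm_zpow, Complex.norm_ofNat] at h3
  exact zpow_right_injective₀ (by norm_num) (by norm_num) h3

private theorem inv_iff {W : Fin N → Fin ρ → ℤ} {m : Fin N → ℤ} :
    Inv W m ↔ ∀ t, ∏ i, (chr (W i) t) ^ (m i) = 1 := by
  have key : ∀ t, chr (fun j => ∑ i, m i * W i j) t = ∏ i, (chr (W i) t) ^ (m i) := by
    intro t
    simp only [chr_apply]
    have h1 : ∀ j, t j ^ (∑ i, m i * W i j) = ∏ i, t j ^ (m i * W i j) := by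
      intro j
      have h2 : ∀ s : Finset (Fin N), t j ^ (∑ i ∈ s, m i * W i j) =
          ∏ i ∈ s, t j ^ (m i * W i j) := by
        intro s
        induction s using Finset.induction_on with
        | empty => simp
        | insert a s ha ih => rw [Finset.sum_insert ha, Finset.prod_insert ha, zpow_add, ih]
      exact h2 _
    simp_rw [h1]
    rw [Finset.prod_comm]
    refine Finset.prod_congr rfl fun i _ => ?_
    rw [← Finset.prod_zpow]
    refine Finset.prod_congr rfl fun j _ => ?_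
    rw [mul_comm, zpow_mul]
  constructor
  · intro h t
    rw [← key]
    have : (fun j => ∑ i, m i * W i j) = 0 := by
      funext j
      exact h j
    rw [this, chr_apply]
    simp
  · intro h
    have : (fun j => ∑ i, m i * W i j) = (0 : Fin ρ → ℤ) := by
      apply chr_inj
      intro t
      rw [key, h t, chr_apply]
      simp
    intro j
    exact congrFun this j

private theorem exists_perm (g : GL (Fin N) ℂ) :
    ∃ τ : Equiv.Perm (Fin N), ∀ l, (g : Matrix (Fin N) (Fin N) ℂ) (τ l) l ≠ 0 := by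
  have hdet : (g : Matrix (Fin N) (Fin N) ℂ).det ≠ 0 := by
    have := (Matrix.isUnit_iff_isUnit_det _).1 g.isUnit
    exact this.ne_zero
  rw [Matrix.det_apply] at hdet
  obtain ⟨σ, _, hσ⟩ := Finset.exists_ne_zero_of_sum_ne_zero hdet
  refine ⟨σ, fun l hl => hσ ?_⟩
  have hz : ∏ i, (g : Matrix (Fin N) (Fin N) ℂ) (σ i) i = 0 :=
    Finset.prod_eq_zero (Finset.mem_univ l) hl
  exact (congrArg (fun z : ℂ => Equiv.Perm.sign σ • z) hz).trans (smul_zero _)

private theorem ent {W : Fin N → Fin ρ → ℤ} {g : GL (Fin N) ℂ} {t t' : Fin ρ → ℂˣ}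
    (h : g * tor W t = tor W t' * g) {i l : Fin N}
    (hne : (g : Matrix (Fin N) (Fin N) ℂ) i l ≠ 0) : chr (W l) t = chr (W i) t' := by
  have h1 := congrArg (fun u : GL (Fin N) ℂ => (u : Matrix (Fin N) (Fin N) ℂ) i l) h
  simp only [Units.val_mul, tor_eq, dg_coe, Matrix.mul_diagonal, Matrix.diagonal_mul] at h1
  apply Units.ext
  rw [mul_comm] at h1
  exact mul_right_cancel₀ hne h1

private theorem back {W : Fin N → Fin ρ → ℤ} {G : Subgroup (GL (Fin N) ℂ)}
    (h : ∀ g ∈ G, ∀ t, ∃ t', g * tor W t = tor W t' * g) {g : GL (Fin N) ℂ} (hg : g ∈ G)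
    (t' : Fin ρ → ℂˣ) : ∃ t, g * tor W t = tor W t' * g := by
  obtain ⟨t, ht⟩ := h g⁻¹ (G.inv_mem hg) t'
  refine ⟨t, ?_⟩
  rw [inv_mul_eq_iff_eq_mul, ← mul_assoc] at ht
  rw [ht]
  group

private theorem inv_comp {W : Fin N → Fin ρ → ℤ} {G : Subgroup (GL (Fin N) ℂ)}
    (h : ∀ g ∈ G, ∀ t, ∃ t', g * tor W t = tor W t' * g) {g : GL (Fin N) ℂ} (hg : g ∈ G)
    {τ : Equiv.Perm (Fin N)} (hτ : ∀ l, (g : Matrix (Fin N) (Fin N) ℂ) (τ l) l ≠ 0)
    {m : Fin N → ℤ} (hm : Inv W m) : Inv W (fun l => m (τ l)) := by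
  rw [inv_iff] at hm ⊢
  intro t
  obtain ⟨t', ht⟩ := h g hg t
  rw [← hm t', ← Equiv.prod_comp τ (fun i => (chr (W i) t') ^ m i)]
  refine Finset.prod_congr rfl fun l _ => ?_
  rw [ent ht (hτ l)]

private theorem inv_comp_symm {W : Fin N → Fin ρ → ℤ} {G : Subgroup (GL (Fin N) ℂ)}
    (h : ∀ g ∈ G, ∀ t, ∃ t', g * tor W t = tor W t' * g) {g : GL (Fin N) ℂ} (hg : g ∈ G)
    {τ : Equiv.Perm (Fin N)} (hτ : ∀ l, (g : Matrix (Fin N) (Fin N) ℂ) (τ l) l ≠ 0)
    {m : Fin N → ℤ} (hm : Inv W m) : Inv W (fun l => m (τ⁻¹ l)) := by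
  rw [inv_iff] at hm ⊢
  intro t'
  obtain ⟨t, ht⟩ := back h hg t'
  rw [← hm t, ← Equiv.prod_comp τ (fun l => (chr (W l) t') ^ m (τ⁻¹ l))]
  refine Finset.prod_congr rfl fun l _ => ?_
  rw [ent ht (hτ l), show τ⁻¹ (τ l) = l from τ.symm_apply_apply l]

private theorem inv_lin {W : Fin N → Fin ρ → ℤ} {d : ℕ} {b : Fin d → Fin N → ℤ}
    (hb : ∀ j, Inv W (b j)) (c : Fin d → ℤ) : Inv W (fun i => ∑ j, c j * b j i) := by
  intro j'
  have h1 : ∀ i, (∑ j, c j * b j i) * W i j' = ∑ j, c j * (b j i * W i j') := by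
    intro i
    rw [Finset.sum_mul]
    refine Finset.sum_congr rfl fun j _ => ?_
    ring
  simp_rw [h1]
  rw [Finset.sum_comm]
  refine Finset.sum_eq_zero fun j _ => ?_
  rw [← Finset.mul_sum, hb j j', mul_zero]

/-- the additive group of the invariant exponents -/
private def invGrp (W : Fin N → Fin ρ → ℤ) : AddSubgroup (Fin N → ℤ) where
  carrier := {m | Inv W m}
  zero_mem' := fun j => by simp
  add_mem' := by
    intro a b ha hb j
    have h1 := ha j
    have h2 := hb j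
    simp only [Pi.add_apply, add_mul, Finset.sum_add_distrib]
    omega
  neg_mem' := by
    intro a ha j
    have h1 := ha j
    simp only [Pi.neg_apply, neg_mul, Finset.sum_neg_distrib]
    omega

private theorem step4 {W : Fin N → Fin ρ → ℤ} {G : Subgroup (GL (Fin N) ℂ)}
    (h : ∀ g ∈ G, ∀ t, ∃ t', g * tor W t = tor W t' * g) {d : ℕ} {b : Fin d → Fin N → ℤ}
    (hb : ∀ j, Inv W (b j)) (hgen : ∀ m, Inv W m → ∃ c : Fin d → ℤ, ∀ i, m i = ∑ j, c j * b j i)
    {g k : GL (Fin N) ℂ} (hk : k ∈ G) {τ σ : Equiv.Perm (Fin N)}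
    (hσ : ∀ l, (k : Matrix (Fin N) (Fin N) ℂ) (σ l) l ≠ 0)
    {c c' e : Fin d → Fin d → ℤ} (hc : ∀ j i, b j (τ i) = ∑ x, c j x * b x i)
    (hc' : ∀ j i, b j (σ i) = ∑ x, c' j x * b x i) (he : ∀ j x, c j x = c' j x + 3 * e j x)
    (m : Fin N → ℤ) (hm : Inv W m) (l : Fin N) : m (τ l) = m (σ l) := by
  have key : ∀ m ∈ invGrp W, ∃ m' ∈ invGrp W, ∀ i, m ((τ * σ⁻¹) i) = m i + 3 * m' i := by
    intro m hm
    obtain ⟨a, ha⟩ := hgen m hm
    refine ⟨fun i => (fun i => ∑ x, (∑ j, a j * e j x) * b x i) (σ⁻¹ i),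
      inv_comp_symm h hk hσ (inv_lin hb _), ?_⟩
    intro i
    have h1 : ∀ i, m (τ i) = m (σ i) + 3 * ∑ x, (∑ j, a j * e j x) * b x i := by
      intro i
      rw [ha (τ i), ha (σ i)]
      have h2 : ∑ x, (∑ j, a j * e j x) * b x i = ∑ j, a j * ∑ x, e j x * b x i := by
        simp_rw [Finset.sum_mul, Finset.mul_sum]
        rw [Finset.sum_comm]
        refine Finset.sum_congr rfl fun j _ => Finset.sum_congr rfl fun x _ => ?_
        ring
      rw [h2, Finset.mul_sum, ← Finset.sum_add_distrib]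
      refine Finset.sum_congr rfl fun j _ => ?_
      rw [hc, hc']
      have h3 : ∑ x, c j x * b x i = ∑ x, c' j x * b x i + 3 * ∑ x, e j x * b x i := by
        rw [Finset.mul_sum, ← Finset.sum_add_distrib]
        refine Finset.sum_congr rfl fun x _ => ?_
        rw [he]
        ring
      rw [h3]
      ring
    have h4 := h1 (σ⁻¹ i)
    rw [show σ (σ⁻¹ i) = i from σ.apply_symm_apply i] at h4
    exact h4
  have h5 := mink (invGrp W) (τ * σ⁻¹) key m hm (σ l)
  rw [Equiv.Perm.mul_apply, show σ⁻¹ (σ l) = l from σ.symm_apply_apply l] at h5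
  exact h5

private theorem step5 {W : Fin N → Fin ρ → ℤ} {G : Subgroup (GL (Fin N) ℂ)}
    (h : ∀ g ∈ G, ∀ t, ∃ t', g * tor W t = tor W t' * g)
    (hND : ∀ g ∈ G, ∀ i l, (g : Matrix (Fin N) (Fin N) ℂ) i l ≠ 0 → W i ≠ W l →
      ∃ m, Inv W m ∧ m i ≠ m l)
    {g k : GL (Fin N) ℂ} (hg : g ∈ G) (hk : k ∈ G) {τ σ : Equiv.Perm (Fin N)}
    (hτ : ∀ l, (g : Matrix (Fin N) (Fin N) ℂ) (τ l) l ≠ 0)
    (hσ : ∀ l, (k : Matrix (Fin N) (Fin N) ℂ) (σ l) l ≠ 0)
    (h4 : ∀ m, Inv W m → ∀ l, m (τ l) = m (σ l)) (l : Fin N) : W (τ l) = W (σ l) := by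
  classical
  by_contra hne
  have hu : g * k⁻¹ ∈ G := G.mul_mem hg (G.inv_mem hk)
  obtain ⟨υ, hυ⟩ := exists_perm (g * k⁻¹)
  have hji := hυ (σ l)
  set j := υ (σ l) with hj
  have hW : W j = W (τ l) := by
    apply chr_inj
    intro t'
    obtain ⟨t, ht⟩ := back h hg t'
    obtain ⟨t'', ht''⟩ := h k hk t
    have hu' : (g * k⁻¹) * tor W t'' = tor W t' * (g * k⁻¹) := by
      have e1 : tor W t'' = k * tor W t * k⁻¹ := by
        rw [ht'']
        group
      have e2 : tor W t' = g * tor W t * g⁻¹ := by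
        rw [ht]
        group
      rw [e1, e2]
      group
    rw [← ent hu' hji, ← ent ht'' (hσ l), ent ht (hτ l)]
  have hne' : W j ≠ W (σ l) := by
    rw [hW]
    exact hne
  obtain ⟨m, hm, hmne⟩ := hND (g * k⁻¹) hu j (σ l) hji hne'
  by_cases hjt : j = τ l
  · rw [hjt] at hmne
    exact hmne (h4 m hm l)
  · have hm' : Inv W (fun i => (if i = j then 1 else 0) - (if i = τ l then 1 else 0)) := by
      intro x
      have e1 : ∀ i, ((if i = j then (1 : ℤ) else 0) - (if i = τ l then 1 else 0)) * W i x =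
          (if i = j then W i x else 0) - (if i = τ l then W i x else 0) := by
        intro i
        split_ifs <;> ring
      simp_rw [e1]
      rw [Finset.sum_sub_distrib, Finset.sum_ite_eq' , Finset.sum_ite_eq']
      simp only [Finset.mem_univ, if_true]
      rw [hW, sub_self]
    have h5 := h4 _ hm' l
    have e2 : τ l ≠ j := fun h => hjt h.symm
    have e3 : σ l ≠ j := fun h => hne' (by rw [← h])
    have e4 : σ l ≠ τ l := fun h => hne (by rw [h])
    simp only [if_neg e2, if_neg e3, if_neg e4, if_true] at h5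
    omega

private theorem step6 {W : Fin N → Fin ρ → ℤ} {G : Subgroup (GL (Fin N) ℂ)}
    (h : ∀ g ∈ G, ∀ t, ∃ t', g * tor W t = tor W t' * g)
    {g k : GL (Fin N) ℂ} (hg : g ∈ G) (hk : k ∈ G) {τ σ : Equiv.Perm (Fin N)}
    (hτ : ∀ l, (g : Matrix (Fin N) (Fin N) ℂ) (τ l) l ≠ 0)
    (hσ : ∀ l, (k : Matrix (Fin N) (Fin N) ℂ) (σ l) l ≠ 0)
    (h5 : ∀ l, W (τ l) = W (σ l)) : g⁻¹ * k ∈ cen G W := by
  rw [mem_cen]
  refine ⟨G.mul_mem (G.inv_mem hg) hk, fun t => ?_⟩
  obtain ⟨t', ht'⟩ := h g hg t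
  obtain ⟨t'', ht''⟩ := h k hk t
  have e1 : tor W t' = tor W t'' := by
    rw [tor_eq, tor_eq]
    congr 1
    funext i
    obtain ⟨l, rfl⟩ := τ.surjective i
    rw [← ent ht' (hτ l), ent ht'' (hσ l), h5 l]
  have e2 : tor W t = g⁻¹ * tor W t' * g := by
    rw [mul_assoc, ← ht']
    group
  calc g⁻¹ * k * tor W t = g⁻¹ * (k * tor W t) := by group
    _ = g⁻¹ * (tor W t'' * k) := by rw [ht'']
    _ = g⁻¹ * tor W t' * g * (g⁻¹ * k) := by
        rw [← e1]
        group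
    _ = tor W t * (g⁻¹ * k) := by rw [← e2]

theorem index_cen (G : Subgroup (GL (Fin N) ℂ)) (hG : Finite G) (W : Fin N → Fin ρ → ℤ)
    (h : ∀ g ∈ G, ∀ t, ∃ t', g * tor W t = tor W t' * g)
    (hND : ∀ g ∈ G, ∀ i l, (g : Matrix (Fin N) (Fin N) ℂ) i l ≠ 0 → W i ≠ W l →
      ∃ m, Inv W m ∧ m i ≠ m l) {d : ℕ} (hd : N ≤ d + (Matrix.of fun i j => (W i j : ℚ)).rank) :
    (cen G W).relIndex G ≤ 3 ^ (d ^ 2) := by
  classical
  obtain ⟨b, hb, hgen⟩ := inv_gen hd
  choose τ hτ using fun g : G => exists_perm (g : GL (Fin N) ℂ)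
  have hc : ∀ g : G, ∀ j, ∃ c : Fin d → ℤ, ∀ i, b j (τ g i) = ∑ x, c x * b x i := by
    intro g j
    exact hgen _ (inv_comp h g.2 (hτ g) (hb j))
  choose c hc using hc
  let f : G ⧸ ((cen G W).subgroupOf G) → (Fin d → Fin d → ZMod 3) :=
    fun q j x => ((c q.out j x : ℤ) : ZMod 3)
  have hf : Function.Injective f := by
    intro q1 q2 hq
    have he : ∀ j x, ∃ e : ℤ, c q1.out j x = c q2.out j x + 3 * e := by
      intro j x
      have h1 : ((c q1.out j x : ℤ) : ZMod 3) = ((c q2.out j x : ℤ) : ZMod 3) :=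
        congrFun (congrFun hq j) x
      rw [ZMod.intCast_eq_intCast_iff_dvd_sub] at h1
      obtain ⟨e, he⟩ := h1
      refine ⟨-e, ?_⟩
      push_cast at he
      linarith
    choose e he using he
    have h4 := step4 h hb hgen (g := (q1.out : GL (Fin N) ℂ)) q2.out.2 (hτ q2.out)
      (hc q1.out) (hc q2.out) he
    have h5 := step5 h hND q1.out.2 q2.out.2 (hτ q1.out) (hτ q2.out) h4
    have h6 := step6 h q1.out.2 q2.out.2 (hτ q1.out) (hτ q2.out) h5
    rw [← QuotientGroup.out_eq' q1, ← QuotientGroup.out_eq' q2]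
    rw [QuotientGroup.eq]
    rw [Subgroup.mem_subgroupOf]
    exact h6
  have hcard := Nat.card_le_card_of_injective f hf
  rw [Subgroup.relIndex, Subgroup.index]
  refine hcard.trans (le_of_eq ?_)
  rw [Nat.card_eq_fintype_card]
  simp only [Fintype.card_pi, Finset.prod_const, Finset.card_univ, Fintype.card_fin, ZMod.card]
  rw [← pow_mul, sq]

end Pool.Agent.Helper12.KR
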