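import Pool.Agent.Helper12.KR.Defs

/-!
# Block KR-I: the monomial integral over a box

Compare `KQ/Base.lean` (`base_int`), the case `I = ∅`, `R = 1`. Let `p_i = ∑_m lam_m m_i ≥ 0`, `p_i < k`
for `i ∉ I`, `s = 2/k`. For `x` with all `x_i ≠ 0` put `y_m = ∏ |x_i|^(m_i) > 0`; the weighted geometric
mean is at most the maximum: `∏_i |x_i|^(p_i) = ∏_m y_m^(lam_m) ≤ sup_m y_m`, so
`(sup_m y_m)^(-s) ≤ ∏_i |x_i|^(-s p_i)`. The set of the `x` with some `x_i = 0` has measure zero. The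
integral of the product over `box I R` is the product of the integrals over the discs `|z| < R` (`i ∉ I`,
finite because `s p_i < 2`, compare `disc_int`, `ball_int` in `KQ/Avg.lean`) and over the annuli
`R⁻¹ < |z| < R` (`i ∈ I`), where the integrand is at most `R^(s p_i)` and the area is finite. (`box` is
`Set.univ.pi _`: `Measure.restrict_pi_pi`, `lintegral_fintype_prod_eq_prod`-type lemma as in `base_int`.)
-/

set_option autoImplicit false

namespace Pool.Agent.Helper12.KR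

open MeasureTheory Pool.Agent.Helper12.KQ

private theorem prod_lint38 {α : Type} [MeasurableSpace α] :
    ∀ {n : ℕ} (μ : Fin n → Measure α) (_ : ∀ i, SigmaFinite (μ i)) (f : Fin n → α → ENNReal) (_ : ∀ i, Measurable (f i)),
      ∫⁻ x, ∏ i, f i (x i) ∂(Measure.pi μ) = ∏ i, ∫⁻ x, f i x ∂(μ i) := by
  intro n
  induction n with
  | zero =>
    intro μ _ f _
    simp [Measure.pi_empty_univ]
  | succ n ih =>
    intro μ hμ f hf
    have h := (measurePreserving_piFinSuccAbove μ 0).symm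
    rw [← h.lintegral_comp_emb (MeasurableEquiv.measurableEmbedding _)]
    simp_rw [MeasurableEquiv.piFinSuccAbove_symm_apply, Fin.insertNthEquiv,
      Fin.prod_univ_succ]
    simp only [Equiv.coe_fn_mk, Fin.insertNth_zero, Fin.cons_zero, Fin.cons_succ]
    have h2 := lintegral_prod_mul (μ := μ 0) (ν := Measure.pi fun i : Fin n => μ i.succ)
      (f := f 0) (g := fun x => ∏ i : Fin n, f i.succ (x i)) (hf 0).aemeasurable
      (Finset.measurable_prod _ fun i _ => (hf i.succ).comp (measurable_pi_apply i)).aemeasurable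
    rw [ih (fun i => μ i.succ) (fun i => hμ i.succ) (fun i => f i.succ) fun i => hf i.succ] at h2
    exact h2

private theorem prod_rpow_sum38 {ι : Type*} (S : Finset ι) (a : ENNReal) (lam : ι → ℝ)
    (h0 : ∀ m ∈ S, 0 ≤ lam m) : ∏ m ∈ S, a ^ lam m = a ^ ∑ m ∈ S, lam m := by
  classical
  induction S using Finset.induction_on with
  | empty => simp
  | insert b S hb ih =>
    rw [Finset.prod_insert hb, Finset.sum_insert hb,
      ENNReal.rpow_add_of_nonneg _ _ (h0 b (Finset.mem_insert_self _ _))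
        (Finset.sum_nonneg fun m hm => h0 m (Finset.mem_insert_of_mem hm)),
      ih fun m hm => h0 m (Finset.mem_insert_of_mem hm)]

private theorem geom38 {d : ℕ} (S : Finset (Fin d → ℕ)) (lam : (Fin d → ℕ) → ℝ)
    (h0 : ∀ m ∈ S, 0 ≤ lam m) (h1 : ∑ m ∈ S, lam m = 1) (y : Fin d → ENNReal) :
    ∏ i, y i ^ (∑ m ∈ S, lam m * (m i : ℝ)) ≤ S.sup fun m => ∏ i, y i ^ m i := by
  set M := S.sup fun m => ∏ i, y i ^ m i with hM
  calc ∏ i, y i ^ (∑ m ∈ S, lam m * (m i : ℝ))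
      = ∏ i, ∏ m ∈ S, y i ^ (lam m * (m i : ℝ)) := by
        refine Finset.prod_congr rfl fun i _ => ?_
        rw [prod_rpow_sum38 S (y i) (fun m => lam m * (m i : ℝ))
          fun m hm => mul_nonneg (h0 m hm) (Nat.cast_nonneg _)]
    _ = ∏ m ∈ S, ∏ i, y i ^ (lam m * (m i : ℝ)) := Finset.prod_comm
    _ = ∏ m ∈ S, (∏ i, y i ^ m i) ^ lam m := by
        refine Finset.prod_congr rfl fun m hm => ?_
        rw [← ENNReal.prod_rpow_of_nonneg (h0 m hm)]
        refine Finset.prod_congr rfl fun i _ => ?_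
        rw [mul_comm, ENNReal.rpow_mul, ENNReal.rpow_natCast]
    _ ≤ ∏ m ∈ S, M ^ lam m := by
        refine Finset.prod_le_prod' fun m hm => ?_
        exact ENNReal.rpow_le_rpow (Finset.le_sup (f := fun m => ∏ i, y i ^ m i) hm) (h0 m hm)
    _ = M := by rw [prod_rpow_sum38 S M lam h0, h1, ENNReal.rpow_one]

private theorem ball_int38 {a : ℝ} (ha : a < 2) (r : ℝ) :
    ∫⁻ z in Metric.ball (0 : ℂ) r, ‖z‖ₑ ^ (-a) < ⊤ := by
  have hd : Module.finrank ℝ ℂ = 2 := Complex.finrank_real_complex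
  have h1 : IntegrableOn (fun z : ℂ => ‖z‖ ^ (-a)) (Metric.ball 0 r) volume := by
    refine integrableOn_ball_of_norm_le_rpow (C := 1) (α := a) (by rw [hd]; norm_num)
      (by rw [hd]; exact_mod_cast ha) ?_ ?_
    · refine Filter.Eventually.of_forall (fun z => ?_)
      rw [one_mul, Real.norm_eq_abs, abs_of_nonneg (Real.rpow_nonneg (norm_nonneg z) _)]
    · exact (measurable_norm.pow_const (-a)).aestronglyMeasurable
  have h2 := h1.2
  rw [HasFiniteIntegral] at h2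
  refine lt_of_le_of_lt (le_of_eq ?_) h2
  refine lintegral_congr_ae ?_
  have h3 : ∀ᵐ z : ℂ ∂(volume.restrict (Metric.ball 0 r)), z ≠ 0 := by
    refine ae_restrict_of_ae ?_
    exact Measure.ae_ne volume 0
  filter_upwards [h3] with z hz
  have hz' : 0 < ‖z‖ := norm_pos_iff.mpr hz
  rw [Real.enorm_of_nonneg (Real.rpow_nonneg (norm_nonneg z) _),
    ← ENNReal.ofReal_rpow_of_pos hz', ofReal_norm]

private theorem ann_int38 {a R : ℝ} (ha : 0 ≤ a) (hR : 0 < R) :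
    ∫⁻ z in {z : ℂ | R⁻¹ < ‖z‖ ∧ ‖z‖ < R}, ‖z‖ₑ ^ (-a) < ⊤ := by
  have hm : MeasurableSet {z : ℂ | R⁻¹ < ‖z‖ ∧ ‖z‖ < R} :=
    ((isOpen_lt continuous_const continuous_norm).inter (isOpen_lt continuous_norm continuous_const)).measurableSet
  have hc : (ENNReal.ofReal R⁻¹) ^ (-a) ≠ ⊤ := by
    refine ENNReal.rpow_ne_top_of_ne_zero ?_ ENNReal.ofReal_ne_top
    simpa using hR
  calc ∫⁻ z in {z : ℂ | R⁻¹ < ‖z‖ ∧ ‖z‖ < R}, ‖z‖ₑ ^ (-a)
      ≤ ∫⁻ z in {z : ℂ | R⁻¹ < ‖z‖ ∧ ‖z‖ < R}, (ENNReal.ofReal R⁻¹) ^ (-a) := by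
        refine setLIntegral_mono' hm fun z hz => ?_
        rw [ENNReal.rpow_neg, ENNReal.rpow_neg]
        refine ENNReal.inv_le_inv.2 (ENNReal.rpow_le_rpow ?_ ha)
        rw [← ofReal_norm]
        exact ENNReal.ofReal_le_ofReal hz.1.le
    _ = (ENNReal.ofReal R⁻¹) ^ (-a) * volume {z : ℂ | R⁻¹ < ‖z‖ ∧ ‖z‖ < R} := setLIntegral_const _ _
    _ ≤ (ENNReal.ofReal R⁻¹) ^ (-a) * volume (Metric.ball (0 : ℂ) R) := by
        refine mul_le_mul' le_rfl (measure_mono fun z hz => ?_)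
        rw [mem_ball_zero_iff]
        exact hz.2
    _ < ⊤ := ENNReal.mul_lt_top hc.lt_top measure_ball_lt_top

theorem base_int2 {N k : ℕ} (hk : 0 < k) (I : Finset (Fin N)) {R : ℝ} (hR : 0 < R)
    (S : Finset (Fin N → ℕ)) (lam : (Fin N → ℕ) → ℝ)
    (h0 : ∀ m ∈ S, 0 ≤ lam m) (h1 : ∑ m ∈ S, lam m = 1)
    (h2 : ∀ i, i ∉ I → ∑ m ∈ S, lam m * (m i : ℝ) < k) :
    ∫⁻ x in box I R, (S.sup fun m => ‖∏ i, x i ^ m i‖ₑ) ^ (-(2 / (k : ℝ))) < ⊤ := by
  classical
  have hkR : (0 : ℝ) < k := Nat.cast_pos.2 hk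
  set s : ℝ := 2 / (k : ℝ) with hs
  have hs0 : 0 < s := by positivity
  set p : Fin N → ℝ := fun i => ∑ m ∈ S, lam m * (m i : ℝ) with hp
  have hp0 : ∀ i, 0 ≤ p i := fun i => Finset.sum_nonneg fun m hm => mul_nonneg (h0 m hm) (Nat.cast_nonneg _)
  have hsp : ∀ i, i ∉ I → s * p i < 2 := by
    intro i hi
    have h3 : p i < k := h2 i hi
    calc s * p i < s * k := mul_lt_mul_of_pos_left h3 hs0
      _ = 2 := by rw [hs]; field_simp
  have hpt : ∀ x : Fin N → ℂ,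
      (S.sup fun m => ‖∏ i, x i ^ m i‖ₑ) ^ (-s) ≤ ∏ i, ‖x i‖ₑ ^ (-(s * p i)) := by
    intro x
    have hg := geom38 S lam h0 h1 fun i => ‖x i‖ₑ
    have he : (S.sup fun m => ‖∏ i, x i ^ m i‖ₑ) = S.sup fun m => ∏ i, ‖x i‖ₑ ^ m i := by
      congr 1
      funext m
      simp only [enorm_eq_nnnorm, nnnorm_prod, nnnorm_pow, ENNReal.ofNNReal_finsetProd,
        ENNReal.coe_pow]
    have hP : ∏ i, ‖x i‖ₑ ^ (-(s * p i)) = (∏ i, ‖x i‖ₑ ^ p i) ^ (-s) := by
      rw [← ENNReal.prod_rpow_of_ne_top]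
      · refine Finset.prod_congr rfl fun i _ => ?_
        rw [← ENNReal.rpow_mul]
        congr 1
        ring
      · intro i _
        exact ENNReal.rpow_ne_top_of_nonneg (hp0 i) enorm_ne_top
    rw [he, hP, ENNReal.rpow_neg, ENNReal.rpow_neg]
    exact ENNReal.inv_le_inv.2 (ENNReal.rpow_le_rpow hg hs0.le)
  have hbox : box I R = Set.univ.pi fun i => if i ∈ I then {z : ℂ | R⁻¹ < ‖z‖ ∧ ‖z‖ < R} else Metric.ball 0 R := by
    unfold box
    congr!
  calc ∫⁻ x in box I R, (S.sup fun m => ‖∏ i, x i ^ m i‖ₑ) ^ (-s)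
      ≤ ∫⁻ x in box I R, ∏ i, ‖x i‖ₑ ^ (-(s * p i)) := lintegral_mono fun x => hpt x
    _ = ∏ i, ∫⁻ z in (if i ∈ I then {z : ℂ | R⁻¹ < ‖z‖ ∧ ‖z‖ < R} else Metric.ball 0 R), ‖z‖ₑ ^ (-(s * p i)) := by
        rw [hbox, volume_pi, Measure.restrict_pi_pi]
        exact prod_lint38 _ (fun i => inferInstance) (fun i z => ‖z‖ₑ ^ (-(s * p i)))
          fun i => measurable_enorm.pow_const _
    _ < ⊤ := ENNReal.prod_lt_top fun i _ => by
        split_ifs with hi
        · exact ann_int38 (mul_nonneg hs0.le (hp0 i)) hR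
        · exact ball_int38 (hsp i hi) R

theorem box_mem {N : ℕ} (u : Fin N → ℂ) : ∃ n : ℕ, 0 < n ∧ box (supp u) n ∈ nhds u := by
  classical
  obtain ⟨n, hn⟩ := exists_nat_gt (∑ i, (‖u i‖ + ‖u i‖⁻¹))
  have hle : ∀ i, ‖u i‖ + ‖u i‖⁻¹ ≤ ∑ i, (‖u i‖ + ‖u i‖⁻¹) := fun i =>
    Finset.single_le_sum (f := fun i => ‖u i‖ + ‖u i‖⁻¹) (fun i _ => by positivity) (Finset.mem_univ i)
  have hn0 : (0 : ℝ) < n := lt_of_le_of_lt (Finset.sum_nonneg fun i _ => by positivity) hn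
  refine ⟨n, by exact_mod_cast hn0, ?_⟩
  have hbox : box (supp u) n = Set.univ.pi fun i => if i ∈ supp u then {z : ℂ | (n : ℝ)⁻¹ < ‖z‖ ∧ ‖z‖ < n} else Metric.ball 0 n := by
    unfold box
    congr!
  rw [hbox]
  refine IsOpen.mem_nhds (isOpen_set_pi Set.finite_univ fun i _ => ?_) ?_
  · split_ifs
    · exact (isOpen_lt continuous_const continuous_norm).inter (isOpen_lt continuous_norm continuous_const)
    · exact Metric.isOpen_ball
  · intro i _
    have h1 := hle i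
    have h2 : 0 ≤ ‖u i‖⁻¹ := by positivity
    have h3 : 0 ≤ ‖u i‖ := norm_nonneg _
    show u i ∈ (if i ∈ supp u then {z : ℂ | (n : ℝ)⁻¹ < ‖z‖ ∧ ‖z‖ < n} else Metric.ball 0 n)
    split_ifs with hi
    · rw [mem_supp] at hi
      have h4 : 0 < ‖u i‖ := norm_pos_iff.2 hi
      refine ⟨?_, by linarith⟩
      rw [inv_lt_comm₀ hn0 h4]
      linarith
    · rw [mem_ball_zero_iff]
      linarith

end Pool.Agent.Helper12.KR
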