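import Pool.Agent.Helper12.KR.Graded

/-!
# Block KR-J: Jordan's theorem with a torus

Let `S` be the set of the `i : Fin N` such that `W l = W i` for some `l ≠ i`. Then `|S| ≤ 2 d`: let `D` be the
set of the distinct weights (`Finset.univ.image W`). The rank of `W` is at most `|D|`
(`Matrix.rank_eq_finrank_span_row`: the rows, as elements of `ℚ^ρ`, form a set with at most `|D|` elements,
`finrank_span_le_card`-type lemma), so `N - |D| ≤ d`; and `|S| ≤ 2 (N - |D|)`: for every `w ∈ D` let
`n_w = |{i | W i = w}| ≥ 1`; `N = ∑_w n_w` (`Finset.card_eq_sum_card_fiberwise`),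
`|S| = ∑_{n_w ≥ 2} n_w ≤ ∑_w 2 (n_w - 1)`.

Let `s = |S|` and `e : Fin s ≃ S`. By `block` (`Graded.lean`) an element `g` of `G` has `g i l = 0` unless
`W i = W l`; in particular `g i l = 0` if `i ∈ S`, `l ∉ S` or `i ∉ S`, `l ≠ i`. So
`g ↦ g.submatrix e e` is a homomorphism `π` from `G` to `GL (Fin s) ℂ` (it is multiplicative on such
matrices, and maps `1` to `1`; the inverse is the image of `g⁻¹`). Let `J = max_{s ≤ 2 d} J_s` (or the sum)
with `J_s` the constant of `jordan s` (`KQ/Jordan.lean`). There is an abelian subgroup `A'` of the image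
`π (G)`, of index at most `J`. Let `A = {g ∈ G | π g ∈ A'}`; its index in `G` is the index of `A'` in `π (G)`
(`Subgroup.relIndex_comap`-type lemma, `Subgroup.index_comap_of_surjective`). `A` is abelian: for
`a, b ∈ A` the entries `(i, l)` of `a b` and `b a` are equal: if `i, l ∈ S` because `π a`, `π b` commute (the
sum `∑_j a i j b j l` runs over `j ∈ S`); if `i ∈ S`, `l ∉ S` both are `0`; if `i ∉ S` the row `i` of `a` and
of `b` has the diagonal entry only, and both entries are `a i i b i i` if `l = i` and `0` otherwise.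
-/

set_option autoImplicit false

namespace Pool.Agent.Helper12.KR

open MeasureTheory Pool.Agent.Helper12.KQ

theorem card_mult {N ρ d : ℕ} (W : Fin N → Fin ρ → ℤ)
    (hd : N ≤ d + (Matrix.of fun i j => (W i j : ℚ)).rank) :
    (Finset.univ.filter fun i => ∃ l, l ≠ i ∧ W l = W i).card ≤ 2 * d := by
  classical
  set D : Finset (Fin ρ → ℤ) := Finset.univ.image W with hD
  have hrank : (Matrix.of fun i j => (W i j : ℚ)).rank ≤ D.card := by
    rw [Matrix.rank_eq_finrank_span_row]
    have h1 : Set.range (Matrix.of fun i j => (W i j : ℚ)).row =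
        ((D.image fun w j => ((w j : ℤ) : ℚ) : Finset (Fin ρ → ℚ)) : Set (Fin ρ → ℚ)) := by
      ext v
      simp only [Set.mem_range, Finset.coe_image, hD, Finset.coe_univ, Set.image_univ, Set.mem_image,
        exists_exists_eq_and]
      rfl
    rw [h1]
    exact (finrank_span_finset_le_card _).trans Finset.card_image_le
  set S : Finset (Fin N) := Finset.univ.filter fun i => ∃ l, l ≠ i ∧ W l = W i with hS
  have hN : N = ∑ w ∈ D, (Finset.univ.filter fun i => W i = w).card := by
    have h1 := Finset.card_eq_sum_card_fiberwise (s := (Finset.univ : Finset (Fin N))) (t := D)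
      (f := W) (fun i _ => Finset.mem_image_of_mem W (Finset.mem_univ i))
    rw [Finset.card_univ, Fintype.card_fin] at h1
    exact h1
  have hSs : S.card = ∑ w ∈ D, (S.filter fun i => W i = w).card :=
    Finset.card_eq_sum_card_fiberwise (fun i _ => Finset.mem_image_of_mem W (Finset.mem_univ i))
  have hw : ∀ w ∈ D, (S.filter fun i => W i = w).card + 2 ≤
      2 * (Finset.univ.filter fun i => W i = w).card := by
    intro w hwD
    obtain ⟨i0, -, hi0⟩ := Finset.mem_image.1 hwD
    have hle : (S.filter fun i => W i = w).card ≤ (Finset.univ.filter fun i => W i = w).card :=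
      Finset.card_le_card (Finset.filter_subset_filter _ (Finset.subset_univ _))
    rcases Finset.eq_empty_or_nonempty (S.filter fun i => W i = w) with he | ⟨i, hi⟩
    · rw [he, Finset.card_empty]
      have : 1 ≤ (Finset.univ.filter fun i => W i = w).card :=
        Finset.card_pos.2 ⟨i0, by simp [hi0]⟩
      omega
    · rw [Finset.mem_filter] at hi
      obtain ⟨hiS, hiw⟩ := hi
      obtain ⟨l, hl, hWl⟩ := (Finset.mem_filter.1 hiS).2
      have : 1 < (Finset.univ.filter fun i => W i = w).card := by
        rw [Finset.one_lt_card]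
        exact ⟨l, by simp [hWl, hiw], i, by simp [hiw], hl⟩
      omega
  have h2 : S.card + 2 * D.card ≤ 2 * N := by
    calc S.card + 2 * D.card = ∑ w ∈ D, ((S.filter fun i => W i = w).card + 2) := by
          rw [Finset.sum_add_distrib, ← hSs, Finset.sum_const, smul_eq_mul, mul_comm]
      _ ≤ ∑ w ∈ D, 2 * (Finset.univ.filter fun i => W i = w).card := Finset.sum_le_sum hw
      _ = 2 * N := by
          rw [← Finset.mul_sum, ← hN]
  omega

theorem jordan2 (d : ℕ) : ∃ J : ℕ, ∀ (N ρ : ℕ) (W : Fin N → Fin ρ → ℤ),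
    N ≤ d + (Matrix.of fun i j => (W i j : ℚ)).rank → ∀ G : Subgroup (GL (Fin N) ℂ), Finite G →
    (∀ g ∈ G, ∀ t, g * tor W t = tor W t * g) →
    ∃ A ≤ G, (∀ a ∈ A, ∀ b ∈ A, a * b = b * a) ∧ A.relIndex G ≤ J := by
  classical
  choose J hJ using jordan
  refine ⟨∑ s ∈ Finset.range (2 * d + 1), J s, ?_⟩
  intro N ρ W hd G hG hcom
  set S : Finset (Fin N) := Finset.univ.filter fun i => ∃ l, l ≠ i ∧ W l = W i with hS
  have hcard : S.card ≤ 2 * d := card_mult W hd
  have hz1 : ∀ g ∈ G, ∀ i ∈ S, ∀ l, l ∉ S → (g : Matrix (Fin N) (Fin N) ℂ) i l = 0 := by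
    intro g hg i hi l hl
    by_contra hne
    have h1 := block (fun t => hcom g hg t) hne
    refine hl (Finset.mem_filter.2 ⟨Finset.mem_univ _, i, ?_, h1⟩)
    rintro rfl
    exact hl hi
  have hz2 : ∀ g ∈ G, ∀ i, i ∉ S → ∀ l, l ≠ i → (g : Matrix (Fin N) (Fin N) ℂ) i l = 0 := by
    intro g hg i hi l hl
    by_contra hne
    have h1 := block (fun t => hcom g hg t) hne
    exact hi (Finset.mem_filter.2 ⟨Finset.mem_univ _, l, hl, h1.symm⟩)
  let e : Fin S.card ≃ S := S.equivFin.symm
  let φ : G →* Matrix (Fin S.card) (Fin S.card) ℂ :=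
    { toFun := fun g => ((g : GL (Fin N) ℂ) : Matrix (Fin N) (Fin N) ℂ).submatrix
        (fun a => (e a : Fin N)) (fun a => (e a : Fin N))
      map_one' := by
        ext a b
        simp only [Subgroup.coe_one, Units.val_one, Matrix.submatrix_apply, Matrix.one_apply]
        by_cases hab : a = b
        · subst hab
          simp
        · rw [if_neg hab, if_neg]
          intro h
          exact hab (e.injective (Subtype.ext h))
      map_mul' := by
        intro g h
        ext a b
        simp only [Subgroup.coe_mul, Units.val_mul, Matrix.submatrix_apply, Matrix.mul_apply]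
        have h1 : ∑ j, ((g : GL (Fin N) ℂ) : Matrix (Fin N) (Fin N) ℂ) (e a) j *
            ((h : GL (Fin N) ℂ) : Matrix (Fin N) (Fin N) ℂ) j (e b) =
            ∑ j ∈ S, ((g : GL (Fin N) ℂ) : Matrix (Fin N) (Fin N) ℂ) (e a) j *
            ((h : GL (Fin N) ℂ) : Matrix (Fin N) (Fin N) ℂ) j (e b) := by
          refine (Finset.sum_subset (Finset.subset_univ _) ?_).symm
          intro j _ hj
          rw [hz1 g g.2 (e a) (e a).2 j hj, zero_mul]
        rw [h1, ← Finset.sum_coe_sort S, ← e.sum_comp] }
  let π : G →* GL (Fin S.card) ℂ := φ.toHomUnits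
  have hπ : ∀ g : G, ((π g : GL (Fin S.card) ℂ) : Matrix (Fin S.card) (Fin S.card) ℂ) = φ g :=
    fun g => rfl
  have hfin : Finite π.range := Set.Finite.to_subtype (Set.finite_range π)
  obtain ⟨A', hA1, hA2, hA3⟩ := hJ S.card π.range hfin
  refine ⟨(A'.comap π).map G.subtype, ?_, ?_, ?_⟩
  · rintro _ ⟨g, -, rfl⟩
    exact g.2
  · rintro _ ⟨x, hx, rfl⟩ _ ⟨y, hy, rfl⟩
    have hxy : π x * π y = π y * π x := hA2 _ hx _ hy
    have hφ : φ (x * y) = φ (y * x) := by
      rw [← hπ, ← hπ, map_mul, map_mul, hxy]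
    show (x : GL (Fin N) ℂ) * (y : GL (Fin N) ℂ) = (y : GL (Fin N) ℂ) * (x : GL (Fin N) ℂ)
    refine Units.ext ?_
    ext i l
    by_cases hi : i ∈ S
    · by_cases hl : l ∈ S
      · have h1 := congrFun (congrFun hφ (e.symm ⟨i, hi⟩)) (e.symm ⟨l, hl⟩)
        have h2 : ∀ g : G, φ g (e.symm ⟨i, hi⟩) (e.symm ⟨l, hl⟩) =
            ((g : GL (Fin N) ℂ) : Matrix (Fin N) (Fin N) ℂ) i l := by
          intro g
          show ((g : GL (Fin N) ℂ) : Matrix (Fin N) (Fin N) ℂ) (e (e.symm ⟨i, hi⟩))
            (e (e.symm ⟨l, hl⟩)) = _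
          rw [Equiv.apply_symm_apply, Equiv.apply_symm_apply]
        rw [h2, h2] at h1
        exact h1
      · rw [← Subgroup.coe_mul, ← Subgroup.coe_mul, hz1 _ (x * y).2 i hi l hl,
          hz1 _ (y * x).2 i hi l hl]
    · by_cases hil : l = i
      · subst hil
        rw [Units.val_mul, Units.val_mul, Matrix.mul_apply, Matrix.mul_apply,
          Finset.sum_eq_single l, Finset.sum_eq_single l, mul_comm]
        · intro j _ hj
          rw [hz2 y y.2 l hi j hj, zero_mul]
        · intro h
          exact absurd (Finset.mem_univ l) h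
        · intro j _ hj
          rw [hz2 x x.2 l hi j hj, zero_mul]
        · intro h
          exact absurd (Finset.mem_univ l) h
      · rw [← Subgroup.coe_mul, ← Subgroup.coe_mul, hz2 _ (x * y).2 i hi l hil,
          hz2 _ (y * x).2 i hi l hil]
  · rw [Subgroup.relIndex, Subgroup.subgroupOf,
      Subgroup.comap_map_eq_self_of_injective (Subgroup.subtype_injective G), Subgroup.index_comap]
    refine hA3.trans ?_
    exact Finset.single_le_sum (f := J) (fun _ _ => Nat.zero_le _)
      (Finset.mem_range.2 (by omega))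

end Pool.Agent.Helper12.KR
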