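import Pool.Agent.Helper12.KR.Alt

/-!
# Block KR-L: linear programming duality

`W_i ∈ ℤ^ρ`, `θ` in the cone of all the `W_i`, `a_i ≥ 0` real. There is `y ∈ ℝ^ρ` with
`⟨y, W_i⟩ ≤ a_i` for all `i` such that `θ` is in the rational cone of the `W_i` with `⟨y, W_i⟩ = a_i`.

Proof. Let `Λ = {lam ∈ ℝ^N | lam ≥ 0, ∑ lam_i W_i = θ}` (nonempty: `e/n` from `Pos W θ univ`) and
`v = inf {∑ lam_i a_i | lam ∈ Λ} ≥ 0`.
(1) There is `y ∈ ℝ^ρ` with `⟨y, W_i⟩ ≤ a_i` for all `i` and `⟨y, θ⟩ = v`. Let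
`E = {(lam, s) ∈ ℝ^N × ℝ | ∑_i lam_i W_i = s θ}` (a submodule; or work in `ℝ^N × ℝ` and add the
functionals `±(∑_i lam_i W_ij - s θ_j)` to the list). If `(lam, s) ∈ E` and `lam_i ≥ 0` for all `i` then
`s v ≤ ∑ lam_i a_i`: for `s > 0` because `lam/s ∈ Λ`; for `s ≤ 0` because `s v ≤ 0 ≤ ∑ lam_i a_i`. By
`farkas` (functionals `-lam_i` on `E`) there are `μ_i ≥ 0` with `s v - ∑ lam_i a_i = - ∑ μ_i lam_i`
on `E`. So the functional `s v - ∑ (a_i - μ_i) lam_i` vanishes on `E`, the common kernel of the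
functionals `∑_i lam_i W_ij - s θ_j`, so it is a linear combination `- ∑_j y_j (∑_i lam_i W_ij - s θ_j)`
(`mem_span_of_iInf_ker_le_ker`); with the `±` version of the list this is immediate. Comparing
coefficients: `⟨y, W_i⟩ = a_i - μ_i ≤ a_i`, `⟨y, θ⟩ = v`.
(2) Let `I = {i | ⟨y, W_i⟩ = a_i}`. If not `Pos W θ I`, take `z` from `pos_or`: `⟨z, W_i⟩ ≤ 0` for
`i ∈ I`, `⟨z, θ⟩ > 0`. For `i ∉ I` we have `⟨y, W_i⟩ < a_i`; so `⟨y + τ z, W_i⟩ ≤ a_i` for all `i` if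
`τ > 0` is small. Hence for `lam ∈ Λ`: `⟨y + τ z, θ⟩ = ∑ lam_i ⟨y + τ z, W_i⟩ ≤ ∑ lam_i a_i`, so
`v + τ ⟨z, θ⟩ ≤ v`, a contradiction.
-/

set_option autoImplicit false

namespace Pool.Agent.Helper12.KR

open MeasureTheory Pool.Agent.Helper12.KQ

variable {N ρ : ℕ}

private noncomputable def fl50 (W : Fin N → Fin ρ → ℤ) (θ : Fin ρ → ℤ) (j : Fin ρ) : ((Fin N → ℝ) × ℝ) →ₗ[ℝ] ℝ where
  toFun x := ∑ i, x.1 i * (W i j : ℝ) - x.2 * (θ j : ℝ)
  map_add' x y := by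
    simp only [Prod.fst_add, Prod.snd_add, Pi.add_apply, add_mul, Finset.sum_add_distrib]
    ring
  map_smul' r x := by
    simp only [Prod.smul_fst, Prod.smul_snd, Pi.smul_apply, smul_eq_mul, mul_assoc, ← Finset.mul_sum, RingHom.id_apply]
    ring

private theorem fl50_apply (W : Fin N → Fin ρ → ℤ) (θ : Fin ρ → ℤ) (j : Fin ρ) (x : (Fin N → ℝ) × ℝ) :
    fl50 W θ j x = ∑ i, x.1 i * (W i j : ℝ) - x.2 * (θ j : ℝ) := rfl

private noncomputable def co50 (i : Fin N) : ((Fin N → ℝ) × ℝ) →ₗ[ℝ] ℝ where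
  toFun x := - x.1 i
  map_add' x y := by
    simp only [Prod.fst_add, Pi.add_apply]
    ring
  map_smul' r x := by
    simp only [Prod.smul_fst, Pi.smul_apply, smul_eq_mul, RingHom.id_apply]
    ring

private theorem co50_apply (i : Fin N) (x : (Fin N → ℝ) × ℝ) : co50 i x = - x.1 i := rfl

private noncomputable def cc50 (a : Fin N → ℝ) (v : ℝ) : ((Fin N → ℝ) × ℝ) →ₗ[ℝ] ℝ where
  toFun x := x.2 * v - ∑ i, x.1 i * a i
  map_add' x y := by
    simp only [Prod.fst_add, Prod.snd_add, Pi.add_apply, add_mul, Finset.sum_add_distrib]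
    ring
  map_smul' r x := by
    simp only [Prod.smul_fst, Prod.smul_snd, Pi.smul_apply, smul_eq_mul, mul_assoc, ← Finset.mul_sum, RingHom.id_apply]
    ring

private theorem cc50_apply (a : Fin N → ℝ) (v : ℝ) (x : (Fin N → ℝ) × ℝ) :
    cc50 a v x = x.2 * v - ∑ i, x.1 i * a i := rfl

/-- the key step: a point with value `v` -/
private theorem key50 {W : Fin N → Fin ρ → ℤ} {θ : Fin ρ → ℤ} {a : Fin N → ℝ} (ha : ∀ i, 0 ≤ a i) {v : ℝ} (hv : 0 ≤ v)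
    (h : ∀ lam : Fin N → ℝ, (∀ i, 0 ≤ lam i) → (∀ j, ∑ i, lam i * (W i j : ℝ) = θ j) → v ≤ ∑ i, lam i * a i) :
    ∃ y : Fin ρ → ℝ, (∀ i, ∑ j, y j * (W i j : ℝ) ≤ a i) ∧ ∑ j, y j * (θ j : ℝ) = v := by
  classical
  let A : Fin N ⊕ (Fin ρ ⊕ Fin ρ) → ((Fin N → ℝ) × ℝ) →ₗ[ℝ] ℝ :=
    Sum.elim co50 (Sum.elim (fl50 W θ) fun j => - fl50 W θ j)
  obtain ⟨mu, hmu, -, hc⟩ := farkas (Finset.univ : Finset (Fin N ⊕ (Fin ρ ⊕ Fin ρ))) A (cc50 a v) (by
    intro x hx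
    have h1 : ∀ i, 0 ≤ x.1 i := by
      intro i
      have h2 := hx (Sum.inl i) (Finset.mem_univ _)
      have h3 : A (Sum.inl i) x = - x.1 i := rfl
      rw [h3] at h2
      linarith
    have h2 : ∀ j, ∑ i, x.1 i * (W i j : ℝ) = x.2 * (θ j : ℝ) := by
      intro j
      have h3 := hx (Sum.inr (Sum.inl j)) (Finset.mem_univ _)
      have h4 := hx (Sum.inr (Sum.inr j)) (Finset.mem_univ _)
      have h5 : A (Sum.inr (Sum.inl j)) x = ∑ i, x.1 i * (W i j : ℝ) - x.2 * (θ j : ℝ) := rfl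
      have h6 : A (Sum.inr (Sum.inr j)) x = -(∑ i, x.1 i * (W i j : ℝ) - x.2 * (θ j : ℝ)) := rfl
      rw [h5] at h3
      rw [h6] at h4
      linarith
    rw [cc50_apply]
    have h3 : 0 ≤ ∑ i, x.1 i * a i := Finset.sum_nonneg fun i _ => mul_nonneg (h1 i) (ha i)
    rcases le_or_gt x.2 0 with hs | hs
    · have h4 : x.2 * v ≤ 0 := mul_nonpos_of_nonpos_of_nonneg hs hv
      linarith
    · have h4 := h (fun i => x.1 i / x.2) (fun i => div_nonneg (h1 i) hs.le) (fun j => by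
        have h5 := h2 j
        calc ∑ i, x.1 i / x.2 * (W i j : ℝ) = (∑ i, x.1 i * (W i j : ℝ)) / x.2 := by
              rw [Finset.sum_div]
              exact Finset.sum_congr rfl fun i _ => by ring
          _ = θ j := by
              rw [h5]
              field_simp)
      have h5 : ∑ i, x.1 i / x.2 * a i = (∑ i, x.1 i * a i) / x.2 := by
        rw [Finset.sum_div]
        exact Finset.sum_congr rfl fun i _ => by ring
      rw [h5, le_div_iff₀ hs] at h4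
      linarith)
  have hev : ∀ x : (Fin N → ℝ) × ℝ, cc50 a v x = ∑ i, mu (Sum.inl i) * (- x.1 i) +
      ∑ j, (mu (Sum.inr (Sum.inl j)) - mu (Sum.inr (Sum.inr j))) * (∑ i, x.1 i * (W i j : ℝ) - x.2 * (θ j : ℝ)) := by
    intro x
    have h1 := congrArg (fun f : ((Fin N → ℝ) × ℝ) →ₗ[ℝ] ℝ => f x) hc
    rw [h1, LinearMap.sum_apply, Fintype.sum_sum_type, Fintype.sum_sum_type, ← Finset.sum_add_distrib]
    congr 1
    refine Finset.sum_congr rfl fun j _ => ?_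
    show mu (Sum.inr (Sum.inl j)) * fl50 W θ j x + mu (Sum.inr (Sum.inr j)) * (- fl50 W θ j x) = _
    rw [fl50_apply]
    ring
  refine ⟨fun j => mu (Sum.inr (Sum.inr j)) - mu (Sum.inr (Sum.inl j)), fun i => ?_, ?_⟩
  · have h1 := hev (Pi.single i 1, 0)
    rw [cc50_apply] at h1
    simp only [zero_mul, zero_sub, sub_zero] at h1
    have h2 : ∀ b : Fin N → ℝ, ∑ k, (Pi.single i (1 : ℝ) : Fin N → ℝ) k * b k = b i := by
      intro b
      rw [Finset.sum_eq_single i]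
      · simp
      · intro k _ hk
        rw [Pi.single_eq_of_ne hk, zero_mul]
      · intro hi
        exact absurd (Finset.mem_univ i) hi
    rw [h2 a] at h1
    have h3 : ∑ k, mu (Sum.inl k) * (-(Pi.single i (1 : ℝ) : Fin N → ℝ) k) = - mu (Sum.inl i) := by
      have h4 := h2 fun k => - mu (Sum.inl k)
      rw [← h4]
      exact Finset.sum_congr rfl fun k _ => by ring
    rw [h3] at h1
    have h4 : ∑ j, (mu (Sum.inr (Sum.inl j)) - mu (Sum.inr (Sum.inr j))) *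
        ∑ k, (Pi.single i (1 : ℝ) : Fin N → ℝ) k * (W k j : ℝ) =
        - ∑ j, (mu (Sum.inr (Sum.inr j)) - mu (Sum.inr (Sum.inl j))) * (W i j : ℝ) := by
      rw [← Finset.sum_neg_distrib]
      refine Finset.sum_congr rfl fun j _ => ?_
      rw [h2 fun k => (W k j : ℝ)]
      ring
    rw [h4] at h1
    have h5 := hmu (Sum.inl i)
    linarith
  · have h1 := hev (0, 1)
    rw [cc50_apply] at h1
    simp only [Pi.zero_apply, zero_mul, Finset.sum_const_zero, sub_zero, one_mul, neg_zero, mul_zero, zero_add, zero_sub] at h1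
    rw [h1]
    refine Finset.sum_congr rfl fun j _ => ?_
    ring

theorem lp_opt {W : Fin N → Fin ρ → ℤ} {θ : Fin ρ → ℤ} {lam₀ : Fin N → ℝ}
    (h0 : ∀ i, 0 ≤ lam₀ i) (h1 : ∀ j, ∑ i, lam₀ i * (W i j : ℝ) = θ j) {a : Fin N → ℝ}
    (ha : ∀ i, 0 ≤ a i) : ∃ y : Fin ρ → ℝ, (∀ i, ∑ j, y j * (W i j : ℝ) ≤ a i) ∧
      ∀ y' : Fin ρ → ℝ, (∀ i, ∑ j, y' j * (W i j : ℝ) ≤ a i) →
        ∑ j, y' j * (θ j : ℝ) ≤ ∑ j, y j * (θ j : ℝ) := by
  let Λ : Set ℝ := {r | ∃ lam : Fin N → ℝ, (∀ i, 0 ≤ lam i) ∧ (∀ j, ∑ i, lam i * (W i j : ℝ) = θ j) ∧ r = ∑ i, lam i * a i}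
  have hne : Λ.Nonempty := ⟨_, lam₀, h0, h1, rfl⟩
  have hbd : ∀ r ∈ Λ, 0 ≤ r := by
    rintro r ⟨lam, hlam, -, rfl⟩
    exact Finset.sum_nonneg fun i _ => mul_nonneg (hlam i) (ha i)
  have hBdd : BddBelow Λ := ⟨0, fun r hr => hbd r hr⟩
  obtain ⟨y, hy, hyv⟩ := key50 (W := W) (θ := θ) ha (v := sInf Λ) (le_csInf hne hbd)
    (fun lam hlam hW => csInf_le hBdd ⟨lam, hlam, hW, rfl⟩)
  refine ⟨y, hy, fun y' hy' => ?_⟩
  rw [hyv]
  refine le_csInf hne ?_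
  rintro r ⟨lam, hlam, hW, rfl⟩
  calc ∑ j, y' j * (θ j : ℝ) = ∑ j, ∑ i, y' j * (lam i * (W i j : ℝ)) := by
        refine Finset.sum_congr rfl fun j _ => ?_
        rw [← hW j, Finset.mul_sum]
    _ = ∑ i, ∑ j, y' j * (lam i * (W i j : ℝ)) := Finset.sum_comm
    _ = ∑ i, lam i * ∑ j, y' j * (W i j : ℝ) := by
        refine Finset.sum_congr rfl fun i _ => ?_
        rw [Finset.mul_sum]
        exact Finset.sum_congr rfl fun j _ => by ring
    _ ≤ ∑ i, lam i * a i := Finset.sum_le_sum fun i _ => mul_le_mul_of_nonneg_left (hy' i) (hlam i)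

theorem lp {W : Fin N → Fin ρ → ℤ} {θ : Fin ρ → ℤ} (h : Pos W θ Finset.univ) {a : Fin N → ℝ}
    (ha : ∀ i, 0 ≤ a i) : ∃ (y : Fin ρ → ℝ) (I : Finset (Fin N)), Pos W θ I ∧
      (∀ i, ∑ j, y j * (W i j : ℝ) ≤ a i) ∧ ∀ i ∈ I, ∑ j, y j * (W i j : ℝ) = a i := by
  classical
  obtain ⟨n, e, hn, -, he⟩ := h
  have hn' : (0 : ℝ) < n := by exact_mod_cast hn
  obtain ⟨y, hy, hopt⟩ := lp_opt (W := W) (θ := θ) (lam₀ := fun i => (e i : ℝ) / n) (fun i => by positivity)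
    (fun j => by
      have h1 : (∑ i, (e i : ℝ) * (W i j : ℝ)) = n * θ j := by exact_mod_cast he j
      calc ∑ i, (e i : ℝ) / n * (W i j : ℝ) = (∑ i, (e i : ℝ) * (W i j : ℝ)) / n := by
            rw [Finset.sum_div]
            exact Finset.sum_congr rfl fun i _ => by ring
        _ = θ j := by
            rw [h1]
            field_simp) ha
  refine ⟨y, Finset.univ.filter fun i => ∑ j, y j * (W i j : ℝ) = a i, ?_, hy, fun i hi => (Finset.mem_filter.1 hi).2⟩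
  rcases pos_or W θ (Finset.univ.filter fun i => ∑ j, y j * (W i j : ℝ) = a i) with hp | ⟨z, hz, hzθ⟩
  · exact hp
  exfalso
  have hexp : ∀ (w : Fin ρ → ℤ) (τ : ℝ), ∑ j, (y j + τ * (z j : ℝ)) * (w j : ℝ) =
      ∑ j, y j * (w j : ℝ) + τ * ((∑ j, z j * w j : ℤ) : ℝ) := by
    intro w τ
    push_cast
    rw [Finset.mul_sum, ← Finset.sum_add_distrib]
    exact Finset.sum_congr rfl fun j _ => by ring
  have hev : ∀ i, ∀ᶠ τ in nhdsWithin (0 : ℝ) (Set.Ioi 0), ∑ j, (y j + τ * (z j : ℝ)) * (W i j : ℝ) ≤ a i := by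
    intro i
    by_cases hi : ∑ j, y j * (W i j : ℝ) = a i
    · have h1 := hz i (Finset.mem_filter.2 ⟨Finset.mem_univ i, hi⟩)
      have h2 : ((∑ j, z j * W i j : ℤ) : ℝ) ≤ 0 := by exact_mod_cast h1
      filter_upwards [self_mem_nhdsWithin] with τ hτ
      rw [hexp, hi]
      have h3 : τ * ((∑ j, z j * W i j : ℤ) : ℝ) ≤ 0 := mul_nonpos_of_nonneg_of_nonpos (le_of_lt hτ) h2
      linarith
    · have h1 : ∑ j, y j * (W i j : ℝ) < a i := lt_of_le_of_ne (hy i) hi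
      have h2 : Filter.Tendsto (fun τ : ℝ => ∑ j, y j * (W i j : ℝ) + τ * ((∑ j, z j * W i j : ℤ) : ℝ))
          (nhds 0) (nhds (∑ j, y j * (W i j : ℝ) + 0 * ((∑ j, z j * W i j : ℤ) : ℝ))) :=
        (Continuous.tendsto (by fun_prop) 0)
      rw [zero_mul, add_zero] at h2
      have h3 := (h2.mono_left (nhdsWithin_le_nhds (s := Set.Ioi 0))).eventually (eventually_lt_nhds h1)
      filter_upwards [h3] with τ hτ
      rw [hexp]
      exact hτ.le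
  obtain ⟨τ, hτ, hτ0⟩ := ((Filter.eventually_all.2 hev).and self_mem_nhdsWithin).exists
  have h1 := hopt (fun j => y j + τ * (z j : ℝ)) hτ
  rw [hexp] at h1
  have h2 : (0 : ℝ) < ((∑ j, z j * θ j : ℤ) : ℝ) := by exact_mod_cast hzθ
  have h3 : 0 < τ * ((∑ j, z j * θ j : ℤ) : ℝ) := mul_pos hτ0 h2
  linarith

end Pool.Agent.Helper12.KR
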