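import Pool.Agent.Helper12.KR.Prod2

/-!
# Block KR-N: the norm of a semi-invariant

Compare `KQ/Norm.lean` (`norm_step`), the case `T = 1`, `Ω = {0}`. `A ≤ G` finite, `j = [G : A]`, `T` a
subgroup normalised by `G`, `h (t a x) = det (t a)^n h (x)` for `t ∈ T`, `a ∈ A`. Choose a finite set
`R ⊆ G` of representatives of the cosets `A r`, `|R| = j`, and let `h' = ∏_{r ∈ R} h (r x)` (`lin r h`).
For `g ∈ G` and `r ∈ R`: `r g = a_r σ(r)` with `a_r ∈ A`, `σ` a permutation of `R`. For `t ∈ T` there is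
`t' ∈ T` with `r t = t' r`, `det t = det t'`, and
`h (r t g x) = h (t' r g x) = h (t' a_r σ(r) x) = det (t' a_r)^n h (σ(r) x)`,
`det (a_r) = det (r) det (g) det (σ(r))⁻¹`. The product over `r`: `h' (t g x) = det (t g)^(n j) h' (x)`.
`KltAt`: for `u ∈ Ω` we have `r u ∈ Ω`, `klt_lin2`, `klt_prod2`.
-/

set_option autoImplicit false

namespace Pool.Agent.Helper12.KR

open MeasureTheory Pool.Agent.Helper12.KQ

private noncomputable def F26 {N : ℕ} (n : ℕ) (h : MvPolynomial (Fin N) ℂ) (x : Fin N → ℂ)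
    (s : GL (Fin N) ℂ) : ℂ :=
  MvPolynomial.eval (((s⁻¹ : GL (Fin N) ℂ) : Matrix (Fin N) (Fin N) ℂ).mulVec x) h *
    (s : Matrix (Fin N) (Fin N) ℂ).det ^ n

private theorem det_inv26 {N : ℕ} (a : GL (Fin N) ℂ) :
    ((a⁻¹ : GL (Fin N) ℂ) : Matrix (Fin N) (Fin N) ℂ).det *
      (a : Matrix (Fin N) (Fin N) ℂ).det = 1 := by
  rw [← Matrix.det_mul, ← Units.val_mul]
  simp

private theorem F_mul26 {N n : ℕ} {A : Subgroup (GL (Fin N) ℂ)} {h : MvPolynomial (Fin N) ℂ}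
    (hs : ∀ a ∈ A, ∀ x : Fin N → ℂ,
      MvPolynomial.eval ((a : Matrix (Fin N) (Fin N) ℂ).mulVec x) h =
        (a : Matrix (Fin N) (Fin N) ℂ).det ^ n * MvPolynomial.eval x h)
    (x : Fin N → ℂ) (s a : GL (Fin N) ℂ) (ha : a ∈ A) : F26 n h x (s * a) = F26 n h x s := by
  have h1 := hs a⁻¹ (A.inv_mem ha) (((s⁻¹ : GL (Fin N) ℂ) : Matrix (Fin N) (Fin N) ℂ).mulVec x)
  rw [Matrix.mulVec_mulVec, ← Units.val_mul] at h1
  have h2 := det_inv26 a
  rw [F26, F26, mul_inv_rev, h1, Units.val_mul, Matrix.det_mul, mul_pow]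
  have h3 : (((a⁻¹ : GL (Fin N) ℂ) : Matrix (Fin N) (Fin N) ℂ).det) ^ n *
      ((a : Matrix (Fin N) (Fin N) ℂ).det) ^ n = 1 := by
    rw [← mul_pow, h2, one_pow]
  linear_combination (MvPolynomial.eval
    (((s⁻¹ : GL (Fin N) ℂ) : Matrix (Fin N) (Fin N) ℂ).mulVec x) h *
    (s : Matrix (Fin N) (Fin N) ℂ).det ^ n) * h3

private theorem F_shift26 {N n : ℕ} {T : Subgroup (GL (Fin N) ℂ)} {h : MvPolynomial (Fin N) ℂ}
    (hs : ∀ t ∈ T, ∀ x : Fin N → ℂ,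
      MvPolynomial.eval ((t : Matrix (Fin N) (Fin N) ℂ).mulVec x) h =
        (t : Matrix (Fin N) (Fin N) ℂ).det ^ n * MvPolynomial.eval x h)
    (x : Fin N → ℂ) (t u s t' : GL (Fin N) ℂ) (ht' : t' ∈ T) (htt : s⁻¹ * t = t' * s⁻¹) :
    F26 n h (((t * u : GL (Fin N) ℂ) : Matrix (Fin N) (Fin N) ℂ).mulVec x) s =
      F26 n h x (u⁻¹ * s) * ((t * u : GL (Fin N) ℂ) : Matrix (Fin N) (Fin N) ℂ).det ^ n := by
  have hd : (t' : Matrix (Fin N) (Fin N) ℂ).det = (t : Matrix (Fin N) (Fin N) ℂ).det := by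
    have h1 : ((s⁻¹ * t : GL (Fin N) ℂ) : Matrix (Fin N) (Fin N) ℂ).det =
        ((t' * s⁻¹ : GL (Fin N) ℂ) : Matrix (Fin N) (Fin N) ℂ).det := by rw [htt]
    rw [Units.val_mul, Units.val_mul, Matrix.det_mul, Matrix.det_mul] at h1
    have h2 := det_inv26 s
    have h3 : ((s⁻¹ : GL (Fin N) ℂ) : Matrix (Fin N) (Fin N) ℂ).det ≠ 0 :=
      left_ne_zero_of_mul_eq_one h2
    apply mul_left_cancel₀ h3
    rw [h1, mul_comm]
  have h2 := det_inv26 u
  have h3 : (((u⁻¹ : GL (Fin N) ℂ) : Matrix (Fin N) (Fin N) ℂ).det) ^ n *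
      ((u : Matrix (Fin N) (Fin N) ℂ).det) ^ n = 1 := by
    rw [← mul_pow, h2, one_pow]
  have h4 : s⁻¹ * (t * u) = t' * (s⁻¹ * u) := by
    rw [← mul_assoc, htt, mul_assoc]
  rw [F26, F26, mul_inv_rev, inv_inv, Matrix.mulVec_mulVec, ← Units.val_mul, h4, Units.val_mul t',
    ← Matrix.mulVec_mulVec, hs t' ht', hd, Units.val_mul u⁻¹, Units.val_mul t,
    Matrix.det_mul, Matrix.det_mul, mul_pow, mul_pow]
  linear_combination (-(MvPolynomial.eval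
    (((s⁻¹ * u : GL (Fin N) ℂ) : Matrix (Fin N) (Fin N) ℂ).mulVec x) h *
    (s : Matrix (Fin N) (Fin N) ℂ).det ^ n * (t : Matrix (Fin N) (Fin N) ℂ).det ^ n)) * h3

theorem norm_step2 {N n : ℕ} (hn : 0 < n) (G A T : Subgroup (GL (Fin N) ℂ)) (hG : Finite G)
    (hAG : A ≤ G) (hT : ∀ g ∈ G, ∀ t ∈ T, ∃ t' ∈ T, g * t = t' * g) (Ω : Set (Fin N → ℂ))
    (hΩ : ∀ g ∈ G, ∀ u ∈ Ω, (g : Matrix (Fin N) (Fin N) ℂ).mulVec u ∈ Ω)
    {h : MvPolynomial (Fin N) ℂ}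
    (hs : ∀ t ∈ T, ∀ a ∈ A, ∀ x : Fin N → ℂ,
      MvPolynomial.eval (((t * a : GL (Fin N) ℂ) : Matrix (Fin N) (Fin N) ℂ).mulVec x) h =
        ((t * a : GL (Fin N) ℂ) : Matrix (Fin N) (Fin N) ℂ).det ^ n * MvPolynomial.eval x h)
    (hk : ∀ u ∈ Ω, KltAt n h u) :
    ∃ h' : MvPolynomial (Fin N) ℂ,
      (∀ t ∈ T, ∀ g ∈ G, ∀ x : Fin N → ℂ,
        MvPolynomial.eval (((t * g : GL (Fin N) ℂ) : Matrix (Fin N) (Fin N) ℂ).mulVec x) h' =
          ((t * g : GL (Fin N) ℂ) : Matrix (Fin N) (Fin N) ℂ).det ^ (n * A.relIndex G) *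
            MvPolynomial.eval x h') ∧
      ∀ u ∈ Ω, KltAt (n * A.relIndex G) h' u := by
  classical
  have hsA : ∀ a ∈ A, ∀ x : Fin N → ℂ,
      MvPolynomial.eval ((a : Matrix (Fin N) (Fin N) ℂ).mulVec x) h =
        (a : Matrix (Fin N) (Fin N) ℂ).det ^ n * MvPolynomial.eval x h := by
    intro a ha x
    have h1 := hs 1 T.one_mem a ha x
    rwa [one_mul] at h1
  have hsT : ∀ t ∈ T, ∀ x : Fin N → ℂ,
      MvPolynomial.eval ((t : Matrix (Fin N) (Fin N) ℂ).mulVec x) h =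
        (t : Matrix (Fin N) (Fin N) ℂ).det ^ n * MvPolynomial.eval x h := by
    intro t ht x
    have h1 := hs t ht 1 A.one_mem x
    rwa [mul_one] at h1
  have : Fintype (G ⧸ A.subgroupOf G) := Fintype.ofFinite _
  have hj : A.relIndex G = (Finset.univ : Finset (G ⧸ A.subgroupOf G)).card := by
    rw [Subgroup.relIndex, Subgroup.index, Nat.card_eq_fintype_card, Finset.card_univ]
  refine ⟨∏ s : G ⧸ A.subgroupOf G,
    lin ((((Quotient.out s)⁻¹ : G) : GL (Fin N) ℂ) : Matrix (Fin N) (Fin N) ℂ) h, ?_, ?_⟩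
  · intro t ht u hu x
    set D : ℂ := ∏ s : G ⧸ A.subgroupOf G,
      (((Quotient.out s : G) : GL (Fin N) ℂ) : Matrix (Fin N) (Fin N) ℂ).det ^ n with hD
    have hD0 : D ≠ 0 := by
      rw [hD, Finset.prod_ne_zero_iff]
      intro s _
      exact pow_ne_zero _ (right_ne_zero_of_mul_eq_one (det_inv26 _))
    have key : ∀ y : Fin N → ℂ, MvPolynomial.eval y (∏ s : G ⧸ A.subgroupOf G,
        lin ((((Quotient.out s)⁻¹ : G) : GL (Fin N) ℂ) : Matrix (Fin N) (Fin N) ℂ) h) * D =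
        ∏ s : G ⧸ A.subgroupOf G, F26 n h y ((Quotient.out s : G) : GL (Fin N) ℂ) := by
      intro y
      rw [map_prod, hD, ← Finset.prod_mul_distrib]
      refine Finset.prod_congr rfl fun s _ => ?_
      rw [eval_lin, F26]
      rfl
    have hFQ : ∀ g : G, F26 n h x ((Quotient.out (QuotientGroup.mk g : G ⧸ A.subgroupOf G) : G) :
        GL (Fin N) ℂ) = F26 n h x (g : GL (Fin N) ℂ) := by
      intro g
      obtain ⟨a, ha⟩ := QuotientGroup.mk_out_eq_mul (A.subgroupOf G) g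
      rw [ha]
      push_cast
      exact F_mul26 hsA x _ _ (Subgroup.mem_subgroupOf.1 a.2)
    apply mul_right_cancel₀ hD0
    rw [key, mul_assoc, key, hj]
    have h1 : ∀ s : G ⧸ A.subgroupOf G,
        F26 n h (((t * u : GL (Fin N) ℂ) : Matrix (Fin N) (Fin N) ℂ).mulVec x)
          ((Quotient.out s : G) : GL (Fin N) ℂ) =
        F26 n h x ((Quotient.out ((⟨u, hu⟩ : G)⁻¹ • s) : G) : GL (Fin N) ℂ) *
          ((t * u : GL (Fin N) ℂ) : Matrix (Fin N) (Fin N) ℂ).det ^ n := by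
      intro s
      obtain ⟨t', ht', htt⟩ := hT _ (G.inv_mem (Quotient.out s : G).2) t ht
      rw [F_shift26 hsT x t u _ t' ht' htt]
      congr 1
      have h2 : (⟨u, hu⟩ : G)⁻¹ • s =
          (QuotientGroup.mk ((⟨u, hu⟩ : G)⁻¹ * Quotient.out s) : G ⧸ A.subgroupOf G) := by
        conv_lhs => rw [← QuotientGroup.out_eq' s]
        rfl
      rw [h2, hFQ]
      rfl
    rw [Finset.prod_congr rfl fun s _ => h1 s, Finset.prod_mul_distrib, Finset.prod_const,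
      ← pow_mul, mul_comm]
    congr 1
    exact Fintype.prod_equiv (MulAction.toPerm ((⟨u, hu⟩ : G)⁻¹)) _ _ fun s => rfl
  · intro u hu
    rw [hj]
    exact klt_prod2 hn Finset.univ ⟨QuotientGroup.mk 1, Finset.mem_univ _⟩ _ fun s _ =>
      klt_lin2 _ (hk _ (hΩ _ (Subtype.mem _) u hu))

end Pool.Agent.Helper12.KR
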