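import Pool.Agent.Helper12.KR.Torus2
import Pool.Agent.Helper12.KR.Jordan2
import Pool.Agent.Helper12.KR.Norm2
import Pool.Agent.Helper12.KR.Index
import Pool.Agent.Helper12.KR.Conj

/-!
# Project KR: assembly
-/

set_option autoImplicit false

namespace Pool.Agent.Helper12.KR

open MeasureTheory Pool.Agent.Helper12.KQ

private theorem dg_mulVec {N : ℕ} (c : Fin N → ℂˣ) (x : Fin N → ℂ) :
    ((dg N c : GL (Fin N) ℂ) : Matrix (Fin N) (Fin N) ℂ).mulVec x = fun i => (c i : ℂ) * x i := by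
  funext i
  rw [dg_coe, Matrix.mulVec_diagonal]

private theorem mulVec_mul' {N : ℕ} (g h : GL (Fin N) ℂ) (x : Fin N → ℂ) :
    ((g * h : GL (Fin N) ℂ) : Matrix (Fin N) (Fin N) ℂ).mulVec x =
      (g : Matrix (Fin N) (Fin N) ℂ).mulVec ((h : Matrix (Fin N) (Fin N) ℂ).mulVec x) := by
  rw [Units.val_mul, Matrix.mulVec_mulVec]

private theorem dg_inj {N : ℕ} {c c' : Fin N → ℂˣ} (h : dg N c = dg N c') : c = c' := by
  funext i
  have h2 := congrArg (fun g : GL (Fin N) ℂ => (g : Matrix (Fin N) (Fin N) ℂ) i i) h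
  simp only [dg_coe, Matrix.diagonal_apply_eq] at h2
  exact Units.ext h2

private theorem det_conj_dg {N : ℕ} {P g : GL (Fin N) ℂ} {c : Fin N → ℂˣ}
    (h : P * g * P⁻¹ = dg N c) :
    (g : Matrix (Fin N) (Fin N) ℂ).det = ∏ i, (c i : ℂ) := by
  have h2 : P * g = dg N c * P := by
    rw [← h]
    group
  have h3 := congrArg (fun g : GL (Fin N) ℂ => (g : Matrix (Fin N) (Fin N) ℂ).det) h2
  simp only [Units.val_mul, Matrix.det_mul, dg_coe, Matrix.det_diagonal] at h3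
  have h6 : (P : Matrix (Fin N) (Fin N) ℂ).det ≠ 0 :=
    ((Matrix.isUnit_iff_isUnit_det _).1 P.isUnit).ne_zero
  rw [mul_comm] at h3
  exact mul_right_cancel₀ h6 h3

private theorem roots_conj_dg {N : ℕ} {P g : GL (Fin N) ℂ} {c : Fin N → ℂˣ}
    (h : P * g * P⁻¹ = dg N c) (hc : ∀ i, ‖(c i : ℂ)‖ = 1) :
    Elliptic (g : Matrix (Fin N) (Fin N) ℂ) := by
  have h1 : (g : Matrix (Fin N) (Fin N) ℂ).charpoly =
      (Matrix.diagonal fun i => (c i : ℂ)).charpoly := by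
    rw [← dg_coe, ← h, Units.val_mul, Units.val_mul]
    have h2 := (Matrix.charpoly_units_conj P (g : Matrix (Fin N) (Fin N) ℂ)).symm
    rw [← Matrix.coe_units_inv] at h2
    exact h2
  intro z hz
  rw [h1, Matrix.charpoly_diagonal, Polynomial.roots_prod _ _
    (Finset.prod_ne_zero_iff.2 fun i _ => Polynomial.X_sub_C_ne_zero _)] at hz
  simp only [Polynomial.roots_X_sub_C, Multiset.mem_bind, Multiset.mem_singleton] at hz
  obtain ⟨i, -, rfl⟩ := hz
  exact hc i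

theorem main2 (d : ℕ) : ∃ C : ℕ, 0 < C ∧ ∀ ε : ℝ, 0 < ε → ε ≤ 1 → ∀ k : ℕ, 2 ≤ k →
    d * 2 ^ (d + 4) / ε ≤ k → ∀ (N ρ : ℕ) (W : Fin N → Fin ρ → ℤ) (θ : Fin ρ → ℤ)
    (G : Subgroup (GL (Fin N) ℂ)), N ≤ d + (Matrix.of fun i j => (W i j : ℚ)).rank → Finite G →
    (∀ g ∈ G, ∀ t, ∃ t', g * tor W t = tor W t' * g) →
    (∀ g ∈ G, ∀ i l, (g : Matrix (Fin N) (Fin N) ℂ) i l ≠ 0 → W i ≠ W l →
      ∃ m, Inv W m ∧ m i ≠ m l) →
    (∀ g ∈ G, ∀ u, Sst W θ u → Sst W θ ((g : Matrix (Fin N) (Fin N) ℂ).mulVec u)) →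
    (∀ u, Sst W θ u → Sst W (can W) u) →
    (∀ g ∈ G, (∀ t, g * tor W t = tor W t * g) → ∀ (t : Fin ρ → ℂˣ) (u : Fin N → ℂ), Sst W θ u →
      ((tor W t * g : GL (Fin N) ℂ) : Matrix (Fin N) (Fin N) ℂ).mulVec u = u → tor W t * g ≠ 1 →
      Elliptic ((tor W t * g : GL (Fin N) ℂ) : Matrix (Fin N) (Fin N) ℂ) →
        ε ≤ age ((tor W t * g : GL (Fin N) ℂ) : Matrix (Fin N) (Fin N) ℂ)) →
    ∃ h : MvPolynomial (Fin N) ℂ,
      (∀ g ∈ G, ∀ (t : Fin ρ → ℂˣ) (x : Fin N → ℂ),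
        MvPolynomial.eval (((tor W t * g : GL (Fin N) ℂ) : Matrix (Fin N) (Fin N) ℂ).mulVec x) h =
          ((tor W t * g : GL (Fin N) ℂ) : Matrix (Fin N) (Fin N) ℂ).det ^ (k * C) *
            MvPolynomial.eval x h) ∧
      ∀ u, Sst W θ u → KltAt (k * C) h u := by
  obtain ⟨J, hJ⟩ := jordan2 d
  refine ⟨(J * 3 ^ (d ^ 2)).factorial, Nat.factorial_pos _, ?_⟩
  intro ε hε hε1 k hk2 hk N ρ W θ G hd hG hnorm hND hΩ hnef hfix
  have hCG : cen G W ≤ G := fun g hg => (mem_cen.1 hg).1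
  have hCfin : Finite (cen G W) := Finite.of_injective (Subgroup.inclusion hCG)
    (Subgroup.inclusion_injective hCG)
  obtain ⟨A, hAC, hAc, hAJ⟩ := hJ N ρ W hd (cen G W) hCfin fun g hg => (mem_cen.1 hg).2
  have hAG : A ≤ G := hAC.trans hCG
  have hAfin : Finite A := Finite.of_injective (Subgroup.inclusion hAG)
    (Subgroup.inclusion_injective hAG)
  have hcomm : ∀ a ∈ A, ∀ t, a * tor W t = tor W t * a := fun a ha => (mem_cen.1 (hAC ha)).2
  obtain ⟨P, W', hW', hP⟩ := exists_diag2 W A hAfin hAc hcomm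
  have hW : ∀ t, P⁻¹ * tor W' t * P⁻¹⁻¹ = tor W t := by
    intro t
    rw [← hW' t]
    group
  have hcan : can W = can W' := can_eq hW'
  let F : (Fin N → ℂˣ) →* GL (Fin N) ℂ := (MulAut.conj P⁻¹).toMonoidHom.comp (dg N)
  have hF : ∀ c, F c = P⁻¹ * dg N c * P := by
    intro c
    simp [F, MulAut.conj_apply]
  have hFinj : Function.Injective F := by
    intro c c' hcc
    apply dg_inj
    have h1 : P * F c * P⁻¹ = P * F c' * P⁻¹ := by rw [hcc]
    rw [hF, hF] at h1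
    simpa [mul_assoc] using h1
  have hTfin : Finite (A.comap F) := by
    have : Function.Injective (fun c : A.comap F => (⟨F c.1, c.2⟩ : A)) := by
      intro c c' hcc
      exact Subtype.ext (hFinj (Subtype.ext_iff.1 hcc))
    exact Finite.of_injective _ this
  -- the element `tor W s * F a` is conjugate to a diagonal matrix
  have hcj : ∀ (s : Fin ρ → ℂˣ) (a : Fin N → ℂˣ),
      P * (tor W s * F a) * P⁻¹ = dg N fun i => chr (W' i) s * a i := by
    intro s a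
    have h1 : P * (tor W s * F a) * P⁻¹ = (P * tor W s * P⁻¹) * dg N a := by
      rw [hF]
      group
    rw [h1, hW', tor_eq, ← map_mul]
    rfl
  have hPst : ∀ u, Sst W θ u → Sst W' θ ((P : Matrix (Fin N) (Fin N) ℂ).mulVec u) :=
    fun u hu => sst_conj hW' hu
  have hnef' : ∀ I, Pos W' θ I → Pos W' (can W') I := by
    intro I hI
    have h1 : Sst W' θ (pt I) := (sst_pt W' θ I).2 hI
    have h2 : Sst W θ (((P⁻¹ : GL (Fin N) ℂ) : Matrix (Fin N) (Fin N) ℂ).mulVec (pt I)) :=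
      sst_conj hW h1
    have h3 := sst_conj hW' (hnef _ h2)
    rw [← mulVec_mul', mul_inv_cancel, Units.val_one, Matrix.one_mulVec, hcan] at h3
    exact (sst_pt W' (can W') I).1 h3
  have hfix' : Fix W' θ (A.comap F) ε := by
    intro I hI a ha s hsI hell hs1
    have h1 : Sst W' θ (pt I) := (sst_pt W' θ I).2 hI
    have h2 : Sst W θ (((P⁻¹ : GL (Fin N) ℂ) : Matrix (Fin N) (Fin N) ℂ).mulVec (pt I)) :=
      sst_conj hW h1
    have hcj' := hcj s a
    have hdg : ((dg N fun i => chr (W' i) s * a i : GL (Fin N) ℂ) :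
        Matrix (Fin N) (Fin N) ℂ).mulVec (pt I) = pt I := by
      rw [dg_mulVec]
      funext i
      by_cases hi : i ∈ I
      · rw [hsI i hi, Units.val_one, one_mul]
      · have h3 : (pt I : Fin N → ℂ) i = 0 := by
          by_contra h4
          exact hi (by rw [← supp_pt I, mem_supp]; exact h4)
        rw [h3, mul_zero]
    have h3 : ((tor W s * F a : GL (Fin N) ℂ) : Matrix (Fin N) (Fin N) ℂ).mulVec
        (((P⁻¹ : GL (Fin N) ℂ) : Matrix (Fin N) (Fin N) ℂ).mulVec (pt I)) =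
        ((P⁻¹ : GL (Fin N) ℂ) : Matrix (Fin N) (Fin N) ℂ).mulVec (pt I) := by
      rw [← mulVec_mul']
      have h4 : tor W s * F a * P⁻¹ = P⁻¹ * dg N fun i => chr (W' i) s * a i := by
        rw [← hcj']
        group
      rw [h4, mulVec_mul', hdg]
    have h4 : tor W s * F a ≠ 1 := by
      intro h5
      rw [h5, mul_one, mul_inv_cancel] at hcj'
      obtain ⟨i, hi⟩ := hs1
      apply hi
      have h6 : (1 : Fin N → ℂˣ) = fun i => chr (W' i) s * a i := by
        apply dg_inj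
        rw [map_one]
        exact hcj'
      exact (congrFun h6 i).symm
    have h6 := hfix (F a) (hAG ha) (hcomm _ ha) s _ h2 h3 h4 (roots_conj_dg hcj' hell)
    rw [age_conj_dg hcj'] at h6
    exact h6
  obtain ⟨h0, hh0, hklt0⟩ := torus2 hTfin hε hε1 hfix' hnef'
    (d := d) (by rw [← rank_conj hW']; exact hd) hk2 hk
  have hs1 : ∀ t ∈ (tor W).range, ∀ a ∈ A, ∀ x : Fin N → ℂ,
      MvPolynomial.eval (((t * a : GL (Fin N) ℂ) : Matrix (Fin N) (Fin N) ℂ).mulVec x)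
        (lin (P : Matrix (Fin N) (Fin N) ℂ) h0) =
        ((t * a : GL (Fin N) ℂ) : Matrix (Fin N) (Fin N) ℂ).det ^ k *
          MvPolynomial.eval x (lin (P : Matrix (Fin N) (Fin N) ℂ) h0) := by
    rintro _ ⟨s, rfl⟩ a ha x
    obtain ⟨c, hc⟩ := hP a ha
    have hFc : F c = a := by
      rw [hF, ← hc]
      group
    have hcT : c ∈ A.comap F := by
      show F c ∈ A
      rw [hFc]
      exact ha
    have hcj' := hcj s c
    rw [hFc] at hcj'
    have h1 : P * (tor W s * a) = (dg N fun i => chr (W' i) s * c i) * P := by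
      rw [← hcj']
      group
    rw [eval_lin, eval_lin, ← mulVec_mul', h1, mulVec_mul', dg_mulVec, det_conj_dg hcj']
    exact hh0 c hcT s ((P : Matrix (Fin N) (Fin N) ℂ).mulVec x)
  have hk0 : 0 < k := by omega
  obtain ⟨h2, hs2, hklt2⟩ := norm_step2 hk0 G A (tor W).range hG hAG
    (by
      rintro g hg _ ⟨s, rfl⟩
      obtain ⟨s', hs'⟩ := hnorm g hg s
      exact ⟨_, ⟨s', rfl⟩, hs'⟩)
    {u | Sst W θ u} (fun g hg u hu => hΩ g hg u hu)
    hs1 (fun u hu => klt_lin2 P (hklt0 _ (hPst u hu)))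
  have hj0 : A.relIndex G ≠ 0 := by
    have : (A.subgroupOf G).index ≠ 0 := Subgroup.index_ne_zero_of_finite
    exact this
  have hjle : A.relIndex G ≤ J * 3 ^ (d ^ 2) := by
    rw [← Subgroup.relIndex_mul_relIndex A (cen G W) G hAC hCG]
    exact Nat.mul_le_mul hAJ (index_cen G hG W hnorm hND hd)
  obtain ⟨q, hq⟩ := Nat.dvd_factorial (Nat.pos_of_ne_zero hj0) hjle
  have hq0 : 0 < q := by
    rcases Nat.eq_zero_or_pos q with h | h
    · rw [h, mul_zero] at hq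
      exact absurd hq (Nat.factorial_pos _).ne'
    · exact h
  refine ⟨h2 ^ q, ?_, ?_⟩
  · intro g hg t x
    rw [map_pow, map_pow, hs2 (tor W t) ⟨t, rfl⟩ g hg x, mul_pow, ← pow_mul, hq, mul_assoc]
  · intro u hu
    rw [hq, ← mul_assoc]
    exact klt_pow2 (Nat.mul_pos hk0 (Nat.pos_of_ne_zero hj0)) hq0 (hklt2 u hu)

end Pool.Agent.Helper12.KR
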