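import Mathlib

/-!
# Block KR-H: a finite supplement of a divisible normal abelian subgroup of finite index, only Mathlib

Let `q = A.index`, `Q = H ⧸ A` (finite with `q` elements), `s = Quotient.out : Q → H` (a section). For
`x, y ∈ Q` let `c x y = s x * s y * (s (x * y))⁻¹ ∈ A`. Associativity: both
`c x y * c (x * y) z * s (x * y * z)` and `(s x * c y z * (s x)⁻¹) * c x (y * z) * s (x * y * z)` are
`s x * s y * s z`. So, with `f x = ∏_z c x z ∈ A` (the product in the commutative group `A`; `z ↦ y * z` is a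
permutation of `Q`), the product over `z` gives `(c x y)^q * f (x * y) = (s x * f y * (s x)⁻¹) * f x`.
Choose `e x ∈ A` with `(e x)^q = (f x)⁻¹` and put `s' x = e x * s x`. Then
`s' x * s' y = c' x y * s' (x * y)` with `c' x y = e x * (s x * e y * (s x)⁻¹) * c x y * (e (x * y))⁻¹ ∈ A` and
`(c' x y)^q = (f x)⁻¹ * (s x * f y * (s x)⁻¹)⁻¹ * (c x y)^q * f (x * y) = 1`. Let
`B = {a ∈ A | a ^ q = 1}` (finite, stable under conjugation and products) and
`G = {b * s' x | b ∈ B, x ∈ Q}`: a finite set, closed under products: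
`b * s' x * (b' * s' y) = (b * (s' x * b' * (s' x)⁻¹) * c' x y) * s' (x * y)`. A finite set which is not empty
and closed under products is a subgroup (`g⁻¹ = g^(n-1)`, `n` the order of `g`, finite because the powers of
`g` stay in the finite set). Every `h ∈ H` is `a * s' x` with `x` its class and `a ∈ A`.
(It is convenient to work in the commutative group `A` with the action of `H` by conjugation, e.g.
`MulAut.conjNormal`.)
-/

set_option autoImplicit false

namespace Pool.Agent.Helper12.KR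

theorem exists_finite_supplement {H : Type*} [Group H] (A : Subgroup H) [A.Normal]
    (hA : ∀ a ∈ A, ∀ b ∈ A, a * b = b * a) (hq : A.index ≠ 0)
    (hdiv : ∀ a ∈ A, ∃ b ∈ A, b ^ A.index = a) (htor : {a : H | a ∈ A ∧ a ^ A.index = 1}.Finite) :
    ∃ G : Subgroup H, Finite G ∧ ∀ h : H, ∃ a ∈ A, ∃ g ∈ G, h = a * g := by
  classical
  let iA : CommGroup A :=
    { (inferInstance : Group A) with
      mul_comm := fun a b => Subtype.ext (hA a a.2 b b.2) }
  have fQ : Finite (H ⧸ A) := (Nat.finite_of_card_ne_zero hq)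
  let iF : Fintype (H ⧸ A) := Fintype.ofFinite _
  have hcard : Fintype.card (H ⧸ A) = A.index := by
    rw [← Nat.card_eq_fintype_card]; rfl
  obtain ⟨s, hs⟩ : ∃ s : H ⧸ A → H, ∀ x, (s x : H ⧸ A) = x := ⟨Quotient.out, fun x => Quotient.out_eq' x⟩
  have hcm : ∀ x y, s x * s y * (s (x * y))⁻¹ ∈ A := by
    intro x y
    rw [← QuotientGroup.eq_one_iff]
    simp [hs]
  let c : H ⧸ A → H ⧸ A → A := fun x y => ⟨s x * s y * (s (x * y))⁻¹, hcm x y⟩
  let k : H → A → A := fun h a => MulAut.conjNormal h a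
  have kval : ∀ (h : H) (a : A), ((k h a : A) : H) = h * a * h⁻¹ := fun h a =>
    MulAut.conjNormal_apply h a
  have kmul : ∀ (h : H) (a b : A), k h (a * b) = k h a * k h b := fun h a b =>
    map_mul (MulAut.conjNormal h) a b
  have kprod : ∀ (h : H) (F : H ⧸ A → A), k h (∏ z, F z) = ∏ z, k h (F z) := fun h F =>
    map_prod (MulAut.conjNormal h) F Finset.univ
  have kpow : ∀ (h : H) (a : A) (n : ℕ), k h (a ^ n) = (k h a) ^ n := fun h a n =>
    map_pow (MulAut.conjNormal h) a n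
  have kinv : ∀ (h : H) (a : A), k h (a⁻¹) = (k h a)⁻¹ := fun h a =>
    map_inv (MulAut.conjNormal h) a
  have hcoc : ∀ x y z, c x y * c (x * y) z = k (s x) (c y z) * c x (y * z) := by
    intro x y z
    apply Subtype.ext
    simp only [Subgroup.coe_mul, kval, c, mul_assoc]
    group
  let f : H ⧸ A → A := fun x => ∏ z, c x z
  have hf : ∀ x y, (c x y) ^ A.index * f (x * y) = k (s x) (f y) * f x := by
    intro x y
    have h1 : ∏ z, (c x y * c (x * y) z) = ∏ z, (k (s x) (c y z) * c x (y * z)) :=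
      Finset.prod_congr rfl fun z _ => hcoc x y z
    rw [Finset.prod_mul_distrib, Finset.prod_mul_distrib, Finset.prod_const, Finset.card_univ, hcard,
      ← kprod] at h1
    have h2 : ∏ z, c x (y * z) = ∏ z, c x z := Equiv.prod_comp (Equiv.mulLeft y) (fun z => c x z)
    rw [h2] at h1
    exact h1
  have he : ∀ x, ∃ e : A, e ^ A.index = (f x)⁻¹ := by
    intro x
    obtain ⟨b, hb, hb'⟩ := hdiv ((f x)⁻¹ : A) ((f x)⁻¹ : A).2
    exact ⟨⟨b, hb⟩, Subtype.ext (by simpa using hb')⟩
  choose e he using he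
  let s' : H ⧸ A → H := fun x => (e x : H) * s x
  let c' : H ⧸ A → H ⧸ A → A := fun x y => e x * k (s x) (e y) * c x y * (e (x * y))⁻¹
  have hs' : ∀ x y, s' x * s' y = (c' x y : H) * s' (x * y) := by
    intro x y
    simp only [s', c', Subgroup.coe_mul, Subgroup.coe_inv, kval, c]
    group
  have hc' : ∀ x y, (c' x y) ^ A.index = 1 := by
    intro x y
    simp only [c']
    rw [mul_pow, mul_pow, mul_pow, inv_pow, he, ← kpow, he, he, kinv, inv_inv]
    have h3 := hf x y
    generalize f x = F1 at *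
    generalize k (s x) (f y) = F2 at *
    generalize f (x * y) = F3 at *
    generalize (c x y) ^ A.index = F4 at *
    rw [mul_assoc, h3, mul_comm F2 F1, mul_assoc, ← mul_assoc F2⁻¹, mul_comm F2⁻¹ F1, mul_assoc,
      inv_mul_cancel, mul_one, inv_mul_cancel]
  have hs'q : ∀ x, (s' x : H ⧸ A) = x := by
    intro x
    have : ((e x : H) : H ⧸ A) = 1 := (QuotientGroup.eq_one_iff _).2 (e x).2
    simp only [s', QuotientGroup.mk_mul, this, hs, one_mul]
  let B : Subgroup H :=
    { carrier := {a : H | a ∈ A ∧ a ^ A.index = 1}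
      one_mem' := ⟨A.one_mem, one_pow _⟩
      mul_mem' := by
        rintro a b ⟨ha, ha'⟩ ⟨hb, hb'⟩
        refine ⟨A.mul_mem ha hb, ?_⟩
        rw [(show Commute a b from hA a ha b hb).mul_pow, ha', hb', one_mul]
      inv_mem' := by
        rintro a ⟨ha, ha'⟩
        exact ⟨A.inv_mem ha, by rw [inv_pow, ha', inv_one]⟩ }
  have hBfin : (B : Set H).Finite := htor
  have hBc : ∀ (h : H) (b : H), b ∈ B → h * b * h⁻¹ ∈ B := by
    rintro h b ⟨hb, hb'⟩
    refine ⟨‹A.Normal›.conj_mem b hb h, ?_⟩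
    rw [conj_pow, hb']; group
  have hc'B : ∀ x y, ((c' x y : A) : H) ∈ B := fun x y =>
    ⟨(c' x y).2, by
      have := congrArg (fun a : A => (a : H)) (hc' x y)
      simpa using this⟩
  have hs1 : s' 1 ∈ B := by
    have h := hs' 1 1
    rw [mul_one] at h
    have h2 : s' 1 = (c' 1 1 : H) := mul_right_cancel h
    rw [h2]; exact hc'B 1 1
  let G : Subgroup H :=
    { carrier := {h : H | ∃ b ∈ B, ∃ x, h = b * s' x}
      one_mem' := ⟨(s' 1)⁻¹, B.inv_mem hs1, 1, by group⟩
      mul_mem' := by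
        rintro _ _ ⟨b, hb, x, rfl⟩ ⟨b', hb', y, rfl⟩
        refine ⟨b * (s' x * b' * (s' x)⁻¹) * c' x y,
          B.mul_mem (B.mul_mem hb (hBc _ _ hb')) (hc'B x y), x * y, ?_⟩
        rw [mul_assoc _ _ (s' (x * y)), ← hs' x y]
        group
      inv_mem' := by
        rintro _ ⟨b, hb, x, rfl⟩
        have h := hs' x⁻¹ x
        rw [inv_mul_cancel] at h
        have hβ : ((c' x⁻¹ x : A) : H) * s' 1 ∈ B := B.mul_mem (hc'B _ _) hs1
        have h3 : (s' x)⁻¹ = (((c' x⁻¹ x : A) : H) * s' 1)⁻¹ * s' x⁻¹ := by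
          rw [← h]; group
        refine ⟨(((c' x⁻¹ x : A) : H) * s' 1)⁻¹ * (s' x⁻¹ * b⁻¹ * (s' x⁻¹)⁻¹),
          B.mul_mem (B.inv_mem hβ) (hBc _ _ (B.inv_mem hb)), x⁻¹, ?_⟩
        rw [mul_inv_rev, h3]
        group }
  refine ⟨G, ?_, ?_⟩
  · have hfin : ((fun p : H × (H ⧸ A) => p.1 * s' p.2) '' ((B : Set H) ×ˢ (Set.univ : Set (H ⧸ A)))).Finite :=
      (hBfin.prod Set.finite_univ).image _
    have : (G : Set H) ⊆ (fun p : H × (H ⧸ A) => p.1 * s' p.2) '' ((B : Set H) ×ˢ (Set.univ : Set (H ⧸ A))) := by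
      rintro _ ⟨b, hb, x, rfl⟩
      exact ⟨(b, x), ⟨hb, Set.mem_univ _⟩, rfl⟩
    exact (hfin.subset this).to_subtype
  · intro h
    refine ⟨h * (s' (h : H ⧸ A))⁻¹, ?_, s' (h : H ⧸ A), ⟨1, B.one_mem, _, (one_mul _).symm⟩, by group⟩
    rw [← QuotientGroup.eq_one_iff]
    rw [QuotientGroup.mk_mul, QuotientGroup.mk_inv, hs'q]
    exact mul_inv_cancel _

end Pool.Agent.Helper12.KR
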