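import Pool.Agent.Helper12.KR.Main2
import Pool.Agent.Helper12.KR.Supp

/-!
# Project KR: groups whose identity component is a torus
-/

set_option autoImplicit false

namespace Pool.Agent.Helper12.KR

open MeasureTheory Pool.Agent.Helper12.KQ

private theorem finite_roots {N q : ℕ} (hq : q ≠ 0) :
    {c : Fin N → ℂˣ | ∀ i, c i ^ q = 1}.Finite := by
  have h1 : {z : ℂˣ | z ^ q = 1}.Finite := by
    haveI : NeZero q := ⟨hq⟩
    have h2 : ((rootsOfUnity q ℂ : Subgroup ℂˣ) : Set ℂˣ).Finite := by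
      haveI : Finite (rootsOfUnity q ℂ) := inferInstance
      exact Set.finite_coe_iff.1 this
    refine h2.subset fun z hz => ?_
    exact (mem_rootsOfUnity q z).2 hz
  refine (Set.Finite.pi' fun _ : Fin N => h1).subset fun c hc i => hc i

theorem exists_supp {N ρ : ℕ} (W : Fin N → Fin ρ → ℤ) (H : Subgroup (GL (Fin N) ℂ))
    (hT : ∀ t, tor W t ∈ H) (hfin : (tor W).range.relIndex H ≠ 0)
    (hnorm : ∀ g ∈ H, ∀ t, ∃ t', g * tor W t = tor W t' * g) :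
    ∃ G ≤ H, Finite G ∧ ∀ g ∈ H, ∃ t, ∃ g' ∈ G, g = tor W t * g' := by
  obtain ⟨A, hA⟩ : ∃ A : Subgroup H, A = (tor W).range.subgroupOf H := ⟨_, rfl⟩
  have hmem : ∀ a : H, a ∈ A ↔ ∃ t, tor W t = (a : GL (Fin N) ℂ) := by
    intro a
    rw [hA, Subgroup.mem_subgroupOf, MonoidHom.mem_range]
  have hAn : A.Normal := by
    refine ⟨fun a ha g => ?_⟩
    obtain ⟨t, ht⟩ := (hmem a).1 ha
    obtain ⟨t', ht'⟩ := hnorm g g.2 t
    refine (hmem _).2 ⟨t', ?_⟩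
    rw [Subgroup.coe_mul, Subgroup.coe_mul, Subgroup.coe_inv, ← ht, ht', mul_inv_cancel_right]
  have hq : A.index ≠ 0 := by
    rw [hA]
    exact hfin
  obtain ⟨G, hG, hG2⟩ := exists_finite_supplement A
    (by
      intro a ha b hb
      obtain ⟨t, ht⟩ := (hmem a).1 ha
      obtain ⟨s, hs⟩ := (hmem b).1 hb
      apply Subtype.ext
      rw [Subgroup.coe_mul, Subgroup.coe_mul, ← ht, ← hs, ← map_mul, ← map_mul, mul_comm])
    hq
    (by
      intro a ha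
      obtain ⟨t, ht⟩ := (hmem a).1 ha
      have h1 : ∀ z : ℂˣ, ∃ y : ℂˣ, y ^ A.index = z := by
        intro z
        obtain ⟨y, hy⟩ := IsAlgClosed.exists_pow_nat_eq (z : ℂ) (Nat.pos_of_ne_zero hq)
        have hy0 : y ≠ 0 := by
          rintro rfl
          rw [zero_pow hq] at hy
          exact z.ne_zero hy.symm
        exact ⟨Units.mk0 y hy0, Units.ext (by rw [Units.val_pow_eq_pow_val, Units.val_mk0, hy])⟩
      choose r hr using h1
      refine ⟨⟨tor W fun j => r (t j), hT _⟩, (hmem _).2 ⟨_, rfl⟩, ?_⟩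
      apply Subtype.ext
      rw [SubmonoidClass.coe_pow, ← ht, ← map_pow]
      congr 1
      funext j
      exact hr (t j))
    (by
      have h1 : (dg N '' {c : Fin N → ℂˣ | ∀ i, c i ^ A.index = 1}).Finite :=
        (finite_roots hq).image _
      refine Set.Finite.subset (h1.preimage (f := fun a : H => (a : GL (Fin N) ℂ))
        (fun a _ b _ hab => Subtype.ext hab)) ?_
      rintro a ⟨ha1, ha2⟩
      obtain ⟨t, ht⟩ := (hmem a).1 ha1
      refine ⟨fun i => chr (W i) t, ?_, ?_⟩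
      · intro i
        have h2 : (tor W t) ^ A.index = 1 := by
          rw [ht, ← SubmonoidClass.coe_pow, ha2]
          rfl
        rw [tor_eq, ← map_pow] at h2
        have h3 := congrArg (fun g : GL (Fin N) ℂ => (g : Matrix (Fin N) (Fin N) ℂ) i i) h2
        simp only [dg_coe, Matrix.diagonal_apply_eq, Units.val_one, Matrix.one_apply_eq] at h3
        exact Units.ext h3
      · exact (tor_eq W t).symm.trans ht)
  refine ⟨G.map H.subtype, ?_, ?_, ?_⟩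
  · rintro _ ⟨g, -, rfl⟩
    exact g.2
  · exact Finite.of_surjective (fun g : G => (⟨H.subtype g.1, ⟨g.1, g.2, rfl⟩⟩ : G.map H.subtype))
      (by
        rintro ⟨_, g, hg, rfl⟩
        exact ⟨⟨g, hg⟩, rfl⟩)
  · intro g hg
    obtain ⟨a, ha, g', hg', h1⟩ := hG2 ⟨g, hg⟩
    obtain ⟨t, ht⟩ := (hmem a).1 ha
    refine ⟨t, H.subtype g', ⟨g', hg', rfl⟩, ?_⟩
    rw [ht]
    exact congrArg Subtype.val h1

theorem main3 (d : ℕ) : ∃ C : ℕ, 0 < C ∧ ∀ ε : ℝ, 0 < ε → ε ≤ 1 → ∀ k : ℕ, 2 ≤ k →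
    d * 2 ^ (d + 4) / ε ≤ k → ∀ (N ρ : ℕ) (W : Fin N → Fin ρ → ℤ) (θ : Fin ρ → ℤ)
    (H : Subgroup (GL (Fin N) ℂ)), N ≤ d + (Matrix.of fun i j => (W i j : ℚ)).rank →
    (∀ t, tor W t ∈ H) → (tor W).range.relIndex H ≠ 0 →
    (∀ g ∈ H, ∀ t, ∃ t', g * tor W t = tor W t' * g) →
    (∀ g ∈ H, ∀ i l, (g : Matrix (Fin N) (Fin N) ℂ) i l ≠ 0 → W i ≠ W l →
      ∃ m, Inv W m ∧ m i ≠ m l) →
    (∀ g ∈ H, ∀ u, Sst W θ u → Sst W θ ((g : Matrix (Fin N) (Fin N) ℂ).mulVec u)) →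
    (∀ u, Sst W θ u → Sst W (can W) u) →
    (∀ g ∈ H, (∀ t, g * tor W t = tor W t * g) → ∀ u : Fin N → ℂ, Sst W θ u →
      (g : Matrix (Fin N) (Fin N) ℂ).mulVec u = u → g ≠ 1 →
      Elliptic (g : Matrix (Fin N) (Fin N) ℂ) → ε ≤ age (g : Matrix (Fin N) (Fin N) ℂ)) →
    ∃ h : MvPolynomial (Fin N) ℂ,
      (∀ g ∈ H, ∀ x : Fin N → ℂ,
        MvPolynomial.eval ((g : Matrix (Fin N) (Fin N) ℂ).mulVec x) h =
          (g : Matrix (Fin N) (Fin N) ℂ).det ^ (k * C) * MvPolynomial.eval x h) ∧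
      ∀ u, Sst W θ u → KltAt (k * C) h u := by
  obtain ⟨C, hC, h0⟩ := main2 d
  refine ⟨C, hC, ?_⟩
  intro ε hε hε1 k hk2 hk N ρ W θ H hd hT hfin hnorm hND hΩ hnef hage
  obtain ⟨G, hGH, hG, hG2⟩ := exists_supp W H hT hfin hnorm
  obtain ⟨h, h1, h2⟩ := h0 ε hε hε1 k hk2 hk N ρ W θ G hd hG (fun g hg => hnorm g (hGH hg))
    (fun g hg => hND g (hGH hg)) (fun g hg => hΩ g (hGH hg)) hnef
    (by
      intro g hg hc t u hu hfix hne hell
      refine hage (tor W t * g) (H.mul_mem (hT t) (hGH hg)) (fun s => ?_) u hu hfix hne hell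
      rw [mul_assoc, hc s, ← mul_assoc, ← mul_assoc, ← map_mul, ← map_mul, mul_comm])
  refine ⟨h, ?_, h2⟩
  intro g hg x
  obtain ⟨t, g', hg', rfl⟩ := hG2 g hg
  exact h1 g' hg' t x

end Pool.Agent.Helper12.KR
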