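import Pool.Agent.Helper12.KR.Defs

/-!
# Block KR-R: the rank of the lattice of the relations between the weights

`finrank_inv`. Let `k = Module.finrank ℤ L` and let `b : Fin k → L` be a basis of the free module `L`
(a submodule of `ℤ^N`). The `b_j`, seen in `ℤ^N`, are linearly independent over `ℤ`, so the `b_j`, seen in
`ℚ^N`, are linearly independent over `ℚ` (`LinearIndependent.iff_fractionRing`; first over `ℤ` in `ℚ^N`, the
map `ℤ^N → ℚ^N` being injective). They lie in the kernel of `x ↦ (∑_i x_i W_ij)_j`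
(`Matrix.vecMulLinear` or `mulVecLin` of the transpose), whose dimension is `N - rank W`
(`LinearMap.finrank_range_add_finrank_ker`, `Matrix.rank_transpose`). So `k ≤ N - rank W ≤ d`.

`inv_gen`. Apply it to `L = {m | Inv W m}`; a basis `b : Fin k → L`, `k ≤ d`, extended by `0`.
-/

set_option autoImplicit false

namespace Pool.Agent.Helper12.KR

variable {N ρ : ℕ}

theorem finrank_inv {W : Fin N → Fin ρ → ℤ} {d : ℕ}
    (hd : N ≤ d + (Matrix.of fun i j => (W i j : ℚ)).rank) (L : AddSubgroup (Fin N → ℤ))
    (hL : ∀ m ∈ L, Inv W m) : Module.finrank ℤ L ≤ d := by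
  classical
  set A : Matrix (Fin N) (Fin ρ) ℚ := Matrix.of fun i j => (W i j : ℚ) with hA
  have hfin : Module.Finite ℤ L :=
    (inferInstance : Module.Finite ℤ (AddSubgroup.toIntSubmodule L))
  have hfree : Module.Free ℤ L :=
    (inferInstance : Module.Free ℤ (AddSubgroup.toIntSubmodule L))
  let b := Module.finBasis ℤ L
  -- the map to `ℚ^N`
  let φ : L →ₗ[ℤ] (Fin N → ℚ) :=
    ((Int.castAddHom ℚ).compLeft (Fin N)).toIntLinearMap ∘ₗ L.subtype.toIntLinearMap
  have hφ : ∀ (m : L) (i : Fin N), φ m i = ((m : Fin N → ℤ) i : ℚ) := fun m i => rfl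
  have hinj : LinearMap.ker φ = ⊥ := by
    rw [LinearMap.ker_eq_bot']
    intro m hm
    apply Subtype.ext
    funext i
    have := congrFun hm i
    rw [hφ, Pi.zero_apply] at this
    change (m : Fin N → ℤ) i = 0
    exact_mod_cast this
  have hli : LinearIndependent ℚ (fun j => φ (b j)) := by
    rw [← LinearIndependent.iff_fractionRing (R := ℤ) (K := ℚ)]
    exact b.linearIndependent.map' φ hinj
  have hker : ∀ m : L, φ m ∈ LinearMap.ker A.vecMulLinear := by
    intro m
    rw [LinearMap.mem_ker]
    funext j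
    have h := hL m.1 m.2 j
    simp only [Matrix.vecMulLinear_apply, Matrix.vecMul, dotProduct, Pi.zero_apply, hφ, hA,
      Matrix.of_apply]
    exact_mod_cast h
  have hli' : LinearIndependent ℚ
      (fun j => (⟨φ (b j), hker (b j)⟩ : LinearMap.ker A.vecMulLinear)) :=
    LinearIndependent.of_comp (LinearMap.ker A.vecMulLinear).subtype hli
  have hcard := hli'.fintype_card_le_finrank
  rw [Fintype.card_fin] at hcard
  have hrn := LinearMap.finrank_range_add_finrank_ker A.vecMulLinear
  rw [Module.finrank_fin_fun] at hrn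
  have hr : Module.finrank ℚ (LinearMap.range A.vecMulLinear) = A.rank := by
    rw [← Matrix.rank_transpose, Matrix.rank, Matrix.mulVecLin_transpose]
  omega

theorem inv_gen {W : Fin N → Fin ρ → ℤ} {d : ℕ}
    (hd : N ≤ d + (Matrix.of fun i j => (W i j : ℚ)).rank) :
    ∃ b : Fin d → Fin N → ℤ, (∀ j, Inv W (b j)) ∧
      ∀ m, Inv W m → ∃ c : Fin d → ℤ, ∀ i, m i = ∑ j, c j * b j i := by
  classical
  let L : AddSubgroup (Fin N → ℤ) :=
    { carrier := {m | Inv W m}
      zero_mem' := fun j => by simp
      add_mem' := by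
        intro a b ha hb j
        have h1 := ha j
        have h2 := hb j
        simp only [Pi.add_apply, add_mul, Finset.sum_add_distrib]
        omega
      neg_mem' := by
        intro a ha j
        have h1 := ha j
        simp only [Pi.neg_apply, neg_mul, Finset.sum_neg_distrib]
        omega }
  have hmem : ∀ m, m ∈ L ↔ Inv W m := fun m => Iff.rfl
  have hk := finrank_inv hd L (fun m hm => hm)
  have hfin : Module.Finite ℤ L :=
    (inferInstance : Module.Finite ℤ (AddSubgroup.toIntSubmodule L))
  have hfree : Module.Free ℤ L :=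
    (inferInstance : Module.Free ℤ (AddSubgroup.toIntSubmodule L))
  let b := Module.finBasis ℤ L
  set k := Module.finrank ℤ L with hkd
  refine ⟨fun j => if h : (j : ℕ) < k then (b ⟨j, h⟩ : Fin N → ℤ) else 0, ?_, ?_⟩
  · intro j
    dsimp only
    split_ifs with h
    · exact (b ⟨j, h⟩).2
    · intro j'
      simp
  · intro m hm
    refine ⟨fun j => if h : (j : ℕ) < k then b.repr ⟨m, hm⟩ ⟨j, h⟩ else 0, ?_⟩
    intro i
    have h1 := b.sum_repr ⟨m, hm⟩
    have h2 : (∑ j : Fin k, b.repr ⟨m, hm⟩ j • (b j : Fin N → ℤ)) = m := by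
      have h3 := congrArg (fun x : L => (x : Fin N → ℤ)) h1
      simp only [AddSubgroup.val_finsetSum] at h3
      exact h3
    have h4 : m i = ∑ j : Fin k, b.repr ⟨m, hm⟩ j * (b j : Fin N → ℤ) i := by
      conv_lhs => rw [← h2]
      rw [Finset.sum_apply]
      rfl
    rw [h4]
    refine Fintype.sum_of_injective (Fin.castLE hk) (Fin.castLE_injective hk) _ _ ?_ ?_
    · intro j hj
      have hjk : ¬ (j : ℕ) < k := fun h => hj ⟨⟨j, h⟩, rfl⟩
      simp only [dif_neg hjk, zero_mul]
    · intro j
      have hjk : ((Fin.castLE hk j : Fin d) : ℕ) < k := j.2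
      simp only [dif_pos hjk]
      rfl

end Pool.Agent.Helper12.KR
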