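import Pool.Agent.Helper12.KR.Lp
import Pool.Agent.Helper12.KR.Dual2
import Pool.Agent.Helper12.KR.Rank

/-!
# Block KR-P: the transference theorem

Notation: `⟨y, W_i⟩ = ∑_j y_j W_ij`. `Fix` is the hypothesis on the elements `t_i = chr (W i) s * a i` of
`T A` with `|t_i| = 1` which fix a semistable point `pt I`.

`age_bound`. Let `M = lat W A` and suppose `w m = ∑ a_i m_i` for `m ∈ M`, `w : M → ℤ` not zero, `a_i ≥ 0`
real. Claim `ε ≤ ∑ a_i`. Take `y`, `I'` from `lp`, `b_i = a_i - ⟨y, W_i⟩ ≥ 0`, `b_i = 0` for `i ∈ I'`. For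
`m ∈ M`: `∑ b_i m_i = ∑ a_i m_i - ∑_j y_j ∑_i m_i W_ij = w m`. Let `t_i = exp (2 π i b_i)`, `|t_i| = 1`;
`t^m = exp (2 π i w m) = 1` for `m ∈ M`, so `t_i = chr (W i) s * a°_i` with `a° ∈ A` (`dual2`), and
`t_i = 1` for `i ∈ I'`. If some `t_i ≠ 1` then `ε ≤ ∑ theta (t_i) = ∑ fract b_i ≤ ∑ b_i` by `Fix`
(`theta_exp` in KQ/Toric). If all `t_i = 1` then all `b_i` are nonnegative integers, not all of them
zero (`w ≠ 0`), so `ε ≤ 1 ≤ ∑ b_i`. Finally `∑ b_i = ∑ a_i - ⟨y, can W⟩` and `⟨y, can W⟩ ≥ 0`: by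
`hnef`, `n can W = ∑_{i ∈ I'} e_i W_i` with `n > 0`, `e_i ≥ 0`, so
`n ⟨y, can W⟩ = ∑_{i ∈ I'} e_i a_i ≥ 0`. (Compare the proof of `exists_neg` in `KQ/Toric.lean`.)

`exists_neg2`. `M` is a subgroup of `ℤ^N`, free of rank `k ≤ d` (`finrank_inv`). Apply
`Pool.Agent.Helper79.KLT.pos_span k M _ (Fin N) V ε`, `V i m = m_i`, `v0 m = ∑ m_i v_i`, with `age_bound`;
`k 2^(k+4) ≤ d 2^(d+4)`. `v0 ≠ 0`: by `hnef`, `n can W = ∑_i e_i W_i` with `n > 0`, `e_i = 0` for
`i ∉ I`. Let `m_i = |A| (n - e_i)`; then `m ∈ M` (as `a^(|A|) = 1` and `∑_i W_i = can W`) and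
`∑ m_i v_i = |A| n ∑ v_i > 0`, because `v_i = 0` for `i ∈ I` and `v ≥ 0` is not zero.
-/

set_option autoImplicit false

namespace Pool.Agent.Helper12.KR

open MeasureTheory Pool.Agent.Helper12.KQ

variable {N ρ : ℕ}

/-- the lattice of the exponents of the invariant Laurent monomials -/
def lat (W : Fin N → Fin ρ → ℤ) (A : Subgroup (Fin N → ℂˣ)) : AddSubgroup (Fin N → ℤ) where
  carrier := {m | (∀ a ∈ A, ∏ i, a i ^ m i = 1) ∧ ∀ j, ∑ i, m i * W i j = 0}
  zero_mem' := ⟨fun a _ => by simp, fun j => by simp⟩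
  add_mem' := by
    rintro m m' ⟨h1, h2⟩ ⟨h1', h2'⟩
    refine ⟨fun a ha => ?_, fun j => ?_⟩
    · simp only [Pi.add_apply, zpow_add, Finset.prod_mul_distrib, h1 a ha, h1' a ha, mul_one]
    · simp only [Pi.add_apply, add_mul, Finset.sum_add_distrib, h2 j, h2' j, add_zero]
  neg_mem' := by
    rintro m ⟨h1, h2⟩
    refine ⟨fun a ha => ?_, fun j => ?_⟩
    · simp only [Pi.neg_apply, zpow_neg, Finset.prod_inv_distrib, h1 a ha, inv_one]
    · simp only [Pi.neg_apply, neg_mul, Finset.sum_neg_distrib, h2 j, neg_zero]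

theorem mem_lat {W : Fin N → Fin ρ → ℤ} {A : Subgroup (Fin N → ℂˣ)} {m : Fin N → ℤ} :
    m ∈ lat W A ↔ (∀ a ∈ A, ∏ i, a i ^ m i = 1) ∧ ∀ j, ∑ i, m i * W i j = 0 := Iff.rfl

/-- the elliptic elements of `T A` fixing the semistable points `pt I` have age at least `ε` -/
def Fix (W : Fin N → Fin ρ → ℤ) (θ : Fin ρ → ℤ) (A : Subgroup (Fin N → ℂˣ)) (ε : ℝ) : Prop :=
  ∀ I, Pos W θ I → ∀ a ∈ A, ∀ s : Fin ρ → ℂˣ, (∀ i ∈ I, chr (W i) s * a i = 1) →
    (∀ i, ‖((chr (W i) s * a i : ℂˣ) : ℂ)‖ = 1) → (∃ i, chr (W i) s * a i ≠ 1) →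
    ε ≤ ∑ i, theta ((chr (W i) s * a i : ℂˣ) : ℂ)

theorem age_bound {W : Fin N → Fin ρ → ℤ} {θ : Fin ρ → ℤ} {A : Subgroup (Fin N → ℂˣ)}
    (hA : Finite A) {ε : ℝ} (hε : 0 < ε) (hε1 : ε ≤ 1) (hfix : Fix W θ A ε)
    (hnef : ∀ I, Pos W θ I → Pos W (can W) I) (h0 : Pos W θ Finset.univ)
    (w : lat W A →+ ℤ) (hw : w ≠ 0) (a : Fin N → ℝ) (ha : ∀ i, 0 ≤ a i)
    (hwa : ∀ m : lat W A, (w m : ℝ) = ∑ i, a i * ((m : Fin N → ℤ) i : ℝ)) : ε ≤ ∑ i, a i := by
  obtain ⟨y, I, hI, hy1, hy2⟩ := lp h0 ha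
  obtain ⟨b, hb⟩ : ∃ b : Fin N → ℝ, b = fun i => a i - ∑ j, y j * (W i j : ℝ) := ⟨_, rfl⟩
  have hb0 : ∀ i, 0 ≤ b i := fun i => by
    rw [hb]
    exact sub_nonneg.2 (hy1 i)
  have hbI : ∀ i ∈ I, b i = 0 := fun i hi => by
    rw [hb]
    exact sub_eq_zero.2 (hy2 i hi).symm
  -- the sum of the `b i`
  have hsum : ∑ i, b i ≤ ∑ i, a i := by
    obtain ⟨n, e, hn, he, hs⟩ := hnef I hI
    have h1 : (n : ℝ) * ∑ i, ∑ j, y j * (W i j : ℝ) = ∑ i, (e i : ℝ) * a i := by
      have h2 : ∀ j, (n : ℝ) * ∑ i, (W i j : ℝ) = ∑ i, (e i : ℝ) * (W i j : ℝ) := by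
        intro j
        have h3 := hs j
        have h4 : ((n : ℤ) * ∑ i, W i j : ℤ) = ∑ i, (e i : ℤ) * W i j := h3.symm
        exact_mod_cast congrArg (fun z : ℤ => (z : ℝ)) h4
      calc (n : ℝ) * ∑ i, ∑ j, y j * (W i j : ℝ) = ∑ j, y j * ((n : ℝ) * ∑ i, (W i j : ℝ)) := by
            rw [Finset.sum_comm, Finset.mul_sum]
            refine Finset.sum_congr rfl fun j _ => ?_
            rw [← Finset.mul_sum]
            ring
        _ = ∑ j, y j * ∑ i, (e i : ℝ) * (W i j : ℝ) := by simp only [h2]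
        _ = ∑ i, (e i : ℝ) * ∑ j, y j * (W i j : ℝ) := by
            simp only [Finset.mul_sum]
            rw [Finset.sum_comm]
            refine Finset.sum_congr rfl fun i _ => Finset.sum_congr rfl fun j _ => ?_
            ring
        _ = ∑ i, (e i : ℝ) * a i := by
            refine Finset.sum_congr rfl fun i _ => ?_
            by_cases hi : i ∈ I
            · rw [hy2 i hi]
            · rw [he i hi]
              simp
    have h5 : 0 ≤ ∑ i, (e i : ℝ) * a i :=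
      Finset.sum_nonneg fun i _ => mul_nonneg (Nat.cast_nonneg _) (ha i)
    have h6 : 0 ≤ ∑ i, ∑ j, y j * (W i j : ℝ) := by
      have hn' : (0 : ℝ) < n := by exact_mod_cast hn
      by_contra h7
      push Not at h7
      have := mul_neg_of_pos_of_neg hn' h7
      linarith
    rw [hb, Finset.sum_sub_distrib]
    linarith
  have hwb : ∀ m : lat W A, (w m : ℝ) = ∑ i, b i * ((m : Fin N → ℤ) i : ℝ) := by
    intro m
    have h1 : ∑ i, (∑ j, y j * (W i j : ℝ)) * ((m : Fin N → ℤ) i : ℝ) = 0 := by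
      calc ∑ i, (∑ j, y j * (W i j : ℝ)) * ((m : Fin N → ℤ) i : ℝ) =
          ∑ i, ∑ j, y j * (((m : Fin N → ℤ) i : ℝ) * (W i j : ℝ)) := by
            refine Finset.sum_congr rfl fun i _ => ?_
            rw [Finset.sum_mul]
            refine Finset.sum_congr rfl fun j _ => ?_
            ring
        _ = ∑ j, y j * ∑ i, ((m : Fin N → ℤ) i : ℝ) * (W i j : ℝ) := by
            rw [Finset.sum_comm]
            refine Finset.sum_congr rfl fun j _ => ?_
            rw [Finset.mul_sum]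
        _ = 0 := by
            refine Finset.sum_eq_zero fun j _ => ?_
            have h2 := (mem_lat.1 m.2).2 j
            have h3 : ∑ i, ((m : Fin N → ℤ) i : ℝ) * (W i j : ℝ) = 0 := by
              exact_mod_cast congrArg (fun z : ℤ => (z : ℝ)) h2
            rw [h3, mul_zero]
    rw [hwa m, hb]
    simp only [sub_mul, Finset.sum_sub_distrib, h1, sub_zero]
  -- the element of the torus
  let t : Fin N → ℂˣ := fun i =>
    Units.mk0 (Complex.exp (2 * Real.pi * b i * Complex.I)) (Complex.exp_ne_zero _)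
  obtain ⟨s, a', ha', ht⟩ := dual2 W A hA t (by
    intro m hm1 hm2
    apply Units.ext
    rw [Units.val_one, Units.coe_prod]
    have h1 : ∀ i ∈ (Finset.univ : Finset (Fin N)), ((t i ^ m i : ℂˣ) : ℂ) =
        Complex.exp ((m i : ℂ) * (2 * Real.pi * b i * Complex.I)) := by
      intro i _
      rw [Units.val_zpow_eq_zpow_val, Complex.exp_int_mul]
      rfl
    rw [Finset.prod_congr rfl h1, ← Complex.exp_sum]
    have h2 := hwb ⟨m, hm1, hm2⟩
    have h3 : ∑ i, (m i : ℂ) * (2 * Real.pi * b i * Complex.I) =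
        (w ⟨m, hm1, hm2⟩ : ℂ) * (2 * Real.pi * Complex.I) := by
      have h4 : ((w ⟨m, hm1, hm2⟩ : ℤ) : ℂ) = ∑ i, (b i : ℂ) * (m i : ℂ) := by
        have h5 : ((w ⟨m, hm1, hm2⟩ : ℤ) : ℝ) = ∑ i, b i * (m i : ℝ) := h2
        exact_mod_cast congrArg (fun r : ℝ => (r : ℂ)) h5
      rw [h4, Finset.sum_mul]
      refine Finset.sum_congr rfl fun i _ => ?_
      ring
    rw [h3, Complex.exp_int_mul_two_pi_mul_I])
  have hth : ∀ i, theta (t i) = Int.fract (b i) := fun i => theta_exp (b i)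
  have hnorm : ∀ i, ‖((t i : ℂˣ) : ℂ)‖ = 1 := by
    intro i
    show ‖Complex.exp (2 * Real.pi * b i * Complex.I)‖ = 1
    have h1 : (2 * Real.pi * b i * Complex.I : ℂ) = ((2 * Real.pi * b i : ℝ) : ℂ) * Complex.I := by
      push_cast
      ring
    rw [h1, Complex.norm_exp_ofReal_mul_I]
  have htI : ∀ i ∈ I, t i = 1 := by
    intro i hi
    apply Units.ext
    show Complex.exp (2 * Real.pi * b i * Complex.I) = 1
    rw [hbI i hi]
    simp
  refine le_trans ?_ hsum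
  by_cases h1 : ∀ i, t i = 1
  · have h2 : ∀ i, Int.fract (b i) = 0 := by
      intro i
      rw [← hth i, h1 i]
      simp [theta]
    have h3 : ∃ i, b i ≠ 0 := by
      by_contra h
      push Not at h
      apply hw
      ext m
      have h4 := hwb m
      simp only [h, zero_mul, Finset.sum_const_zero] at h4
      have h5 : w m = 0 := by exact_mod_cast h4
      simpa using h5
    obtain ⟨i, hi⟩ := h3
    have h4 : (⌊b i⌋ : ℝ) = b i := by
      have := Int.fract_add_floor (b i)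
      rw [h2 i, zero_add] at this
      exact this
    have h5 : 0 < b i := lt_of_le_of_ne (hb0 i) (Ne.symm hi)
    have h6 : 1 ≤ b i := by
      rw [← h4] at h5 ⊢
      have : 0 < ⌊b i⌋ := by exact_mod_cast h5
      exact_mod_cast this
    exact hε1.trans (h6.trans (Finset.single_le_sum (fun j _ => hb0 j) (Finset.mem_univ i)))
  · push Not at h1
    obtain ⟨i0, hi0⟩ := h1
    have h2 := hfix I hI a' ha' s (fun i hi => by rw [← ht i]; exact htI i hi)
      (fun i => by rw [← ht i]; exact hnorm i) ⟨i0, by rw [← ht i0]; exact hi0⟩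
    refine h2.trans (Finset.sum_le_sum fun i _ => ?_)
    rw [← ht i, hth i]
    have h3 := Int.fract_add_floor (b i)
    have h4 : (0 : ℝ) ≤ (⌊b i⌋ : ℝ) := by
      have : 0 ≤ ⌊b i⌋ := Int.floor_nonneg.2 (hb0 i)
      exact_mod_cast this
    linarith

theorem exists_neg2 {W : Fin N → Fin ρ → ℤ} {θ : Fin ρ → ℤ} {A : Subgroup (Fin N → ℂˣ)}
    (hA : Finite A) {ε : ℝ} (hε : 0 < ε) (hε1 : ε ≤ 1) (hfix : Fix W θ A ε)
    (hnef : ∀ I, Pos W θ I → Pos W (can W) I) {d : ℕ}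
    (hd : N ≤ d + (Matrix.of fun i j => (W i j : ℚ)).rank) {I : Finset (Fin N)} (hI : Pos W θ I)
    (v : Fin N → ℝ) (hv : v ≠ 0) (hv0 : ∀ i, 0 ≤ v i) (hvI : ∀ i ∈ I, v i = 0) :
    ∃ m ∈ lat W A, ∑ i, (m i : ℝ) * v i < 0 ∧ ∀ i, -(d * 2 ^ (d + 4) / ε) ≤ (m i : ℝ) := by
  have hcA : 0 < Nat.card A := Nat.card_pos
  let inc : lat W A →ₗ[ℤ] (Fin N → ℤ) := (lat W A).subtype.toIntLinearMap
  have hinc : Function.Injective inc := fun x y h => Subtype.ext h
  have : Module.Finite ℤ (lat W A) := Module.Finite.of_injective inc hinc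
  have : Module.IsTorsionFree ℤ (lat W A) := inferInstance
  have : Module.Free ℤ (lat W A) := inferInstance
  have hrank : Module.finrank ℤ (lat W A) ≤ d :=
    finrank_inv hd (lat W A) fun m hm => (mem_lat.1 hm).2
  let V : Fin N → lat W A →+ ℝ := fun i =>
    { toFun := fun m => ((m : Fin N → ℤ) i : ℝ)
      map_zero' := by simp
      map_add' := by
        intro x y
        simp }
  let v0 : lat W A →+ ℝ :=
    { toFun := fun m => ∑ i, ((m : Fin N → ℤ) i : ℝ) * v i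
      map_zero' := by simp
      map_add' := by
        intro x y
        simp [add_mul, Finset.sum_add_distrib] }
  have hv00 : v0 ≠ 0 := by
    intro h
    obtain ⟨n, e, hn, he, hs⟩ := hnef I hI
    have hmem : (fun i => (Nat.card A : ℤ) * ((n : ℤ) - e i)) ∈ lat W A := by
      refine mem_lat.2 ⟨fun a ha => ?_, fun j => ?_⟩
      · refine Finset.prod_eq_one fun i _ => ?_
        have h2 : a ^ Nat.card A = 1 := by
          have h3 : (⟨a, ha⟩ : A) ^ Nat.card A = 1 := pow_card_eq_one'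
          exact congrArg Subtype.val h3
        have h4 : a i ^ Nat.card A = 1 := congrFun h2 i
        rw [zpow_mul, zpow_natCast, h4, one_zpow]
      · have h1 : ∑ i, (e i : ℤ) * W i j = n * ∑ i, W i j := hs j
        calc ∑ i, (Nat.card A : ℤ) * ((n : ℤ) - e i) * W i j =
            (Nat.card A : ℤ) * ((n : ℤ) * ∑ i, W i j - ∑ i, (e i : ℤ) * W i j) := by
              rw [Finset.mul_sum, ← Finset.sum_sub_distrib, Finset.mul_sum]
              refine Finset.sum_congr rfl fun i _ => ?_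
              ring
          _ = 0 := by rw [h1, sub_self, mul_zero]
    have h1 := DFunLike.congr_fun h ⟨_, hmem⟩
    have h2 : ∑ i, ((((Nat.card A : ℤ) * ((n : ℤ) - e i) : ℤ)) : ℝ) * v i = 0 := h1
    have h3 : ∑ i, ((((Nat.card A : ℤ) * ((n : ℤ) - e i) : ℤ)) : ℝ) * v i =
        (Nat.card A : ℝ) * (n : ℝ) * ∑ i, v i := by
      rw [Finset.mul_sum]
      refine Finset.sum_congr rfl fun i _ => ?_
      by_cases hi : i ∈ I
      · rw [hvI i hi]
        simp
      · rw [he i hi]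
        push_cast
        ring
    rw [h3] at h2
    have h4 : 0 < ∑ i, v i := by
      obtain ⟨i, hi⟩ : ∃ i, v i ≠ 0 := by
        by_contra hno
        push Not at hno
        exact hv (funext hno)
      exact Finset.sum_pos' (fun i _ => hv0 i)
        ⟨i, Finset.mem_univ i, lt_of_le_of_ne (hv0 i) (Ne.symm hi)⟩
    have h5 : (0 : ℝ) < Nat.card A := by exact_mod_cast hcA
    have h6 : (0 : ℝ) < n := by exact_mod_cast hn
    have h7 : 0 < (Nat.card A : ℝ) * (n : ℝ) * ∑ i, v i := by positivity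
    linarith
  obtain ⟨m, hm1, hm2⟩ := Pool.Agent.Helper79.KLT.pos_span (Module.finrank ℤ (lat W A)) (lat W A)
    rfl (Fin N) V ε hε (fun w hw a ha hwa => age_bound hA hε hε1 hfix hnef
      (hI.mono (Finset.subset_univ I)) w hw a ha hwa) v0 hv00
  refine ⟨m, m.2, hm1, fun i => le_trans ?_ (hm2 i)⟩
  apply neg_le_neg
  have h1 : ((Module.finrank ℤ (lat W A) : ℕ) : ℝ) ≤ d := by exact_mod_cast hrank
  have h2 : (2 : ℝ) ^ (Module.finrank ℤ (lat W A) + 4) ≤ 2 ^ (d + 4) :=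
    pow_le_pow_right₀ (by norm_num) (by omega)
  gcongr

end Pool.Agent.Helper12.KR
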