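import Pool.Agent.Helper12.KR.Defs

/-!
# Block KR-Q: linear changes of variables, products and powers, at arbitrary points

Same proofs as in `KQ/Prod.lean` (`klt_lin`, `klt_prod`, `klt_pow`), with `nhds u` instead of `nhds 0`.
`klt_lin2`: let `U ∈ nhds (g u)` be the neighbourhood for `h`; for `lin g h` (the polynomial `h (g x)`,
`eval_lin`) take `{x | g x ∈ U} ∈ nhds u`; the linear map `x ↦ g x` multiplies Lebesgue measure by a
constant.
-/

set_option autoImplicit false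

namespace Pool.Agent.Helper12.KR

open MeasureTheory Pool.Agent.Helper12.KQ

private noncomputable def linEquiv_h2 {d : ℕ} (g : GL (Fin d) ℂ) :
    (Fin d → ℂ) ≃ₗ[ℝ] (Fin d → ℂ) :=
  { toFun := fun x => (g : Matrix (Fin d) (Fin d) ℂ).mulVec x
    map_add' := fun x y => Matrix.mulVec_add _ x y
    map_smul' := fun r x => by
      simp only [RingHom.id_apply]
      exact Matrix.mulVec_smul _ r x
    invFun := fun x => ((g⁻¹ : GL (Fin d) ℂ) : Matrix (Fin d) (Fin d) ℂ).mulVec x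
    left_inv := fun x => by
      show ((g⁻¹ : GL (Fin d) ℂ) : Matrix (Fin d) (Fin d) ℂ).mulVec
        ((g : Matrix (Fin d) (Fin d) ℂ).mulVec x) = x
      rw [Matrix.mulVec_mulVec, ← Units.val_mul, inv_mul_cancel, Units.val_one, Matrix.one_mulVec]
    right_inv := fun x => by
      show (g : Matrix (Fin d) (Fin d) ℂ).mulVec
        (((g⁻¹ : GL (Fin d) ℂ) : Matrix (Fin d) (Fin d) ℂ).mulVec x) = x
      rw [Matrix.mulVec_mulVec, ← Units.val_mul, mul_inv_cancel, Units.val_one,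
        Matrix.one_mulVec] }

private theorem enorm_prod_h2 {ι : Type*} (R : Finset ι) (a : ι → ℂ) :
    ‖∏ i ∈ R, a i‖ₑ = ∏ i ∈ R, ‖a i‖ₑ := by
  classical
  induction R using Finset.induction_on with
  | empty => simp
  | insert i s hi ih => rw [Finset.prod_insert hi, Finset.prod_insert hi, enorm_mul, ih]

private theorem rpow_prod_le_h2 {n : ℕ} (hn : 0 < n) {ι : Type*} (R : Finset ι)
    (hR : R.Nonempty) (a : ι → ENNReal) :
    (∏ i ∈ R, a i) ^ (-(2 / ((n * R.card : ℕ) : ℝ))) ≤ ∑ i ∈ R, a i ^ (-(2 / (n : ℝ))) := by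
  classical
  obtain ⟨i0, hi0, hmin⟩ := Finset.exists_min_image R a hR
  have hj : 0 < R.card := hR.card_pos
  have hn' : (0 : ℝ) < n := by exact_mod_cast hn
  have hj' : (0 : ℝ) < (R.card : ℝ) := by exact_mod_cast hj
  have h1 : a i0 ^ R.card ≤ ∏ i ∈ R, a i := by
    rw [← Finset.prod_const]
    exact Finset.prod_le_prod' fun i hi => hmin i hi
  have h2 : (∏ i ∈ R, a i) ^ (-(2 / ((n * R.card : ℕ) : ℝ))) ≤ a i0 ^ (-(2 / (n : ℝ))) := by
    rw [ENNReal.rpow_neg, ENNReal.rpow_neg]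
    refine ENNReal.inv_le_inv.2 ?_
    calc a i0 ^ (2 / (n : ℝ)) = (a i0 ^ R.card) ^ (2 / ((n * R.card : ℕ) : ℝ)) := by
          rw [← ENNReal.rpow_natCast, ← ENNReal.rpow_mul]
          congr 1
          push_cast
          field_simp
      _ ≤ _ := ENNReal.rpow_le_rpow h1 (by positivity)
  exact h2.trans (Finset.single_le_sum (f := fun i => a i ^ (-(2 / (n : ℝ))))
    (fun _ _ => zero_le) hi0)

theorem klt_lin2 {N n : ℕ} (g : GL (Fin N) ℂ) {h : MvPolynomial (Fin N) ℂ} {u : Fin N → ℂ}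
    (hk : KltAt n h ((g : Matrix (Fin N) (Fin N) ℂ).mulVec u)) :
    KltAt n (lin (g : Matrix (Fin N) (Fin N) ℂ) h) u := by
  obtain ⟨U, hU, hint⟩ := hk
  let L : (Fin N → ℂ) ≃L[ℝ] (Fin N → ℂ) := (linEquiv_h2 g).toContinuousLinearEquiv
  have hL' : ∀ x, L x = (g : Matrix (Fin N) (Fin N) ℂ).mulVec x := fun x => rfl
  let E : (Fin N → ℂ) ≃ᵐ (Fin N → ℂ) := L.toHomeomorph.toMeasurableEquiv
  have hE : ∀ x, E x = (g : Matrix (Fin N) (Fin N) ℂ).mulVec x := fun x => rfl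
  refine ⟨E ⁻¹' U, ?_, ?_⟩
  · have hc : ContinuousAt L u := L.continuous.continuousAt
    exact hc hU
  · have hdet : LinearMap.det (linEquiv_h2 g : (Fin N → ℂ) →ₗ[ℝ] (Fin N → ℂ)) ≠ 0 :=
      (LinearEquiv.isUnit_det' (linEquiv_h2 g)).ne_zero
    have hmap : Measure.map E (volume : Measure (Fin N → ℂ)) =
        ENNReal.ofReal |(LinearMap.det (linEquiv_h2 g : (Fin N → ℂ) →ₗ[ℝ] (Fin N → ℂ)))⁻¹| •
          (volume : Measure (Fin N → ℂ)) :=
      Measure.map_linearMap_addHaar_eq_smul_addHaar (μ := volume) hdet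
    have h1 : ∫⁻ x in E ⁻¹' U,
        ‖MvPolynomial.eval x (lin (g : Matrix (Fin N) (Fin N) ℂ) h)‖ₑ ^ (-(2 / (n : ℝ))) =
        ∫⁻ y in U, ‖MvPolynomial.eval y h‖ₑ ^ (-(2 / (n : ℝ)))
          ∂(Measure.map E (volume : Measure (Fin N → ℂ))) := by
      rw [E.restrict_map, lintegral_map_equiv]
      refine lintegral_congr fun x => ?_
      rw [eval_lin, hE]
    rw [h1, hmap, Measure.restrict_smul, lintegral_smul_measure]
    exact ENNReal.mul_lt_top ENNReal.ofReal_lt_top hint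

theorem klt_prod2 {N n : ℕ} (hn : 0 < n) {ι : Type*} (R : Finset ι) (hR : R.Nonempty)
    (f : ι → MvPolynomial (Fin N) ℂ) {u : Fin N → ℂ} (hf : ∀ i ∈ R, KltAt n (f i) u) :
    KltAt (n * R.card) (∏ i ∈ R, f i) u := by
  classical
  have hch : ∀ i : ι, ∃ U : Set (Fin N → ℂ), i ∈ R → (U ∈ nhds u ∧
      ∫⁻ x in U, ‖MvPolynomial.eval x (f i)‖ₑ ^ (-(2 / (n : ℝ))) < ⊤) := by
    intro i
    by_cases hi : i ∈ R
    · obtain ⟨U, h1, h2⟩ := hf i hi
      exact ⟨U, fun _ => ⟨h1, h2⟩⟩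
    · exact ⟨Set.univ, fun h => absurd h hi⟩
  choose U hU using hch
  refine ⟨⋂ i ∈ R, U i, (Filter.biInter_finset_mem R).2 fun i hi => (hU i hi).1, ?_⟩
  have hmeas : ∀ i, Measurable fun x : Fin N → ℂ =>
      ‖MvPolynomial.eval x (f i)‖ₑ ^ (-(2 / (n : ℝ))) := fun i =>
    ((MvPolynomial.continuous_eval (f i)).measurable.enorm).pow_const _
  calc ∫⁻ x in ⋂ i ∈ R, U i,
        ‖MvPolynomial.eval x (∏ i ∈ R, f i)‖ₑ ^ (-(2 / ((n * R.card : ℕ) : ℝ)))
      ≤ ∫⁻ x in ⋂ i ∈ R, U i, ∑ i ∈ R, ‖MvPolynomial.eval x (f i)‖ₑ ^ (-(2 / (n : ℝ))) := by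
        refine lintegral_mono fun x => ?_
        rw [map_prod, enorm_prod_h2]
        exact rpow_prod_le_h2 hn R hR _
    _ = ∑ i ∈ R, ∫⁻ x in ⋂ i ∈ R, U i, ‖MvPolynomial.eval x (f i)‖ₑ ^ (-(2 / (n : ℝ))) :=
        lintegral_finsetSum R fun i _ => hmeas i
    _ < ⊤ := by
        refine ENNReal.sum_lt_top.2 fun i hi => lt_of_le_of_lt ?_ (hU i hi).2
        exact lintegral_mono_set (Set.biInter_subset_of_mem hi)

theorem klt_pow2 {N n k : ℕ} (hn : 0 < n) (hk : 0 < k) {h : MvPolynomial (Fin N) ℂ}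
    {u : Fin N → ℂ} (hh : KltAt n h u) : KltAt (n * k) (h ^ k) u := by
  have h1 := klt_prod2 hn (Finset.range k) (Finset.nonempty_range_iff.2 hk.ne') (fun _ => h)
    (fun _ _ => hh)
  simpa using h1

end Pool.Agent.Helper12.KR
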