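import Pool.Agent.Helper12.KR.Defs

/-!
# Block KR-S: semistability

`sst_iff`. (→) Let `f (t x) = (t^θ)^n f (x)` for all `t`, `x`, `f (u) ≠ 0`. `f (u)` is the sum of the
`coeff e f * ∏ u_i^(e_i)` over the support of `f` (`MvPolynomial.eval_eq'`), so there is `e` with
`coeff e f ≠ 0` and `∏ u_i^(e_i) ≠ 0`; hence `e_i = 0` if `u_i = 0`. Fix `j` and
`t = Pi.mulSingle j 2` (the unit `2`); then `t^w = 2^(w_j)` for `w ∈ ℤ^ρ`. Comparing the coefficients of
`x^e` in `f (t x) = 2^(n θ_j) f (x)` (both sides are polynomials in `x`, `MvPolynomial.funext`; the left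
side is `∑_e coeff e f * (∏ (t^(W_i))^(e_i)) x^e`, e.g. `MvPolynomial.bind₁`, or rescale) gives
`2^(∑ e_i W_ij) = 2^(n θ_j)`, so `∑ e_i W_ij = n θ_j` (`zpow_right_injective₀`).
(←) `f = ∏ X_i^(e_i)`.
`sst_conj`. Take `f' = lin P⁻¹ f`, that is `f' (x) = f (P⁻¹ x)` (`eval_lin`):
`f' (tor W' t x) = f (P⁻¹ (tor W' t) x) = f (tor W t (P⁻¹ x))` and `f' (P u) = f (u)`.
`det_tor`: `Matrix.det_diagonal`, `∏_i ∏_j t_j^(W_ij) = ∏_j t_j^(∑_i W_ij)`.
`can_eq`: the determinants are equal; take `t = Pi.mulSingle j 2`.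
-/

set_option autoImplicit false

namespace Pool.Agent.Helper12.KR

open MeasureTheory Pool.Agent.Helper12.KQ

variable {N ρ : ℕ}

theorem Pos.mono {W : Fin N → Fin ρ → ℤ} {θ : Fin ρ → ℤ} {I I' : Finset (Fin N)} (h : I ⊆ I')
    (hI : Pos W θ I) : Pos W θ I' := by
  obtain ⟨n, e, hn, he, hs⟩ := hI
  exact ⟨n, e, hn, fun i hi => he i fun h' => hi (h h'), hs⟩

/-- Rescaling the variables. -/
private noncomputable def scl33 (c : Fin N → ℂ) (f : MvPolynomial (Fin N) ℂ) :
    MvPolynomial (Fin N) ℂ :=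
  MvPolynomial.bind₁ (fun i => MvPolynomial.C (c i) * MvPolynomial.X i) f

private theorem eval_scl33 (c x : Fin N → ℂ) (f : MvPolynomial (Fin N) ℂ) :
    MvPolynomial.eval x (scl33 c f) = MvPolynomial.eval (fun i => c i * x i) f := by
  rw [scl33, MvPolynomial.eval, MvPolynomial.eval₂Hom_bind₁]
  congr 1
  congr 1
  funext i
  simp

private theorem coeff_scl33 (c : Fin N → ℂ) (f : MvPolynomial (Fin N) ℂ) (e : Fin N →₀ ℕ) :
    MvPolynomial.coeff e (scl33 c f) = MvPolynomial.coeff e f * ∏ i, c i ^ e i := by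
  induction f using MvPolynomial.induction_on' with
  | monomial d a =>
    have h : scl33 c (MvPolynomial.monomial d a) =
        MvPolynomial.monomial d (a * ∏ i, c i ^ d i) := by
      rw [scl33, MvPolynomial.bind₁_monomial]
      rw [MvPolynomial.monomial_eq (a := a * _), Finsupp.prod_fintype _ _ (by simp)]
      rw [Finset.prod_subset (Finset.subset_univ d.support) (by
        intro i _ hi
        rw [Finsupp.notMem_support_iff.mp hi, pow_zero])]
      simp only [mul_pow, Finset.prod_mul_distrib, map_mul, map_prod, map_pow]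
      ring
    rw [h, MvPolynomial.coeff_monomial, MvPolynomial.coeff_monomial]
    split_ifs with h1
    · rw [h1]
    · simp
  | add p q hp hq =>
    have h : scl33 c (p + q) = scl33 c p + scl33 c q := by simp [scl33]
    rw [h, MvPolynomial.coeff_add, MvPolynomial.coeff_add, hp, hq, add_mul]

private theorem chr_single33 (θ : Fin ρ → ℤ) (j : Fin ρ) (a : ℂˣ) :
    chr θ (Pi.mulSingle j a) = a ^ θ j := by
  rw [chr_apply, Finset.prod_eq_single j]
  · rw [Pi.mulSingle_eq_same]
  · intro k _ hk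
    rw [Pi.mulSingle_eq_of_ne hk, one_zpow]
  · simp

private theorem tor_mulVec33 (W : Fin N → Fin ρ → ℤ) (t : Fin ρ → ℂˣ) (x : Fin N → ℂ) :
    (tor W t : Matrix (Fin N) (Fin N) ℂ).mulVec x = fun i => (chr (W i) t : ℂ) * x i := by
  rw [tor_eq, dg_coe]
  funext i
  rw [Matrix.mulVec_diagonal]

private theorem two_inj33 {a b : ℤ} (h : (2 : ℂ) ^ a = (2 : ℂ) ^ b) : a = b := by
  have h1 := congrArg (fun z : ℂ => ‖z‖) h
  simp only [norm_zpow, Complex.norm_ofNat] at h1
  exact zpow_right_injective₀ two_pos (by norm_num) h1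

theorem sst_iff (W : Fin N → Fin ρ → ℤ) (θ : Fin ρ → ℤ) (u : Fin N → ℂ) :
    Sst W θ u ↔ Pos W θ (supp u) := by
  constructor
  · rintro ⟨n, f, hn, hf, hu⟩
    rw [MvPolynomial.eval_eq'] at hu
    obtain ⟨e, he, he2⟩ := Finset.exists_ne_zero_of_sum_ne_zero hu
    refine ⟨n, fun i => e i, hn, ?_, ?_⟩
    · intro i hi
      by_contra h
      have h1 : u i = 0 := by
        by_contra h2
        exact hi (mem_supp.mpr h2)
      apply he2
      rw [Finset.prod_eq_zero (Finset.mem_univ i) (by rw [h1, zero_pow h]), mul_zero]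
    · intro j
      set two : ℂˣ := Units.mk0 (2 : ℂ) two_ne_zero with htwo
      set t : Fin ρ → ℂˣ := Pi.mulSingle j two with ht
      have h1 : scl33 (fun i => (chr (W i) t : ℂ)) f =
          MvPolynomial.C ((chr θ t : ℂ) ^ n) * f := by
        apply MvPolynomial.funext
        intro x
        rw [eval_scl33, ← tor_mulVec33, hf t x, map_mul, MvPolynomial.eval_C]
      have h2 := congrArg (MvPolynomial.coeff e) h1
      rw [coeff_scl33, MvPolynomial.coeff_C_mul, mul_comm] at h2
      have h3 := mul_right_cancel₀ (left_ne_zero_of_mul he2) h2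
      have h4 : ∀ w : Fin ρ → ℤ, ((chr w t : ℂˣ) : ℂ) = (2 : ℂ) ^ (w j) := by
        intro w
        rw [ht, chr_single33]
        simp [htwo]
      simp only [h4] at h3
      have h5 : (2 : ℂ) ^ (∑ i, (e i : ℤ) * W i j) = (2 : ℂ) ^ ((n : ℤ) * θ j) := by
        rw [mul_comm (n : ℤ), zpow_mul, zpow_natCast, ← h3]
        have h6 : ∀ s : Finset (Fin N), (2 : ℂ) ^ (∑ i ∈ s, (e i : ℤ) * W i j) =
            ∏ i ∈ s, ((2 : ℂ) ^ W i j) ^ e i := by
          intro s
          classical
          induction s using Finset.induction_on with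
          | empty => simp
          | insert a s ha ih =>
            rw [Finset.sum_insert ha, Finset.prod_insert ha, zpow_add₀ two_ne_zero, ih,
              mul_comm (e a : ℤ), zpow_mul, zpow_natCast]
        exact h6 Finset.univ
      exact two_inj33 h5
  · rintro ⟨n, e, hn, he, hs⟩
    refine ⟨n, ∏ i, MvPolynomial.X i ^ e i, hn, ?_, ?_⟩
    · intro t x
      rw [tor_mulVec33]
      simp only [map_prod, map_pow, MvPolynomial.eval_X, mul_pow, Finset.prod_mul_distrib]
      congr 1
      rw [← Units.val_pow_eq_pow_val]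
      have h1 : ∀ i, ((chr (W i) t : ℂ)) ^ e i = ((chr (W i) t ^ e i : ℂˣ) : ℂ) := by
        intro i
        simp
      simp only [h1]
      rw [← Units.coe_prod]
      congr 1
      simp only [chr_apply, ← Finset.prod_pow]
      rw [Finset.prod_comm]
      apply Finset.prod_congr rfl
      intro j _
      rw [← zpow_natCast (t j ^ θ j), ← zpow_mul, mul_comm (θ j), ← hs j]
      have h6 : ∀ s : Finset (Fin N), (t j) ^ (∑ i ∈ s, (e i : ℤ) * W i j) =
          ∏ i ∈ s, ((t j) ^ W i j) ^ e i := by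
        intro s
        classical
        induction s using Finset.induction_on with
        | empty => simp
        | insert a s ha ih =>
          rw [Finset.sum_insert ha, Finset.prod_insert ha, zpow_add, ih,
            mul_comm (e a : ℤ), zpow_mul, zpow_natCast]
      exact (h6 Finset.univ).symm
    · simp only [map_prod, map_pow, MvPolynomial.eval_X]
      rw [Finset.prod_ne_zero_iff]
      intro i _
      by_cases hi : i ∈ supp u
      · exact pow_ne_zero _ (mem_supp.mp hi)
      · rw [he i hi, pow_zero]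
        exact one_ne_zero

theorem sst_pt (W : Fin N → Fin ρ → ℤ) (θ : Fin ρ → ℤ) (I : Finset (Fin N)) :
    Sst W θ (pt I) ↔ Pos W θ I := by
  rw [sst_iff, supp_pt]

theorem sst_conj {W W' : Fin N → Fin ρ → ℤ} {P : GL (Fin N) ℂ}
    (h : ∀ t, P * tor W t * P⁻¹ = tor W' t) {θ : Fin ρ → ℤ} {u : Fin N → ℂ} (hu : Sst W θ u) :
    Sst W' θ ((P : Matrix (Fin N) (Fin N) ℂ).mulVec u) := by
  obtain ⟨n, f, hn, hf, hu⟩ := hu
  refine ⟨n, lin ((P⁻¹ : GL (Fin N) ℂ) : Matrix (Fin N) (Fin N) ℂ) f, hn, ?_, ?_⟩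
  · intro t x
    rw [eval_lin, eval_lin, ← hf t, Matrix.mulVec_mulVec, Matrix.mulVec_mulVec]
    congr 3
    rw [← Units.val_mul, ← Units.val_mul, ← h t]
    congr 1
    group
  · rw [eval_lin, Matrix.mulVec_mulVec, ← Units.val_mul, inv_mul_cancel, Units.val_one,
      Matrix.one_mulVec]
    exact hu

theorem det_tor (W : Fin N → Fin ρ → ℤ) (t : Fin ρ → ℂˣ) :
    (tor W t : Matrix (Fin N) (Fin N) ℂ).det = (chr (can W) t : ℂ) := by
  rw [tor_eq, dg_coe, Matrix.det_diagonal, ← Units.coe_prod]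
  congr 1
  simp only [chr_apply, can]
  rw [Finset.prod_comm]
  apply Finset.prod_congr rfl
  intro j _
  have h6 : ∀ s : Finset (Fin N), (t j) ^ (∑ i ∈ s, W i j) = ∏ i ∈ s, (t j) ^ W i j := by
    intro s
    classical
    induction s using Finset.induction_on with
    | empty => simp
    | insert a s ha ih =>
      rw [Finset.sum_insert ha, Finset.prod_insert ha, zpow_add, ih]
  exact (h6 Finset.univ).symm

theorem can_eq {W W' : Fin N → Fin ρ → ℤ} {P : GL (Fin N) ℂ}
    (h : ∀ t, P * tor W t * P⁻¹ = tor W' t) : can W = can W' := by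
  funext j
  set two : ℂˣ := Units.mk0 (2 : ℂ) two_ne_zero with htwo
  set t : Fin ρ → ℂˣ := Pi.mulSingle j two with ht
  have h1 : (tor W' t : Matrix (Fin N) (Fin N) ℂ).det =
      (tor W t : Matrix (Fin N) (Fin N) ℂ).det := by
    rw [← h t, Units.val_mul, Units.val_mul, Matrix.det_mul, Matrix.det_mul, mul_right_comm,
      ← Matrix.det_mul, ← Units.val_mul, mul_inv_cancel, Units.val_one, Matrix.det_one, one_mul]
  rw [det_tor, det_tor] at h1
  have h4 : ∀ w : Fin ρ → ℤ, ((chr w t : ℂˣ) : ℂ) = (2 : ℂ) ^ (w j) := by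
    intro w
    rw [ht, chr_single33]
    simp [htwo]
  rw [h4, h4] at h1
  exact (two_inj33 h1).symm

end Pool.Agent.Helper12.KR
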