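import Pool.Agent.Helper12.KR.Neg2
import Pool.Agent.Helper12.KR.Conv2
import Pool.Agent.Helper12.KR.Int2
import Pool.Agent.Helper12.KR.Comb2

/-!
# Project KR: a torus times a finite diagonal group
-/

set_option autoImplicit false

namespace Pool.Agent.Helper12.KR

open MeasureTheory Pool.Agent.Helper12.KQ

variable {N ρ : ℕ}

private theorem prod_zpow' {α ι : Type*} [CommGroup α] (s : Finset ι) (g : α) (f : ι → ℤ) :
    ∏ i ∈ s, g ^ f i = g ^ ∑ i ∈ s, f i := by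
  classical
  induction s using Finset.induction_on with
  | empty => simp
  | insert i s hi ih => rw [Finset.prod_insert hi, Finset.sum_insert hi, ih, zpow_add]

theorem lat_eval {W : Fin N → Fin ρ → ℤ} {A : Subgroup (Fin N → ℂˣ)} {m : Fin N → ℤ}
    (hm : m ∈ lat W A) {a : Fin N → ℂˣ} (ha : a ∈ A) (s : Fin ρ → ℂˣ) :
    ∏ i, (chr (W i) s * a i) ^ m i = 1 := by
  obtain ⟨h1, h2⟩ := mem_lat.1 hm
  have h3 : ∏ i, (chr (W i) s) ^ m i = 1 := by
    calc ∏ i, (chr (W i) s) ^ m i = ∏ i, ∏ j, s j ^ (m i * W i j) := by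
          refine Finset.prod_congr rfl fun i _ => ?_
          rw [chr_apply, ← Finset.prod_zpow]
          refine Finset.prod_congr rfl fun j _ => ?_
          rw [← zpow_mul, mul_comm]
      _ = ∏ j, ∏ i, s j ^ (m i * W i j) := Finset.prod_comm
      _ = 1 := by
          refine Finset.prod_eq_one fun j _ => ?_
          rw [prod_zpow', h2 j, zpow_zero]
  simp only [mul_zpow, Finset.prod_mul_distrib, h3, h1 a ha, mul_one]

private theorem rpow_anti' {s : ℝ} (hs : 0 < s) {a b : ENNReal} (h : a ≤ b) :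
    b ^ (-s) ≤ a ^ (-s) := by
  rw [ENNReal.rpow_neg, ENNReal.rpow_neg]
  exact ENNReal.inv_le_inv.2 (ENNReal.rpow_le_rpow h hs.le)

/-- The case of a torus times a finite diagonal group. -/
theorem torus2 {W : Fin N → Fin ρ → ℤ} {θ : Fin ρ → ℤ} {A : Subgroup (Fin N → ℂˣ)}
    (hA : Finite A) {ε : ℝ} (hε : 0 < ε) (hε1 : ε ≤ 1) (hfix : Fix W θ A ε)
    (hnef : ∀ I, Pos W θ I → Pos W (can W) I) {d : ℕ}
    (hd : N ≤ d + (Matrix.of fun i j => (W i j : ℚ)).rank) {k : ℕ} (hk2 : 2 ≤ k)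
    (hk : d * 2 ^ (d + 4) / ε ≤ k) :
    ∃ h : MvPolynomial (Fin N) ℂ, (∀ a ∈ A, ∀ (s : Fin ρ → ℂˣ) (x : Fin N → ℂ),
      MvPolynomial.eval (fun i => ((chr (W i) s * a i : ℂˣ) : ℂ) * x i) h =
        (∏ i, ((chr (W i) s * a i : ℂˣ) : ℂ)) ^ k * MvPolynomial.eval x h) ∧
      ∀ u, Sst W θ u → KltAt k h u := by
  classical
  have hk0 : 0 < k := by omega
  have hex : ∀ I : Finset (Fin N), ∃ (S : Finset (Fin N → ℤ)) (lam : (Fin N → ℤ) → ℝ),
      (∀ m ∈ S, m ∈ lat W A ∧ ∀ i, -(k : ℤ) ≤ m i) ∧ (Pos W θ I →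
        (∀ m ∈ S, 0 ≤ lam m) ∧ ∑ m ∈ S, lam m = 1 ∧
        ∀ i, i ∉ I → ∑ m ∈ S, lam m * (m i : ℝ) < 0) := by
    intro I
    by_cases hI : Pos W θ I
    · obtain ⟨S, lam, h1, h2, h3, h4⟩ := exists_conv2 (k := k) (lat W A : Set (Fin N → ℤ))
        (lat W A).zero_mem I (by
          intro v hv hv0 hvI
          obtain ⟨m, hm1, hm2, hm3⟩ := exists_neg2 hA hε hε1 hfix hnef hd hI v hv hv0 hvI
          refine ⟨m, hm1, hm2, fun i => ?_⟩
          have h1 : (-(k : ℝ)) ≤ (m i : ℝ) := (neg_le_neg hk).trans (hm3 i)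
          exact_mod_cast h1)
      exact ⟨S, lam, h1, fun _ => ⟨h2, h3, h4⟩⟩
    · exact ⟨∅, 0, by simp, fun h => absurd h hI⟩
  choose S lam hS hL using hex
  let φ : (Fin N → ℤ) → (Fin N → ℕ) := fun m i => (m i + k).toNat
  let ψ : (Fin N → ℕ) → (Fin N → ℤ) := fun n i => (n i : ℤ) - k
  have hφ : ∀ I, ∀ m ∈ S I, ∀ i, ((φ m i : ℕ) : ℤ) = m i + k := by
    intro I m hm i
    have h1 := (hS I m hm).2 i
    exact Int.toNat_of_nonneg (by omega)
  have hψφ : ∀ I, ∀ m ∈ S I, ψ (φ m) = m := by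
    intro I m hm
    funext i
    show ((φ m i : ℕ) : ℤ) - k = m i
    rw [hφ I m hm i]
    ring
  have hinj : ∀ I, Set.InjOn φ (S I) := by
    intro I m hm m' hm' he
    rw [← hψφ I m hm, ← hψφ I m' hm', he]
  obtain ⟨T, hT⟩ : ∃ T : Finset (Fin N → ℕ),
      T = Finset.univ.biUnion fun I : Finset (Fin N) => (S I).image φ := ⟨_, rfl⟩
  have hkR : (0 : ℝ) < k := by exact_mod_cast hk0
  have hs : (0 : ℝ) < 2 / k := by positivity
  have hs2 : (2 : ℝ) / k < 2 := by
    rw [div_lt_iff₀ hkR]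
    have : (2 : ℝ) ≤ k := by exact_mod_cast hk2
    linarith
  have hbase : ∀ I, Pos W θ I → ∀ R : ℝ, 0 < R →
      ∫⁻ x in box I R, (T.sup fun m => ‖∏ i, x i ^ m i‖ₑ) ^ (-(2 / (k : ℝ))) < ⊤ := by
    intro I hI R hR
    obtain ⟨hl0, hl1, hl2⟩ := hL I hI
    have h1 := base_int2 hk0 I hR ((S I).image φ) (fun n => lam I (ψ n))
      (by
        intro n hn
        obtain ⟨m, hm, rfl⟩ := Finset.mem_image.1 hn
        show 0 ≤ lam I (ψ (φ m))
        rw [hψφ I m hm]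
        exact hl0 m hm)
      (by
        rw [Finset.sum_image (hinj I), ← hl1]
        exact Finset.sum_congr rfl fun m hm => by rw [hψφ I m hm])
      (by
        intro i hi
        rw [Finset.sum_image (hinj I)]
        have h1 : ∀ m ∈ S I, lam I (ψ (φ m)) * ((φ m i : ℕ) : ℝ) =
            lam I m * (m i : ℝ) + lam I m * k := by
          intro m hm
          have h2 : ((φ m i : ℕ) : ℝ) = (m i : ℝ) + k := by exact_mod_cast hφ I m hm i
          rw [hψφ I m hm, h2]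
          ring
        rw [Finset.sum_congr rfl h1, Finset.sum_add_distrib, ← Finset.sum_mul, hl1]
        linarith [hl2 i hi])
    refine lt_of_le_of_lt (lintegral_mono fun x => ?_) h1
    apply rpow_anti' hs
    apply Finset.sup_mono
    rw [hT]
    exact Finset.subset_biUnion_of_mem (fun I : Finset (Fin N) => (S I).image φ)
      (Finset.mem_univ I)
  obtain ⟨c, hc⟩ := exists_comb2 (κ := {I : Finset (Fin N) // Pos W θ I} × ℕ)
    (fun p => volume.restrict (box p.1.1 ((p.2 + 1 : ℕ) : ℝ))) hs hs2 T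
    (fun m (x : Fin N → ℂ) => ∏ i, x i ^ m i) (fun m => by fun_prop)
    (fun p => hbase p.1.1 p.1.2 _ (by positivity))
  have heval : ∀ x : Fin N → ℂ, MvPolynomial.eval x (∑ m ∈ T, MvPolynomial.C (c m) *
      ∏ i, MvPolynomial.X i ^ m i) = ∑ m ∈ T, c m * ∏ i, x i ^ m i := by
    intro x
    simp
  refine ⟨∑ m ∈ T, MvPolynomial.C (c m) * ∏ i, MvPolynomial.X i ^ m i, ?_, ?_⟩
  · intro a ha s x
    rw [heval, heval, Finset.mul_sum]
    refine Finset.sum_congr rfl fun n hn => ?_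
    rw [hT] at hn
    obtain ⟨I, -, hn⟩ := Finset.mem_biUnion.1 hn
    obtain ⟨m, hm, rfl⟩ := Finset.mem_image.1 hn
    have h1 : ∏ i, (chr (W i) s * a i) ^ φ m i = (∏ i, chr (W i) s * a i) ^ k := by
      have h2 : ∀ i ∈ (Finset.univ : Finset (Fin N)), (chr (W i) s * a i) ^ φ m i =
          (chr (W i) s * a i) ^ m i * (chr (W i) s * a i) ^ k := by
        intro i _
        rw [← zpow_natCast (chr (W i) s * a i) (φ m i), hφ I m hm, zpow_add, zpow_natCast]
      rw [Finset.prod_congr rfl h2, Finset.prod_mul_distrib,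
        lat_eval (hS I m hm).1 ha s, one_mul, Finset.prod_pow]
    have h3 : ∏ i, ((chr (W i) s * a i : ℂˣ) : ℂ) ^ φ m i =
        (∏ i, ((chr (W i) s * a i : ℂˣ) : ℂ)) ^ k := by
      have h4 := congrArg (fun u : ℂˣ => (u : ℂ)) h1
      simp only [Units.coe_prod, Units.val_pow_eq_pow_val] at h4
      exact h4
    rw [show ∏ i, (((chr (W i) s * a i : ℂˣ) : ℂ) * x i) ^ φ m i =
      (∏ i, ((chr (W i) s * a i : ℂˣ) : ℂ) ^ φ m i) * ∏ i, x i ^ φ m i by
        simp only [mul_pow, Finset.prod_mul_distrib], h3]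
    ring
  · intro u hu
    obtain ⟨n, hn, hn2⟩ := box_mem u
    refine ⟨box (supp u) n, hn2, ?_⟩
    simp only [heval]
    have h1 := hc (⟨supp u, (sst_iff W θ u).1 hu⟩, n - 1)
    have h2 : n - 1 + 1 = n := by omega
    simp only [h2] at h1
    exact h1

end Pool.Agent.Helper12.KR
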